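import Mathlib
import Pool.Agent.Helper133.BUProd

/-!
# Statements used in the solution of the rank problem (topological part)
-/

set_option autoImplicit false

namespace Pool.Agent.Y269.RK

open Pool.Agent.Helper133.BT Pool.Agent.Helper133.BU
open scoped ComplexOrder

/-! ### sets covered by countably many locally Lipschitz images of subsets of `ℝ ^ d` -/

/-- `S` is covered by countably many locally Lipschitz images of subsets of `ℝ ^ d` -/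
def Par (d : ℕ) {E : Type} [NormedAddCommGroup E] (S : Set E) : Prop :=
  ∃ (f : ℕ → (Fin d → ℝ) → E) (s : ℕ → Set (Fin d → ℝ)),
    (∀ i, LocallyLipschitzOn (s i) (f i)) ∧ S ⊆ ⋃ i, f i '' s i

def S_PAR_MONO : Prop :=
  ∀ (d d' : ℕ) (E : Type) [NormedAddCommGroup E] (S T : Set E), d ≤ d' → S ⊆ T → Par d T → Par d' S

def S_PAR_UNION : Prop :=
  ∀ (d : ℕ) (E : Type) [NormedAddCommGroup E] (S : ℕ → Set E), (∀ i, Par d (S i)) →
    Par d (⋃ i, S i)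

def S_PAR_IMAGE : Prop :=
  ∀ (d : ℕ) (E F : Type) [NormedAddCommGroup E] [NormedAddCommGroup F] (S : Set E) (g : E → F),
    Par d S → LocallyLipschitzOn S g → Par d (g '' S)

def S_PAR_PROD : Prop :=
  ∀ (d : ℕ) (E F : Type) [NormedAddCommGroup E] [NormedAddCommGroup F] [NormedSpace ℝ F]
    [FiniteDimensional ℝ F] (S : Set E), Par d S →
    Par (d + Module.finrank ℝ F) (S ×ˢ (Set.univ : Set F))

def S_PAR_DENSE : Prop :=
  ∀ (d : ℕ) (E : Type) [NormedAddCommGroup E] [NormedSpace ℝ E] [FiniteDimensional ℝ E]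
    (S : Set E), Par d S → d < Module.finrank ℝ E → Dense Sᶜ

/-- the product of the surfaces of finitely many cross polytopes -/
def YY (n : ℕ → ℕ) (K0 : ℕ) : Set (∀ k : Fin K0, (Fin (n k + 1) → ℝ)) :=
  {y | ∀ k : Fin K0, y k ∈ K (n (k : ℕ))}

def S_PAR_SPH : Prop :=
  ∀ (m K0 : ℕ) (n : ℕ → ℕ) (T : Set (Fin m → ℝ)), Par (m + ∑ k : Fin K0, n k) (T ×ˢ YY n K0)

/-- solving linear equations with coefficients depending on a parameter -/
def S_ELIM : Prop :=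
  ∀ (d ρ : ℕ) (E Z F : Type) [NormedAddCommGroup E] [NormedSpace ℝ E] [FiniteDimensional ℝ E]
    [NormedAddCommGroup Z] [NormedSpace ℂ Z] [FiniteDimensional ℂ Z]
    [NormedAddCommGroup F] [NormedSpace ℂ F] [FiniteDimensional ℂ F]
    (S : Set E) (A : E → (Z →L[ℂ] F)) (v : E → F),
    Par d S → ContDiff ℝ 1 A → ContDiff ℝ 1 v →
    (∀ x ∈ S, ρ ≤ Module.finrank ℂ (LinearMap.range (A x : Z →ₗ[ℂ] F))) →
    Par (d + 2 * (Module.finrank ℂ Z - ρ)) {p : E × Z | p.1 ∈ S ∧ A p.1 p.2 = v p.1}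

/-! ### genericity -/

/-- the form of a matrix -/
noncomputable def herm {I : Type} [Fintype I] (P : Matrix I I ℂ) (u v : I → ℂ) : ℂ :=
  star u ⬝ᵥ P.mulVec v

/-- the Gram matrix of finitely many vectors -/
noncomputable def gram {I : Type} [Fintype I] (P : Matrix I I ℂ) {A : Type} (u : A → I → ℂ) :
    Matrix A A ℂ := Matrix.of fun a b => herm P (u a) (u b)

/-- the perturbed vectors -/
noncomputable def WW {m M : ℕ} {I E Z : Type} [NormedAddCommGroup Z] [NormedSpace ℂ Z]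
    (w : Fin m → Fin M → I → ℂ) (Ψ : Fin m → E → (Z →L[ℂ] (I → ℂ))) (z : Fin m → Fin M → Z)
    (x : E) (c : Fin m) (a : Fin M) : I → ℂ := w c a + Ψ c x (z c a)

open Classical in
/-- For generic `z` there is no `x ∈ S` at which the vectors with different labels are orthogonal
for the form `P x` and at least `q` of the `m` Gram matrices of the labels are singular. -/
def S_GEN : Prop :=
  ∀ (m M q δ ρ D : ℕ) (I E Z : Type) [Fintype I] [DecidableEq I]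
    [NormedAddCommGroup E] [NormedSpace ℝ E] [FiniteDimensional ℝ E]
    [NormedAddCommGroup Z] [NormedSpace ℂ Z] [FiniteDimensional ℂ Z]
    (S : Set E) (P : E → Matrix I I ℂ) (w : Fin m → Fin M → I → ℂ)
    (Ψ : Fin m → E → (Z →L[ℂ] (I → ℂ))),
    Par D S → (∀ i j, ContDiff ℝ 1 fun x => P x i j) → (∀ c, ContDiff ℝ 1 (Ψ c)) →
    (∀ x ∈ S, (P x).PosSemidef) → (∀ x ∈ S, ρ ≤ (P x).rank) →
    (∀ x ∈ S, ∀ c, Function.Surjective (Ψ c x)) →
    m * M ≤ ρ + δ → δ ≤ q →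
    D + 2 * q * δ + m * M + 2 * m * M ^ 2 < (m * M) ^ 2 + q ^ 2 + q →
    Dense {z : Fin m → Fin M → Z | ∀ x ∈ S,
      (∀ c c', c ≠ c' → ∀ a b, herm (P x) (WW w Ψ z x c a) (WW w Ψ z x c' b) = 0) →
      (Finset.univ.filter fun c : Fin m => (gram (P x) (WW w Ψ z x c)).det = 0).card < q}

/-! ### existence by the Borsuk-Ulam theorem -/

/-- the largest index below `K0` where the parities differ -/
def lead {m : ℕ} (par : ℕ → Fin m → ZMod 2) (K0 : ℕ) (c c' : Fin m) : ℕ :=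
  Nat.findGreatest (fun k => par k c ≠ par k c') (K0 - 1)

/-- the dimensions of the spheres: the number of real equations with leading index `k` -/
def nsp {m : ℕ} (par : ℕ → Fin m → ZMod 2) (K0 M k : ℕ) : ℕ :=
  max 1 (2 * M ^ 2 *
    (Finset.univ.filter fun p : Fin m × Fin m => p.1 < p.2 ∧ lead par K0 p.1 p.2 = k).card)

/-- the simplex of the parameters -/
def TT (m q : ℕ) : Set (Fin m → ℝ) := {t | (∀ c, 0 ≤ t c ∧ t c ≤ 1) ∧ ∑ c, t c = q}

/-- a diagonal block -/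
def dblk {m M : ℕ} (G : Matrix (Fin m × Fin M) (Fin m × Fin M) ℂ) (c : Fin m) :
    Matrix (Fin M) (Fin M) ℂ := Matrix.of fun a b => G (c, a) (c, b)

open Classical in
def S_EX : Prop :=
  ∀ (m M K0 q : ℕ) (par : ℕ → Fin m → ZMod 2)
    (Γ : (Fin m → ℝ) → Om (nsp par K0 M) → Matrix (Fin m × Fin M) (Fin m × Fin M) ℂ),
    1 ≤ M → 0 < q → q < m →
    (∀ c c', c ≠ c' → ∃ k < K0, par k c ≠ par k c') →
    (∀ i j, ContinuousOn (fun v : (Fin m → ℝ) × Om (nsp par K0 M) => Γ v.1 v.2 i j)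
      (TT m q ×ˢ PP (nsp par K0 M))) →
    (∀ t ∈ TT m q, ∀ y ∈ PP (nsp par K0 M), (Γ t y).PosSemidef ∧ (Γ t y).det = 0) →
    (∀ t ∈ TT m q, ∀ y ∈ PP (nsp par K0 M), ∀ k < K0, ∀ c c' a b,
      Γ t (flp (nsp par K0 M) k y) (c, a) (c', b) =
        (sgn (par k c + par k c') : ℂ) * Γ t y (c, a) (c', b)) →
    (∀ t ∈ TT m q, ∀ y ∈ PP (nsp par K0 M), ∀ c, t c = 1 → (dblk (Γ t y) c).det ≠ 0) →
    ∃ t ∈ TT m q, ∃ y ∈ PP (nsp par K0 M),
      (∀ c c', c ≠ c' → ∀ a b, Γ t y (c, a) (c', b) = 0) ∧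
      q ≤ (Finset.univ.filter fun c : Fin m => (dblk (Γ t y) c).det = 0).card

/-! ### positive parts -/

def S_POS : Prop :=
  ∀ (I : Type) [Fintype I] [DecidableEq I], ∃ pos : Matrix I I ℂ → Matrix I I ℂ,
    (∀ X : Matrix I I ℂ, X.IsHermitian → (pos X).PosSemidef ∧ (pos X - X).PosSemidef) ∧
    (∀ X : Matrix I I ℂ, X.IsHermitian → ∃ F : Submodule ℂ (I → ℂ),
      Module.finrank ℂ F = (pos X).rank ∧ ∀ v ∈ F, v ≠ 0 → 0 < (herm X v v).re) ∧
    (∀ (X : Matrix I I ℂ) (F : Submodule ℂ (I → ℂ)), X.IsHermitian →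
      (∀ v ∈ F, v ≠ 0 → 0 < (herm X v v).re) → Module.finrank ℂ F ≤ (pos X).rank) ∧
    (∀ X Y : Matrix I I ℂ, X.IsHermitian → Y.IsHermitian →
      ∑ i, ∑ j, ‖pos X i j - pos Y i j‖ ^ 2 ≤ ∑ i, ∑ j, ‖X i j - Y i j‖ ^ 2) ∧
    (∀ (X : Matrix I I ℂ) (s : I → ℝ), X.IsHermitian → (∀ i, s i = 1 ∨ s i = -1) →
      pos (Matrix.of fun i j => (s i : ℂ) * s j * X i j) =
        Matrix.of fun i j => (s i : ℂ) * s j * pos X i j)

/-! ### the core -/

/-- the sign change of one block of a finite product -/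
def flf {n : ℕ → ℕ} {K0 : ℕ} (k : Fin K0) (y : ∀ k : Fin K0, (Fin (n k + 1) → ℝ)) :
    ∀ k : Fin K0, (Fin (n k + 1) → ℝ) := Function.update y k (-(y k))

def S_CORE : Prop :=
  ∀ (m M K0 q δ ρ : ℕ) (par : ℕ → Fin m → ZMod 2) (I : Type) [Fintype I] [DecidableEq I]
    (sg : ℕ → I → ZMod 2) (w : Fin m → Fin M → I → ℂ) (η η' : ℝ)
    (X : (Fin m → ℝ) → (∀ k : Fin K0, (Fin (nsp par K0 M k + 1) → ℝ)) → Matrix I I ℂ),
    1 ≤ M → 0 < q → q < m → η < η' →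
    (∀ c c', c ≠ c' → ∃ k < K0, par k c ≠ par k c') →
    (∀ c a i, w c a i ≠ 0 → ∀ k < K0, sg k i = par k c) →
    (∀ c, LinearIndependent ℂ (w c)) →
    (∀ i j, LocallyLipschitzOn (TT m q ×ˢ YY (nsp par K0 M) K0) fun p => X p.1 p.2 i j) →
    (∀ t ∈ TT m q, ∀ y ∈ YY (nsp par K0 M) K0, (X t y).IsHermitian) →
    (∀ t ∈ TT m q, ∀ y ∈ YY (nsp par K0 M) K0, ∀ (k : Fin K0) (i j : I),
      X t (flf k y) i j = (sgn (sg k i + sg k j) : ℂ) * X t y i j) →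
    (∀ t ∈ TT m q, ∀ y ∈ YY (nsp par K0 M) K0, ∀ c, t c = 1 →
      ∀ v ∈ Submodule.span ℂ (Set.range (w c)), η' * ∑ i, ‖v i‖ ^ 2 ≤ (herm (X t y) v v).re) →
    (∀ t ∈ TT m q, ∀ y ∈ YY (nsp par K0 M) K0, ∀ F : Submodule ℂ (I → ℂ),
      (∀ v ∈ F, η * ∑ i, ‖v i‖ ^ 2 ≤ (herm (X t y) v v).re) → Module.finrank ℂ F < m * M) →
    (∀ t ∈ TT m q, ∀ y ∈ YY (nsp par K0 M) K0, ∃ F : Submodule ℂ (I → ℂ),
      ρ ≤ Module.finrank ℂ F ∧ ∀ v ∈ F, η' * ∑ i, ‖v i‖ ^ 2 ≤ (herm (X t y) v v).re) →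
    m * M ≤ ρ + δ → δ ≤ q →
    (m + K0 + M ^ 2 * (m * (m - 1))) + 2 * q * δ + m * M + 2 * m * M ^ 2 <
      (m * M) ^ 2 + q ^ 2 + q →
    False

end Pool.Agent.Y269.RK
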