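import Pool.Agent.Y269.RK.Main
import Pool.Agent.Y155.RK.Elim
import Pool.Agent.Y155.RK.Pos
import Pool.Agent.Y195.RK.Gen
import Pool.Agent.Y232.RK.Ex
import Pool.Agent.Y269.RA.Asm
import Pool.Agent.Y448.RK.Mat
import Pool.Agent.Y448.RK.Lab
import Pool.Agent.Y448.RK.Cnt
import Pool.Agent.Y535.RK.Core

/-!
All the pieces together.
-/

set_option autoImplicit false

namespace Pool.Agent.Y269.RK

theorem gen_thm : S_GEN :=
  Pool.Agent.Y195.RK.gen Pool.Agent.Y155.RK.par_mono Pool.Agent.Y155.RK.par_union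
    Pool.Agent.Y155.RK.par_image Pool.Agent.Y155.RK.par_prod Pool.Agent.Y155.RK.par_dense
    Pool.Agent.Y155.RK.elim

theorem core_thm : S_CORE :=
  Pool.Agent.Y535.RK.core Pool.Agent.Y155.RK.par_image Pool.Agent.Y155.RK.par_sph gen_thm
    Pool.Agent.Y232.RK.ex Pool.Agent.Y155.RK.pos_thm

theorem asm_thm : S_ASM :=
  Pool.Agent.Y269.RA.asm core_thm Pool.Agent.Y448.RK.lab1 Pool.Agent.Y448.RK.lab2
    Pool.Agent.Y448.RK.cnt Pool.Agent.Y448.RK.sumb

/-- the function `τ ↦ τ(1 + w)` is not a rank function -/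
theorem no_rank_thm {E : Type} [CStarAlgebra E] {M : Amb E} {a : ↥(BB M)} {b : ℕ → ↥(BB M)}
    {K : ℝ} (h : RH M a b K) : False :=
  no_rank asm_thm Pool.Agent.Y448.RK.ubmat Pool.Agent.Y448.RK.lbmat Pool.Agent.Y448.RK.cnt h

end Pool.Agent.Y269.RK
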