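import Pool.Agent.Y269.RK.Psi
import Pool.Agent.Y269.GP.Simple

/-!
The algebra, its generators, separability, and simplicity.
-/

set_option autoImplicit false

namespace Pool.Agent.Y269.RK

open scoped ENNReal
open Pool.Agent.Helper133.BT Pool.Agent.Helper133.BU Filter Topology Pool.Agent.Y269.GP

noncomputable section

/-- an algebra of bounded operator valued functions -/
structure Amb (E : Type) [CStarAlgebra E] where
  ev : PT → (E →⋆ₐ[ℂ] BH)
  inj : ∀ x y, (∀ p, ev p x = ev p y) → x = y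
  norm_le : ∀ x C, 0 ≤ C → (∀ p, ‖ev p x‖ ≤ C) → ‖x‖ ≤ C
  of : FF → E
  ev_of : ∀ (x : FF) (C : ℝ), (∀ p, ‖x p‖ ≤ C) → ∀ p, ev p (of x) = x p

/-- bounded functions -/
def BF (T : FF) : Prop := ∃ C : ℝ, ∀ p, ‖T p‖ ≤ C

lemma BF.mul {S T : FF} (h : BF S) (h' : BF T) : BF (S * T) := by
  obtain ⟨C, hC⟩ := h
  obtain ⟨C', hC'⟩ := h'
  refine ⟨C * C', fun p => ?_⟩
  rw [Pi.mul_apply]
  have h0 : 0 ≤ C := (norm_nonneg _).trans (hC p)
  calc ‖S p * T p‖ ≤ ‖S p‖ * ‖T p‖ := norm_mul_le _ _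
    _ ≤ C * C' := mul_le_mul (hC p) (hC' p) (norm_nonneg _) h0

lemma BF.add {S T : FF} (h : BF S) (h' : BF T) : BF (S + T) := by
  obtain ⟨C, hC⟩ := h
  obtain ⟨C', hC'⟩ := h'
  exact ⟨C + C', fun p => (norm_add_le _ _).trans (add_le_add (hC p) (hC' p))⟩

lemma BF.zero : BF (0 : FF) := ⟨0, fun p => by simp⟩

lemma BF.sum {ι : Type} (s : Finset ι) {T : ι → FF} (h : ∀ i ∈ s, BF (T i)) :
    BF (∑ i ∈ s, T i) := by
  classical
  induction s using Finset.induction_on with
  | empty => simpa using BF.zero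
  | insert x s hx ih =>
    rw [Finset.sum_insert hx]
    exact (h x (Finset.mem_insert_self _ _)).add (ih fun i hi => h i (Finset.mem_insert_of_mem hi))

lemma BF.TC {L : ℕ} {φ : PT → ℂ} (hφ : FN φ) (a b : ℕ) : BF (TC L φ a b) := by
  obtain ⟨C, h0, hC⟩ := hφ.bdd
  exact ⟨C, norm_TC_le hφ h0 hC a b⟩

section Ambient

variable {E : Type} [CStarAlgebra E] (M : Amb E)

/-- the function associated with an element -/
def Amb.toC (x : E) : FF := fun p => M.ev p x

lemma toC_apply (x : E) (p : PT) : M.toC x p = M.ev p x := rfl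

lemma toC_of {T : FF} (h : BF T) : M.toC (M.of T) = T := by
  obtain ⟨C, hC⟩ := h
  funext p
  exact M.ev_of T C hC p

lemma toC_inj {x y : E} (h : M.toC x = M.toC y) : x = y :=
  M.inj x y fun p => congrFun h p

lemma toC_mul (x y : E) : M.toC (x * y) = M.toC x * M.toC y := funext fun p => map_mul (M.ev p) x y

lemma toC_add (x y : E) : M.toC (x + y) = M.toC x + M.toC y := funext fun p => map_add (M.ev p) x y

lemma toC_sub (x y : E) : M.toC (x - y) = M.toC x - M.toC y := funext fun p => map_sub (M.ev p) x y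

lemma toC_star (x : E) : M.toC (star x) = star (M.toC x) := funext fun p => map_star (M.ev p) x

lemma toC_smul (c : ℂ) (x : E) : M.toC (c • x) = c • M.toC x := funext fun p => map_smul (M.ev p) c x

lemma toC_one : M.toC 1 = 1 := funext fun p => map_one (M.ev p)

lemma toC_zero : M.toC 0 = 0 := funext fun p => map_zero (M.ev p)

lemma toC_sum {ι : Type*} (s : Finset ι) (f : ι → E) :
    M.toC (∑ i ∈ s, f i) = ∑ i ∈ s, M.toC (f i) := by
  funext p
  rw [Finset.sum_apply]
  exact map_sum (M.ev p) f s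

lemma ev_norm_le (x : E) (p : PT) : ‖M.ev p x‖ ≤ ‖x‖ :=
  NonUnitalStarAlgHom.norm_apply_le (M.ev p) x

lemma norm_toC_sub_le (x y : E) (p : PT) : ‖M.toC x p - M.toC y p‖ ≤ ‖x - y‖ := by
  have := ev_norm_le M (x - y) p
  rw [map_sub] at this
  exact this

lemma of_mul {S T : FF} (hS : BF S) (hT : BF T) : M.of (S * T) = M.of S * M.of T := by
  apply toC_inj M
  rw [toC_mul, toC_of M (hS.mul hT), toC_of M hS, toC_of M hT]

lemma of_sum {ι : Type} (s : Finset ι) {T : ι → FF} (h : ∀ i ∈ s, BF (T i)) :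
    M.of (∑ i ∈ s, T i) = ∑ i ∈ s, M.of (T i) := by
  apply toC_inj M
  rw [toC_sum, toC_of M (BF.sum s h)]
  exact Finset.sum_congr rfl fun i hi => (toC_of M (h i hi)).symm

lemma of_star {T : FF} (h : BF T) : M.of (star T) = star (M.of T) := by
  have h' : BF (star T) := by
    obtain ⟨C, hC⟩ := h
    exact ⟨C, fun p => (norm_star (T p)).trans_le (hC p)⟩
  apply toC_inj M
  rw [toC_star, toC_of M h', toC_of M h]

lemma norm_of_le {T : FF} {C : ℝ} (hC : 0 ≤ C) (h : ∀ p, ‖T p‖ ≤ C) : ‖M.of T‖ ≤ C := by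
  refine M.norm_le _ C hC fun p => ?_
  rw [M.ev_of T C h p]
  exact h p

/-- the index set of the generators -/
abbrev GI : Type := (Σ L : ℕ, (Fin L → ℕ) × (Fin L → ℕ)) × ℕ × ℕ

/-- the generators -/
def gen : Option GI → FF
  | none => TC 0 u0 0 0
  | some t => if t.2.1 < nz t.1.1 ∧ t.2.2 < nz t.1.1 then
    TC t.1.1 (fun p => psi t.1.1 t.2.1 t.1.2.1 p * psi t.1.1 t.2.2 t.1.2.2 p) t.2.1 t.2.2 else 0

def gens : Set E := Set.range fun t => M.of (gen t)

/-- the algebra -/
def A0 : StarSubalgebra ℂ E := (StarAlgebra.adjoin ℂ (gens M)).topologicalClosure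

lemma A0_closed : IsClosed (A0 M : Set E) := StarSubalgebra.isClosed_topologicalClosure _

lemma gen_mem {L a b : ℕ} (ha : a < nz L) (hb : b < nz L) (r r' : Fin L → ℕ) :
    M.of (TC L (fun p => psi L a r p * psi L b r' p) a b) ∈ StarAlgebra.adjoin ℂ (gens M) := by
  refine StarAlgebra.subset_adjoin _ _ ⟨some (⟨L, r, r'⟩, a, b), ?_⟩
  simp only [gen]
  rw [if_pos ⟨ha, hb⟩]

lemma h0_mem : M.of (TC 0 u0 0 0) ∈ StarAlgebra.adjoin ℂ (gens M) :=
  StarAlgebra.subset_adjoin _ _ ⟨none, rfl⟩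

lemma mem_A0 {x : E} (hx : x ∈ StarAlgebra.adjoin ℂ (gens M)) : x ∈ A0 M :=
  StarSubalgebra.le_topologicalClosure _ hx

lemma gen_bf (t : Option GI) : BF (gen t) := by
  cases t with
  | none => exact BF.TC u0_FN _ _
  | some t =>
    simp only [gen]
    split_ifs with h
    · exact BF.TC ((psi_FN _ _ _).mul (psi_FN _ _ _)) _ _
    · exact BF.zero

lemma gen_lev (t : Option GI) : ∃ l, Lev l (gen t) := by
  cases t with
  | none => exact ⟨0, TC_lev u0_FN Nat.one_pos Nat.one_pos u0_loc u0_par⟩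
  | some t =>
    refine ⟨t.1.1, ?_⟩
    simp only [gen]
    split_ifs with h
    · refine TC_lev ((psi_FN _ _ _).mul (psi_FN _ _ _)) h.1 h.2 ?_ (psi_par h.1 h.2 _ _)
      intro p p' hp
      simp only
      rw [psi_loc h.1 _ p p' hp, psi_loc h.2 _ p p' hp]
    · exact Lev.zero _

lemma adjoin_lev {x : E} (hx : x ∈ StarAlgebra.adjoin ℂ (gens M)) : ∃ l, Lev l (M.toC x) := by
  induction hx using StarAlgebra.adjoin_induction with
  | mem x hx =>
    obtain ⟨t, rfl⟩ := hx
    simp only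
    rw [toC_of M (gen_bf t)]
    exact gen_lev t
  | algebraMap r =>
    refine ⟨0, ?_⟩
    rw [Algebra.algebraMap_eq_smul_one, toC_smul, toC_one]
    exact Lev.smul_one 0 r
  | add x y _ _ hx hy =>
    obtain ⟨l, hl⟩ := hx
    obtain ⟨l', hl'⟩ := hy
    refine ⟨max l l', ?_⟩
    rw [toC_add]
    exact (hl.mono (le_max_left _ _)).add (hl'.mono (le_max_right _ _))
  | mul x y _ _ hx hy =>
    obtain ⟨l, hl⟩ := hx
    obtain ⟨l', hl'⟩ := hy
    refine ⟨max l l', ?_⟩
    rw [toC_mul]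
    exact (hl.mono (le_max_left _ _)).mul (hl'.mono (le_max_right _ _))
  | star x _ hx =>
    obtain ⟨l, hl⟩ := hx
    refine ⟨l, ?_⟩
    rw [toC_star]
    exact hl.star'

lemma A0_approx {x : E} (hx : x ∈ A0 M) {ε : ℝ} (hε : 0 < ε) :
    ∃ (l : ℕ) (y : E), y ∈ StarAlgebra.adjoin ℂ (gens M) ∧ Lev l (M.toC y) ∧ ‖x - y‖ ≤ ε := by
  have h1 : x ∈ closure ((StarAlgebra.adjoin ℂ (gens M) : StarSubalgebra ℂ E) : Set E) := hx
  obtain ⟨y, hy, hxy⟩ := Metric.mem_closure_iff.mp h1 ε hε
  obtain ⟨l, hl⟩ := adjoin_lev M hy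
  refine ⟨l, y, hy, hl, ?_⟩
  rw [← dist_eq_norm]
  exact hxy.le

lemma A0_separable : TopologicalSpace.IsSeparable (A0 M : Set E) := by
  have hcl : (A0 M : Set E) =
      closure ((StarAlgebra.adjoin ℂ (gens M) : StarSubalgebra ℂ E) : Set E) := rfl
  rw [hcl]
  apply TopologicalSpace.IsSeparable.closure
  set s : Set E := gens M with hs
  have hcount : (s ∪ star s).Countable := by
    have h1 : s.Countable := Set.countable_range _
    refine h1.union ?_
    have : star s = (fun x => star x) '' s := by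
      ext x
      simp only [Set.mem_star, Set.mem_image]
      constructor
      · intro h
        exact ⟨star x, h, star_star x⟩
      · rintro ⟨y, hy, rfl⟩
        rwa [star_star]
    rw [this]
    exact h1.image _
  have h2 : ((StarAlgebra.adjoin ℂ s : StarSubalgebra ℂ E) : Set E) =
      ((Submodule.span ℂ (Submonoid.closure (s ∪ star s) : Set E) : Submodule ℂ E) :
        Set E) := by
    rw [← Algebra.adjoin_eq_span]
    rfl
  rw [h2]
  apply TopologicalSpace.IsSeparable.span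
  apply Set.Countable.isSeparable
  have : Countable ↥(s ∪ star s) := hcount.to_subtype
  refine (Set.countable_range (fun l : List ↥(s ∪ star s) => (l.map Subtype.val).prod)).mono ?_
  intro x hx
  obtain ⟨l, hl, rfl⟩ := Submonoid.exists_list_of_mem_closure hx
  refine ⟨l.attach.map fun y => ⟨y.1, hl y.1 y.2⟩, ?_⟩
  simp

instance : CStarAlgebra ↥(A0 M) := StarSubalgebra.cstarAlgebra (A0 M) (h_closed := A0_closed M)

lemma separable : TopologicalSpace.SeparableSpace ↥(A0 M) := (A0_separable M).separableSpace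

/-! ### simplicity -/

/-- the function `1` -/
def onef : PT → ℂ := fun _ => 1

lemma onef_FN : FN onef := FN.const 1

/-- matrix units from the last block to the first vector are in the algebra -/
lemma row_mem {m i : ℕ} (hi : i < nz m) :
    M.of (TC (m + 1) onef 0 ((kz m - 1) * nz m + i)) ∈ StarAlgebra.adjoin ℂ (gens M) := by
  have hk := kz_ge m
  have h1 := gen_mem M (nz_pos (m + 1)) (blk_lt (show kz m - 1 < kz m by omega) hi)
    (fun _ => 0) (fun _ => 0)
  have e : (fun p => psi (m + 1) 0 (fun _ => 0) p *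
      psi (m + 1) ((kz m - 1) * nz m + i) (fun _ => 0) p) = onef := by
    funext p
    rw [psi_zero_one, psi_last_one hi]
    exact mul_one _
  rwa [e] at h1

lemma col_mem {m i : ℕ} (hi : i < nz m) :
    M.of (TC (m + 1) onef ((kz m - 1) * nz m + i) 0) ∈ StarAlgebra.adjoin ℂ (gens M) := by
  have hk := kz_ge m
  have h1 := gen_mem M (blk_lt (show kz m - 1 < kz m by omega) hi) (nz_pos (m + 1))
    (fun _ => 0) (fun _ => 0)
  have e : (fun p => psi (m + 1) ((kz m - 1) * nz m + i) (fun _ => 0) p *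
      psi (m + 1) 0 (fun _ => 0) p) = onef := by
    funext p
    rw [psi_zero_one, psi_last_one hi]
    exact mul_one _
  rwa [e] at h1

lemma e00_mem (L : ℕ) : M.of (TC L onef 0 0) ∈ StarAlgebra.adjoin ℂ (gens M) := by
  have h1 := gen_mem M (nz_pos L) (nz_pos L) (fun _ => 0) (fun _ => 0)
  have e : (fun p => psi L 0 (fun _ => 0) p * psi L 0 (fun _ => 0) p) = onef := by
    funext p
    rw [psi_zero_one]
    exact mul_one _
  rwa [e] at h1

/-- the diagonal matrix units are products of elements of the algebra with `e00` -/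
lemma diag_eq {L a : ℕ} :
    M.of (TC L onef a a) = ∑ r ∈ Fintype.piFinset (fun l : Fin L => Finset.range (dd l + 1)),
      M.of (TC L (fun p => psi L a r p * psi L 0 (fun _ => 0) p) a 0) *
        M.of (TC L onef 0 0) *
        M.of (TC L (fun p => psi L 0 (fun _ => 0) p * psi L a r p) 0 a) := by
  have h0 := nz_pos L
  have h1 : ∀ r : Fin L → ℕ,
      M.of (TC L (fun p => psi L a r p * psi L 0 (fun _ => 0) p) a 0) *
        M.of (TC L onef 0 0) *
        M.of (TC L (fun p => psi L 0 (fun _ => 0) p * psi L a r p) 0 a) =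
      M.of (TC L (fun p => psi L a r p * psi L a r p) a a) := by
    intro r
    have f1 : FN (fun p => psi L a r p * psi L 0 (fun _ => 0) p) := (psi_FN _ _ _).mul (psi_FN _ _ _)
    have f2 : FN (fun p => psi L 0 (fun _ => 0) p * psi L a r p) := (psi_FN _ _ _).mul (psi_FN _ _ _)
    rw [← of_mul M (BF.TC f1 _ _) (BF.TC onef_FN _ _), TC_mul f1 onef_FN _ _ _ h0,
      ← of_mul M (BF.TC (f1.mul onef_FN) _ _) (BF.TC f2 _ _), TC_mul (f1.mul onef_FN) f2 _ _ _ h0]
    congr 2
    funext p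
    rw [psi_zero_one]
    unfold onef
    ring
  rw [Finset.sum_congr rfl fun r _ => h1 r,
    ← of_sum M _ (fun r _ => BF.TC ((psi_FN L a r).mul (psi_FN L a r)) a a),
    TC_sum _ L (fun r _ => (psi_FN L a r).mul (psi_FN L a r))]
  congr 2
  funext p
  rw [psi_sum]
  rfl

/-- if a matrix unit is in an ideal then so is one -/
lemma one_mem {L : ℕ} (I : TwoSidedIdeal ↥(A0 M))
    (h : (⟨M.of (TC L onef 0 0), mem_A0 M (e00_mem M L)⟩ : ↥(A0 M)) ∈ I) :
    (1 : ↥(A0 M)) ∈ I := by
  set e : ↥(A0 M) := ⟨M.of (TC L onef 0 0), mem_A0 M (e00_mem M L)⟩ with he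
  let g : ℕ → (Fin L → ℕ) → ↥(A0 M) := fun a r =>
    if ha : a < nz L then
      ⟨_, mem_A0 M (gen_mem M ha (nz_pos L) r (fun _ => 0))⟩ * e *
        ⟨_, mem_A0 M (gen_mem M (nz_pos L) ha (fun _ => 0) r)⟩ else 0
  have hg : ∀ a r, g a r ∈ I := by
    intro a r
    by_cases ha : a < nz L
    · simp only [g, dif_pos ha]
      exact I.mul_mem_right _ _ (I.mul_mem_left _ _ h)
    · simp only [g, dif_neg ha]
      exact I.zero_mem
  have hone : (1 : ↥(A0 M)) = ∑ a ∈ Finset.range (nz L),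
      ∑ r ∈ Fintype.piFinset (fun l : Fin L => Finset.range (dd l + 1)), g a r := by
    apply Subtype.ext
    rw [AddSubmonoidClass.coe_finsetSum]
    have h1 : ∀ a ∈ Finset.range (nz L),
        ((∑ r ∈ Fintype.piFinset (fun l : Fin L => Finset.range (dd l + 1)), g a r : ↥(A0 M)) : E) =
          M.of (TC L onef a a) := by
      intro a ha
      rw [AddSubmonoidClass.coe_finsetSum, diag_eq M]
      refine Finset.sum_congr rfl fun r _ => ?_
      simp only [g, dif_pos (Finset.mem_range.mp ha)]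
      rfl
    rw [Finset.sum_congr rfl h1, ← of_sum M _ (fun a _ => BF.TC onef_FN a a)]
    apply toC_inj M
    have h2 : BF (∑ a ∈ Finset.range (nz L), TC L onef a a) :=
      BF.sum _ fun a _ => BF.TC onef_FN a a
    rw [toC_of M h2]
    have h3 : M.toC ((1 : ↥(A0 M)) : E) = 1 := toC_one M
    rw [h3]
    exact (sum_TC_one L).symm
  rw [hone]
  exact sum_mem fun a _ => sum_mem fun r _ => hg a r

/-- compression of an element of the algebra to a matrix unit -/
lemma corner {l m i j : ℕ} {T : FF} (hT : Lev l T) (hlm : l ≤ m) (hi : i < nz m)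
    (hj : j < nz m) :
    TC (m + 1) onef 0 ((kz m - 1) * nz m + i) * T * TC (m + 1) onef ((kz m - 1) * nz m + j) 0 =
      ent (T (q m)) i j • TC (m + 1) onef 0 0 := by
  have hk := kz_ge m
  have hc : kz m - 1 < kz m := by omega
  have h0 := nz_pos (m + 1)
  have ebi := blk_lt hc hi
  have ebj := blk_lt hc hj
  have L1 : ∀ a b, a < nz (m + 1) → b < nz (m + 1) →
      (∀ l s, good l s → sk l s a = 1) → (∀ l s, good l s → sk l s b = 1) →
      Lev (m + 1) (TC (m + 1) onef a b) := by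
    intro a b ha hb h1 h2
    refine TC_lev onef_FN ha hb (fun _ _ _ => rfl) ?_
    intro l s hg p
    rw [h1 l s hg, h2 l s hg]
    show (1 : ℂ) = 1 * 1 * 1
    ring
  have s0 : ∀ l s, good l s → sk l s 0 = 1 := by
    intro l s hg
    unfold sk
    rw [if_neg]
    rw [inb_iff hg.1]
    intro h
    obtain ⟨_, _, h3⟩ := hg
    rw [← h] at h3
    simp at h3
  have s1 : ∀ i, i < nz m → ∀ l s, good l s → sk l s ((kz m - 1) * nz m + i) = 1 := by
    intro i hi l s hg
    unfold sk
    rw [if_neg]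
    rw [inb_iff hg.1]
    intro h
    obtain ⟨_, h2, h3⟩ := hg
    by_cases hl : l ≤ m
    · have hd : nz l ∣ (kz m - 1) * nz m := (nz_dvd hl).mul_left _
      have e : nz l * (((kz m - 1) * nz m + i) / nz l) = (kz m - 1) * nz m + nz l * (i / nz l) := by
        have := sgm_add (b := 0) hd i
        unfold sgm at this
        simpa using this
      have h4 : nz l * (i / nz l) < nz m := (Nat.mul_div_le i (nz l)).trans_lt hi
      rw [← h, e, live_block (by omega) h4] at h2
      exact h2.1 rfl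
    · have h4 : ((kz m - 1) * nz m + i) / nz l = 0 :=
        Nat.div_eq_of_lt ((blk_lt hc hi).trans_le (nz_mono (by omega)))
      rw [← h, h4] at h3
      simp at h3
  have K1 := L1 0 _ h0 ebi s0 (s1 i hi)
  have K2 := L1 _ 0 ebj h0 (s1 j hj) s0
  have K3 := L1 0 0 h0 h0 s0 s0
  have hT' := hT.mono (show l ≤ m + 1 by omega)
  have hLev : Lev (m + 1) (TC (m + 1) onef 0 ((kz m - 1) * nz m + i) * T *
      TC (m + 1) onef ((kz m - 1) * nz m + j) 0
      + (-ent (T (q m)) i j) • TC (m + 1) onef 0 0) :=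
    ((K1.mul hT').mul K2).add (K3.smul _)
  have hz := hLev.eq_zero (by
    intro p s t hs ht
    rw [Pi.add_apply, Pi.mul_apply, Pi.smul_apply, ent_add, ent_smul,
      K2.ent_mul le_rfl _ p s ht]
    have e1 : ∀ k ∈ Finset.range (nz (m + 1)),
        ent ((TC (m + 1) onef 0 ((kz m - 1) * nz m + i) * T) p) s k *
          ent (TC (m + 1) onef ((kz m - 1) * nz m + j) 0 p) k t =
        if k = (kz m - 1) * nz m + j then
          ent ((TC (m + 1) onef 0 ((kz m - 1) * nz m + i) * T) p) s k *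
            (if t = 0 then 1 else 0) else 0 := by
      intro k hk
      rw [TC_ent onef_FN p (Finset.mem_range.mp hk)]
      by_cases h1 : k = (kz m - 1) * nz m + j
      · by_cases h2 : t = 0
        · rw [if_pos ⟨h1, h2⟩, if_pos h1, if_pos h2]
          rfl
        · rw [if_neg (fun h => h2 h.2), if_pos h1, if_neg h2]
      · rw [if_neg (fun h => h1 h.1), if_neg h1, mul_zero]
    rw [Finset.sum_congr rfl e1, Finset.sum_ite_eq', if_pos (Finset.mem_range.mpr ebj),
      Pi.mul_apply, hT'.ent_mul le_rfl _ p s ebj]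
    have e2 : ∀ k ∈ Finset.range (nz (m + 1)),
        ent (TC (m + 1) onef 0 ((kz m - 1) * nz m + i) p) s k *
          ent (T p) k ((kz m - 1) * nz m + j) =
        if k = (kz m - 1) * nz m + i then
          (if s = 0 then 1 else 0) * ent (T p) k ((kz m - 1) * nz m + j) else 0 := by
      intro k hk
      rw [TC_ent onef_FN p hs]
      by_cases h1 : k = (kz m - 1) * nz m + i
      · by_cases h2 : s = 0
        · rw [if_pos ⟨h2, h1⟩, if_pos h1, if_pos h2]
          rfl
        · rw [if_neg (fun h => h2 h.1), if_pos h1, if_neg h2]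
      · rw [if_neg (fun h => h1 h.2), if_neg h1, zero_mul]
    rw [Finset.sum_congr rfl e2, Finset.sum_ite_eq', if_pos (Finset.mem_range.mpr ebi),
      hT.entry_block hlm hc p hi hj, tr_last, TC_ent onef_FN p hs]
    by_cases h1 : s = 0
    · by_cases h2 : t = 0
      · rw [if_pos h1, if_pos h2, if_pos ⟨h1, h2⟩]
        unfold onef
        ring
      · rw [if_neg h2, if_neg (fun h : s = 0 ∧ t = 0 => h2 h.2)]
        ring
    · rw [if_neg h1, if_neg (fun h : s = 0 ∧ t = 0 => h1 h.1)]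
      ring)
  rw [neg_smul, ← sub_eq_add_neg] at hz
  exact sub_eq_zero.mp hz

/-- a nonzero ideal is everything -/
theorem ideal_eq_top (I : TwoSidedIdeal ↥(A0 M)) {x : ↥(A0 M)} (hx : x ∈ I) (hx0 : x ≠ 0) :
    (1 : ↥(A0 M)) ∈ I := by
  -- a nonzero entry
  have h1 : ∃ p i j, ent (M.toC (x : E) p) i j ≠ 0 := by
    by_contra hcon
    push Not at hcon
    apply hx0
    apply Subtype.ext
    apply toC_inj M
    funext p
    refine ent_ext fun i j => ?_
    have h2 : M.toC ((0 : ↥(A0 M)) : E) = 0 := toC_zero M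
    rw [h2, hcon p i j]
    rfl
  obtain ⟨p, i, j, hp⟩ := h1
  set δ := ‖ent (M.toC (x : E) p) i j‖ / 3 with hδd
  have hδ : 0 < δ := by
    have : 0 < ‖ent (M.toC (x : E) p) i j‖ := norm_pos_iff.mpr hp
    positivity
  obtain ⟨l, y, hy, hl, hxy⟩ := A0_approx M x.2 hδ
  have h2 : δ < ‖ent (M.toC y p) i j‖ := by
    have h3 : ent (M.toC (x : E) p) i j = ent (M.toC (x : E) p - M.toC y p) i j +
        ent (M.toC y p) i j := by
      rw [ent_sub, sub_add_cancel]
    have h4 : ‖ent (M.toC (x : E) p - M.toC y p) i j‖ ≤ δ :=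
      (norm_ent_le _ i j).trans ((norm_toC_sub_le M _ _ p).trans hxy)
    have h5 : ‖ent (M.toC (x : E) p) i j‖ ≤ δ + ‖ent (M.toC y p) i j‖ := by
      rw [h3]
      exact (norm_add_le _ _).trans (add_le_add h4 le_rfl)
    have h6 : ‖ent (M.toC (x : E) p) i j‖ = 3 * δ := by rw [hδd]; ring
    linarith
  -- choose a base point
  have hU : IsOpen {p' : PT | δ < ‖ent (M.toC y p') i j‖} :=
    isOpen_lt continuous_const (hl.fn i j).1.norm
  obtain ⟨m, hm, hqm⟩ := q_spec hU ⟨p, h2⟩ (max l (i + j))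
  have hlm : l ≤ m := (le_max_left _ _).trans hm
  have hijm : i + j ≤ m := (le_max_right _ _).trans hm
  have hi : i < nz m := (show i ≤ m by omega).trans_lt (lt_nz m)
  have hj : j < nz m := (show j ≤ m by omega).trans_lt (lt_nz m)
  set h0 := ent (M.toC y (q m)) i j with hh0
  have hh : δ < ‖h0‖ := hqm
  have hh0' : h0 ≠ 0 := by
    intro h
    rw [h, norm_zero] at hh
    linarith
  -- elements of the algebra
  set c : ↥(A0 M) := ⟨M.of (TC (m + 1) onef 0 ((kz m - 1) * nz m + i)),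
    mem_A0 M (row_mem M hi)⟩ with hc
  set d : ↥(A0 M) := ⟨M.of (TC (m + 1) onef ((kz m - 1) * nz m + j) 0),
    mem_A0 M (col_mem M hj)⟩ with hd
  set e : ↥(A0 M) := ⟨M.of (TC (m + 1) onef 0 0), mem_A0 M (e00_mem M (m + 1))⟩ with he
  set y' : ↥(A0 M) := ⟨y, mem_A0 M hy⟩ with hy'
  have k1 : c * y' * d = h0 • e := by
    apply Subtype.ext
    apply toC_inj M
    show M.toC ((c : E) * y * (d : E)) = M.toC (h0 • (e : E))
    rw [toC_mul, toC_mul, toC_smul]
    show M.toC (M.of _) * M.toC y * M.toC (M.of _) = h0 • M.toC (M.of _)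
    rw [toC_of M (BF.TC onef_FN _ _), toC_of M (BF.TC onef_FN _ _), toC_of M (BF.TC onef_FN _ _)]
    exact corner hl hlm hi hj
  have nle : ∀ a b, ‖M.of (TC (m + 1) onef a b)‖ ≤ 1 := fun a b =>
    norm_of_le M zero_le_one fun p =>
      norm_TC_le onef_FN zero_le_one (fun _ => by unfold onef; simp) a b p
  have nc : ‖c‖ ≤ 1 := nle _ _
  have nd : ‖d‖ ≤ 1 := nle _ _
  have ne : ‖e‖ ≤ 1 := nle _ _
  have k2 : ‖c * x * d - h0 • e‖ ≤ δ := by
    rw [← k1, ← sub_mul, ← mul_sub]
    have hxy'' : ‖x - y'‖ ≤ δ := hxy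
    calc ‖c * (x - y') * d‖ ≤ ‖c * (x - y')‖ * ‖d‖ := norm_mul_le _ _
      _ ≤ (‖c‖ * ‖x - y'‖) * ‖d‖ := by gcongr; exact norm_mul_le _ _
      _ ≤ (1 * δ) * 1 := by gcongr
      _ = δ := by ring
  set z : ↥(A0 M) := (h0⁻¹ • (1 : ↥(A0 M))) * (c * x * d) with hz
  have hzI : z ∈ I := I.mul_mem_left _ _ (I.mul_mem_right _ _ (I.mul_mem_left _ _ hx))
  have k3 : ‖e - z‖ < 1 := by
    have e1 : e - z = -(h0⁻¹ • (c * x * d - h0 • e)) := by
      rw [hz, smul_mul_assoc, one_mul, smul_sub, smul_smul, inv_mul_cancel₀ hh0', one_smul, neg_sub]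
    rw [e1, norm_neg, norm_smul, norm_inv]
    have hpos : 0 < ‖h0‖ := norm_pos_iff.mpr hh0'
    calc ‖h0‖⁻¹ * ‖c * x * d - h0 • e‖ ≤ ‖h0‖⁻¹ * δ := by gcongr
      _ < ‖h0‖⁻¹ * ‖h0‖ := by gcongr
      _ = 1 := inv_mul_cancel₀ hpos.ne'
  have hee : e * e = e := by
    apply Subtype.ext
    show M.of _ * M.of _ = M.of _
    rw [← of_mul M (BF.TC onef_FN _ _) (BF.TC onef_FN _ _),
      TC_mul onef_FN onef_FN _ _ _ (nz_pos (m + 1))]
    congr 2
    funext p
    unfold onef
    ring
  exact one_mem M I (GP.proj_mem I hee ne hzI k3)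

theorem nontriv : Nontrivial ↥(A0 M) := by
  refine ⟨0, 1, fun h => ?_⟩
  have h1 : M.toC ((0 : ↥(A0 M)) : E) = M.toC ((1 : ↥(A0 M)) : E) := by rw [h]
  have h2 : M.toC ((0 : ↥(A0 M)) : E) = 0 := toC_zero M
  have h3 : M.toC ((1 : ↥(A0 M)) : E) = 1 := toC_one M
  rw [h2, h3] at h1
  obtain ⟨p⟩ : Nonempty PT := inferInstance
  have h4 : ent ((0 : FF) p) 0 0 = ent ((1 : FF) p) 0 0 := by rw [h1]
  rw [Pi.zero_apply, Pi.one_apply, ent_zero, ent_one, if_pos rfl] at h4
  exact zero_ne_one h4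

theorem simple : IsSimpleRing ↥(A0 M) := by
  have hnt : Nontrivial ↥(A0 M) := nontriv M
  apply IsSimpleRing.of_eq_bot_or_eq_top
  intro I
  by_cases hI : ∀ x ∈ I, x = 0
  · left
    exact le_bot_iff.mp fun x hx => by
      rw [hI x hx]
      exact TwoSidedIdeal.zero_mem _
  · right
    push Not at hI
    obtain ⟨x, hx, hx0⟩ := hI
    have h1 := ideal_eq_top M I hx hx0
    refine top_le_iff.mp fun y _ => ?_
    have := I.mul_mem_left y 1 h1
    rwa [mul_one] at this

end Ambient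

end

end Pool.Agent.Y269.RK
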