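import Pool.Agent.Y269.RK.Lv
import Pool.Agent.Y269.RK.Stm

/-!
# Statements used in the solution of the rank problem (combinatorial part and assembly)
-/

set_option autoImplicit false

namespace Pool.Agent.Y269.RK

open Pool.Agent.Helper133.BT Pool.Agent.Helper133.BU Pool.Agent.Y269.GP
open scoped ComplexOrder

noncomputable section

/-! ### linear algebra -/

def S_UBMAT : Prop :=
  ∀ (I : Type) [Fintype I] [DecidableEq I] (X : Matrix I I ℂ) (m : ℕ) (c ε : ℝ) (Q : Finset I)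
    (F : Submodule ℂ (I → ℂ)), X.PosSemidef → 0 < c → 0 ≤ ε → ε ≤ c →
    (∀ v ∈ F, c ^ (m + 1) * ∑ i, ‖v i‖ ^ 2 ≤ (herm (X ^ (m + 1)) v v).re) →
    (∀ v : I → ℂ, ∑ i ∈ Qᶜ, ‖X.mulVec v i‖ ^ 2 ≤ ε ^ 2 * ∑ i, ‖v i‖ ^ 2) →
    (Module.finrank ℂ F : ℝ) * (c - ε ^ 2 / c) ≤ ∑ i ∈ Q, (X i i).re

def S_LBMAT : Prop :=
  ∀ (I : Type) [Fintype I] [DecidableEq I] (X : Matrix I I ℂ) (m : ℕ) (C κ : ℝ) (Q : Finset I),
    X.PosSemidef → 0 < κ → 0 ≤ C → (∀ v : I → ℂ, (herm X v v).re ≤ C * ∑ i, ‖v i‖ ^ 2) →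
    ∃ F : Submodule ℂ (I → ℂ),
      (∀ v ∈ F, κ ^ (m + 1) * ∑ i, ‖v i‖ ^ 2 ≤ (herm (X ^ (m + 1)) v v).re) ∧
      ∑ i ∈ Q, (X i i).re ≤ C * Module.finrank ℂ F + κ * Q.card

/-! ### the blocks and their labels -/

open Classical in
/-- the live blocks of size `nz l` below `nz L` -/
def JJ (l L : ℕ) : Finset ℕ := (Finset.range (nz L / nz l)).filter fun c => live (c * nz l)

/-- the number of live blocks -/
def mm (l L : ℕ) : ℕ := (JJ l L).card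

/-- the increasing enumeration of the live blocks -/
def cx (l L : ℕ) (c : Fin (mm l L)) : ℕ := (JJ l L).orderEmbOfFin rfl c

/-- the number of spheres (some of them are not used); the sphere `k` is the sphere of level
`l + k / nz L` and index `k % nz L` -/
def KK (l L : ℕ) : ℕ := (L - l) * nz L

open Classical in
/-- the parities of the blocks -/
def parf (l L k : ℕ) (c : Fin (mm l L)) : ZMod 2 :=
  if good (l + k / nz L) (k % nz L) ∧ inb (l + k / nz L) (k % nz L) (cx l L c * nz l) then 1 else 0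

def S_LAB1 : Prop :=
  ∀ l L : ℕ, l ≤ L → ∀ c c' : Fin (mm l L), c ≠ c' → ∃ k < KK l L, parf l L k c ≠ parf l L k c'

def S_LAB2 : Prop :=
  ∀ l L M k : ℕ, l ≤ L → M ≤ 5 * nz l → k < KK l L →
    nsp (parf l L) (KK l L) M k ≤ dd (l + k / nz L)

/-! ### counting -/

open Classical in
/-- the number of live indices below `nz l` -/
def al (l : ℕ) : ℕ := ((Finset.range (nz l)).filter live).card

/-- the entries of the element whose rank function does not occur -/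
def hh (i : ℕ) (p : PT) : ℝ := 1 + ((DD i p).u 0 : ℝ)

open Classical in
/-- the constant part of the trace of a live block -/
def HH0 (l : ℕ) : ℝ := ∑ i ∈ Finset.range (nz l), if live i then 1 else hh i (pc 0)

open Classical in
/-- the trace of the dead blocks -/
def CC (l L : ℕ) : ℝ := ∑ i ∈ Finset.range (nz L), if live (nz l * (i / nz l)) then 0 else hh i (pc 0)

def S_CNT : Prop :=
  (∀ l L : ℕ, l ≤ L → (nz L : ℝ) * (1 - 1 / (32 * 2 ^ l * nz l)) ≤ mm l L * nz l) ∧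
  (∀ l L : ℕ, l ≤ L → mm l L * nz l ≤ nz L) ∧
  (∀ l : ℕ, (31 / 32 : ℝ) * nz l ≤ al l) ∧ (∀ l : ℕ, al l ≤ nz l) ∧
  (∀ l : ℕ, (nz l : ℝ) ≤ HH0 l ∧ HH0 l ≤ nz l + (nz l - al l)) ∧
  (∀ l L : ℕ, l ≤ L → 0 ≤ CC l L ∧ CC l L ≤ 2 * (nz L - mm l L * nz l))

def S_SUM : Prop :=
  ∀ (l L : ℕ) (p : PT) (t : Fin (mm l L) → ℝ), l ≤ L →
    (∀ c, ∀ i < nz l, (p.u (cx l L c * nz l + i) : ℝ) = t c) →
    ∑ i ∈ Finset.range (nz L), hh i p = mm l L * HH0 l + al l * ∑ c, t c + CC l L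

/-! ### the assembly -/

/-- the matrix of the first block of level `L` -/
def XM (N L : ℕ) (x : Fin N → Fin N → FF) (p : PT) :
    Matrix (Fin N × Fin (nz L)) (Fin N × Fin (nz L)) ℂ :=
  Matrix.of fun i j => ent (x i.1 j.1 p) i.2 j.2

/-- the vector `w` placed in the block `c` -/
def wsh {N : ℕ} (l L c : ℕ) (w : Fin N × Fin (nz l) → ℂ) : Fin N × Fin (nz L) → ℂ :=
  fun i => if h : c * nz l ≤ (i.2 : ℕ) ∧ (i.2 : ℕ) < c * nz l + nz l then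
    w (i.1, ⟨(i.2 : ℕ) - c * nz l, by omega⟩) else 0

def S_ASM : Prop :=
  ∀ (N l0 l L0 M : ℕ) (x : Fin N → Fin N → FF) (w : Fin M → Fin N × Fin (nz l) → ℂ)
    (η η' ε : ℝ),
    (∀ i j, Lev l0 (x i j)) →
    (∀ L p, (XM N L x p).IsHermitian) →
    1 ≤ l → HH0 l + 1 / 2 < M → (M : ℝ) ≤ HH0 l + 3 / 2 →
    LinearIndependent ℂ w → η < η' → 0 < ε → ε ≤ 1 / (128 * (nz l : ℝ) ^ 2) →
    (∀ L, L0 ≤ L → ∀ c ∈ JJ l L, ∀ p : PT, (∀ i < nz l, (p.u (c * nz l + i) : ℝ) = 1) →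
      (∀ l' < l, ∀ s < nz l, p.y l' (c * nz l + s) = yb l') →
      ∀ v ∈ Submodule.span ℂ (Set.range fun a => wsh l L c (w a)),
        η' * ∑ i, ‖v i‖ ^ 2 ≤ (herm (XM N L x p) v v).re) →
    (∀ L, L0 ≤ L → ∀ p : PT, ∀ F : Submodule ℂ (Fin N × Fin (nz L) → ℂ),
      (∀ v ∈ F, η * ∑ i, ‖v i‖ ^ 2 ≤ (herm (XM N L x p) v v).re) →
      (Module.finrank ℂ F : ℝ) ≤ ∑ i ∈ Finset.range (nz L), hh i p + ε * nz L) →
    (∀ L, L0 ≤ L → ∀ p : PT, ∃ F : Submodule ℂ (Fin N × Fin (nz L) → ℂ),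
      ∑ i ∈ Finset.range (nz L), hh i p - ε * nz L ≤ (Module.finrank ℂ F : ℝ) ∧
      ∀ v ∈ F, η' * ∑ i, ‖v i‖ ^ 2 ≤ (herm (XM N L x p) v v).re) →
    False

end

end Pool.Agent.Y269.RK
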