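import Pool.Agent.Y269.RK.Trace
import Pool.Agent.Y269.RK.Stm2

/-!
Corners of the stabilisation and matrices.
-/

set_option autoImplicit false

namespace Pool.Agent.Y269.RK

open scoped ENNReal ComplexOrder
open Pool.Agent.Helper133.BT Pool.Agent.Helper133.BU Filter Topology Pool.Agent.Y269.GP

noncomputable section

/-! ### finite dimensional subspaces of the Hilbert space -/

/-- the index of a pair -/
def pr {N L : ℕ} (i : Fin N × Fin (nz L)) : ℕ := Nat.pair i.1 i.2

lemma pr_inj {N L : ℕ} {i j : Fin N × Fin (nz L)} (h : pr i = pr j) : i = j := by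
  obtain ⟨h1, h2⟩ := Nat.pair_eq_pair.mp h
  exact Prod.ext (Fin.ext h1) (Fin.ext h2)

/-- the embedding of the coordinate space -/
def Jm (N L : ℕ) : (Fin N × Fin (nz L) → ℂ) →ₗ[ℂ] HH where
  toFun v := ∑ i, v i • ee (pr i)
  map_add' v w := by
    rw [← Finset.sum_add_distrib]
    exact Finset.sum_congr rfl fun i _ => add_smul _ _ _
  map_smul' c v := by
    rw [Finset.smul_sum]
    exact Finset.sum_congr rfl fun i _ => by
      rw [Pi.smul_apply, smul_eq_mul, mul_smul, RingHom.id_apply]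

lemma Jm_apply {N L : ℕ} (v : Fin N × Fin (nz L) → ℂ) : Jm N L v = ∑ i, v i • ee (pr i) := rfl

lemma inner_ee_ee (i j : ℕ) : inner ℂ (ee i) (ee j) = if i = j then 1 else 0 := by
  rw [inner_ee, ee_apply]

lemma inner_Jm {N L : ℕ} (v : Fin N × Fin (nz L) → ℂ) (i : Fin N × Fin (nz L)) :
    inner ℂ (ee (pr i)) (Jm N L v) = v i := by
  rw [Jm_apply, inner_sum, Finset.sum_eq_single i]
  · rw [inner_smul_right, inner_ee_ee, if_pos rfl, mul_one]
  · intro j _ hj
    rw [inner_smul_right, inner_ee_ee, if_neg (fun h => hj (pr_inj h).symm), mul_zero]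
  · intro h
    exact absurd (Finset.mem_univ _) h

lemma Jm_inj (N L : ℕ) : Function.Injective (Jm N L) := by
  intro v w h
  funext i
  rw [← inner_Jm v i, ← inner_Jm w i, h]

lemma norm_Jm {N L : ℕ} (v : Fin N × Fin (nz L) → ℂ) : ‖Jm N L v‖ ^ 2 = ∑ i, ‖v i‖ ^ 2 := by
  have h1 : inner ℂ (Jm N L v) (Jm N L v) = ∑ i, (starRingEnd ℂ) (v i) * v i := by
    conv_lhs => rw [Jm_apply, sum_inner]
    refine Finset.sum_congr rfl fun i _ => ?_
    rw [inner_smul_left, ← Jm_apply, inner_Jm]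
  have h2 := inner_self_eq_norm_sq_to_K (𝕜 := ℂ) (Jm N L v)
  rw [h1] at h2
  have h3 : ∀ i, (starRingEnd ℂ) (v i) * v i = ((‖v i‖ ^ 2 : ℝ) : ℂ) := by
    intro i
    rw [mul_comm, Complex.mul_conj, Complex.normSq_eq_norm_sq]
  simp only [h3] at h2
  rw [← Complex.ofReal_sum] at h2
  have h4 : ((∑ i, ‖v i‖ ^ 2 : ℝ) : ℂ) = ((‖Jm N L v‖ ^ 2 : ℝ) : ℂ) := by
    rw [h2]; push_cast; rfl
  exact (Complex.ofReal_injective h4).symm

/-- the compression of an operator -/
def cmp (N L : ℕ) (A : BH) : Matrix (Fin N × Fin (nz L)) (Fin N × Fin (nz L)) ℂ :=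
  Matrix.of fun i j => ent A (pr i) (pr j)

lemma inner_cmp {N L : ℕ} (A : BH) (v : Fin N × Fin (nz L) → ℂ) (i : Fin N × Fin (nz L)) :
    inner ℂ (ee (pr i)) (A (Jm N L v)) = (cmp N L A).mulVec v i := by
  rw [Jm_apply, map_sum, inner_sum]
  unfold Matrix.mulVec dotProduct
  refine Finset.sum_congr rfl fun j _ => ?_
  rw [map_smul, inner_smul_right, inner_ee, mul_comm]
  rfl

lemma herm_cmp {N L : ℕ} (A : BH) (v : Fin N × Fin (nz L) → ℂ) :
    herm (cmp N L A) v v = inner ℂ (Jm N L v) (A (Jm N L v)) := by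
  conv_rhs => rw [Jm_apply v, sum_inner]
  unfold herm dotProduct
  refine Finset.sum_congr rfl fun i _ => ?_
  rw [inner_smul_left, ← Jm_apply, inner_cmp]
  rfl

/-- the coordinate subspace -/
def WN (N L : ℕ) : Submodule ℂ HH := LinearMap.range (Jm N L)

lemma ee_mem_WN {N L i s : ℕ} (hi : i < N) (hs : s < nz L) : ee (Nat.pair i s) ∈ WN N L := by
  refine ⟨Pi.single (⟨i, hi⟩, ⟨s, hs⟩) 1, ?_⟩
  rw [Jm_apply, Finset.sum_eq_single (⟨i, hi⟩, ⟨s, hs⟩)]
  · rw [Pi.single_eq_same, one_smul]; rfl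
  · intro j _ hj
    rw [Pi.single_eq_of_ne hj, zero_smul]
  · intro h
    exact absurd (Finset.mem_univ _) h

lemma WN_mono {N N' L : ℕ} (h : N ≤ N') : WN N L ≤ WN N' L := by
  rintro _ ⟨v, rfl⟩
  rw [Jm_apply]
  refine Submodule.sum_mem _ fun i _ => Submodule.smul_mem _ _ ?_
  exact ee_mem_WN (i.1.2.trans_le h) i.2.2

lemma finrank_comap_Jm {N L : ℕ} {G : Submodule ℂ HH} (hG : G ≤ WN N L) :
    Module.finrank ℂ (G.comap (Jm N L)) = Module.finrank ℂ G := by
  have h1 : (G.comap (Jm N L)).map (Jm N L) = G := by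
    rw [Submodule.map_comap_eq]
    exact inf_eq_right.mpr hG
  conv_rhs => rw [← h1]
  exact (Submodule.equivMapOfInjective _ (Jm_inj N L) _).finrank_eq

lemma finrank_map_Jm {N L : ℕ} (F : Submodule ℂ (Fin N × Fin (nz L) → ℂ)) :
    Module.finrank ℂ (F.map (Jm N L)) = Module.finrank ℂ F :=
  (Submodule.equivMapOfInjective _ (Jm_inj N L) _).finrank_eq.symm

lemma map_Jm_le {N L : ℕ} (F : Submodule ℂ (Fin N × Fin (nz L) → ℂ)) :
    F.map (Jm N L) ≤ WN N L := by
  rintro _ ⟨v, _, rfl⟩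
  exact ⟨v, rfl⟩

/-- the form of `A` is at least `η` on `G` -/
def PosOn (A : BH) (η : ℝ) (G : Submodule ℂ HH) : Prop :=
  ∀ v ∈ G, η * ‖v‖ ^ 2 ≤ (inner ℂ v (A v)).re

lemma PosOn.mono {A B : BH} {η δ η' : ℝ} {G : Submodule ℂ HH} (h : PosOn A η G)
    (hAB : ‖A - B‖ ≤ δ) (hη : η' ≤ η - δ) : PosOn B η' G := by
  intro v hv
  have h1 := h v hv
  have h2 : (inner ℂ v (B v)).re = (inner ℂ v (A v)).re - (inner ℂ v ((A - B) v)).re := by
    have : (A - B) v = A v - B v := rfl
    rw [this, inner_sub_right, Complex.sub_re]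
    ring
  have h3 : (inner ℂ v ((A - B) v)).re ≤ δ * ‖v‖ ^ 2 := by
    calc _ ≤ ‖inner ℂ v ((A - B) v)‖ := Complex.re_le_norm _
      _ ≤ ‖v‖ * ‖(A - B) v‖ := norm_inner_le_norm _ _
      _ ≤ ‖v‖ * (‖A - B‖ * ‖v‖) := by gcongr; exact (A - B).le_opNorm v
      _ ≤ ‖v‖ * (δ * ‖v‖) := by gcongr
      _ = _ := by ring
  rw [h2]
  nlinarith [sq_nonneg ‖v‖, mul_le_mul_of_nonneg_right hη (sq_nonneg ‖v‖)]

lemma posOn_comap {A : BH} {η : ℝ} {G : Submodule ℂ HH} {N L : ℕ} (h : PosOn A η G) :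
    ∀ v ∈ G.comap (Jm N L), η * ∑ i, ‖v i‖ ^ 2 ≤ (herm (cmp N L A) v v).re := by
  intro v hv
  have := h _ hv
  rwa [norm_Jm, ← herm_cmp] at this

lemma posOn_map {A : BH} {η : ℝ} {N L : ℕ} {F : Submodule ℂ (Fin N × Fin (nz L) → ℂ)}
    (h : ∀ v ∈ F, η * ∑ i, ‖v i‖ ^ 2 ≤ (herm (cmp N L A) v v).re) :
    PosOn A η (F.map (Jm N L)) := by
  rintro _ ⟨v, hv, rfl⟩
  have := h v hv
  rwa [← norm_Jm, herm_cmp] at this

section Ambient

variable {E : Type} [CStarAlgebra E] (M : Amb E)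

/-! ### corners -/

/-- the embedding of matrices over the ambient algebra -/
def emb {N : ℕ} (x : Matrix (Fin N) (Fin N) E) : E :=
  ∑ i : Fin N, ∑ j : Fin N, VV M i * x i j * star (VV M j)

lemma fin_ite {N : ℕ} (i j : Fin N) : ((i : ℕ) = j) = (i = j) := by
  rw [Fin.ext_iff]

lemma VV_emb {N : ℕ} (x : Matrix (Fin N) (Fin N) E) (k : Fin N) :
    star (VV M k) * emb M x = ∑ j : Fin N, x k j * star (VV M j) := by
  unfold emb
  rw [Finset.mul_sum, Finset.sum_eq_single k]
  · rw [Finset.mul_sum]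
    refine Finset.sum_congr rfl fun j _ => ?_
    rw [← mul_assoc, ← mul_assoc, VV_star_mul, if_pos rfl, one_mul]
  · intro i _ hi
    rw [Finset.mul_sum]
    refine Finset.sum_eq_zero fun j _ => ?_
    rw [← mul_assoc, ← mul_assoc, VV_star_mul, if_neg (fun h => hi (Fin.ext h.symm)), zero_mul,
      zero_mul]
  · intro h
    exact absurd (Finset.mem_univ _) h

lemma emb_mul {N : ℕ} (x y : Matrix (Fin N) (Fin N) E) : emb M (x * y) = emb M x * emb M y := by
  have h1 : emb M x * emb M y =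
      ∑ i : Fin N, ∑ k : Fin N, VV M i * x i k * (star (VV M k) * emb M y) := by
    conv_lhs => rw [show emb M x = ∑ i : Fin N, ∑ j : Fin N, VV M i * x i j * star (VV M j) from rfl]
    rw [Finset.sum_mul]
    refine Finset.sum_congr rfl fun i _ => ?_
    rw [Finset.sum_mul]
    exact Finset.sum_congr rfl fun j _ => by rw [mul_assoc]
  have h2 : ∀ i k : Fin N, VV M i * x i k * (star (VV M k) * emb M y) =
      ∑ j : Fin N, VV M i * (x i k * y k j) * star (VV M j) := by
    intro i k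
    rw [VV_emb, Finset.mul_sum]
    exact Finset.sum_congr rfl fun j _ => by simp only [mul_assoc]
  rw [h1]
  show ∑ i : Fin N, ∑ j : Fin N, VV M i * (x * y) i j * star (VV M j) = _
  refine Finset.sum_congr rfl fun i _ => ?_
  rw [Finset.sum_congr rfl fun k _ => h2 i k, Finset.sum_comm]
  refine Finset.sum_congr rfl fun j _ => ?_
  rw [Matrix.mul_apply, Finset.mul_sum, Finset.sum_mul]

lemma emb_star {N : ℕ} (x : Matrix (Fin N) (Fin N) E) : emb M (star x) = star (emb M x) := by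
  unfold emb
  rw [star_sum]
  simp only [star_sum, star_mul, star_star]
  rw [Finset.sum_comm]
  refine Finset.sum_congr rfl fun i _ => Finset.sum_congr rfl fun j _ => ?_
  rw [Matrix.star_apply, mul_assoc]

lemma emb_pow {N : ℕ} (x : Matrix (Fin N) (Fin N) E) (m : ℕ) :
    emb M (x ^ (m + 1)) = (emb M x) ^ (m + 1) := by
  induction m with
  | zero => simp
  | succ m ih => rw [pow_succ, emb_mul, ih, ← pow_succ]

lemma emb_entry {N : ℕ} (x : Matrix (Fin N) (Fin N) E) (i j : Fin N) :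
    star (VV M i) * emb M x * VV M j = x i j := by
  rw [VV_emb, Finset.sum_mul, Finset.sum_eq_single j]
  · rw [mul_assoc, VV_star_mul, if_pos rfl, mul_one]
  · intro k _ hk
    rw [mul_assoc, VV_star_mul, if_neg (fun h => hk (Fin.ext h)), mul_zero]
  · intro h
    exact absurd (Finset.mem_univ _) h

/-- matrices over the algebra of level `l` -/
def ML (l : ℕ) {N : ℕ} (x : Matrix (Fin N) (Fin N) E) : Prop := ∀ i j, Lev l (M.toC (x i j))

lemma ML.mono {l l' N : ℕ} {x : Matrix (Fin N) (Fin N) E} (h : ML M l x) (hl : l ≤ l') :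
    ML M l' x := fun i j => (h i j).mono hl

lemma lev_sum {l : ℕ} {ι : Type} (s : Finset ι) {T : ι → FF} (h : ∀ i ∈ s, Lev l (T i)) :
    Lev l (∑ i ∈ s, T i) := by
  classical
  induction s using Finset.induction_on with
  | empty => simpa using Lev.zero l
  | insert x s hx ih =>
    rw [Finset.sum_insert hx]
    exact (h x (Finset.mem_insert_self _ _)).add (ih fun i hi => h i (Finset.mem_insert_of_mem hi))

lemma ML.mul {l N : ℕ} {x y : Matrix (Fin N) (Fin N) E} (hx : ML M l x) (hy : ML M l y) :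
    ML M l (x * y) := by
  intro i j
  rw [Matrix.mul_apply, toC_sum]
  refine lev_sum _ fun k _ => ?_
  rw [toC_mul]
  exact (hx i k).mul (hy k j)

lemma ML.star {l N : ℕ} {x : Matrix (Fin N) (Fin N) E} (hx : ML M l x) : ML M l (star x) := by
  intro i j
  rw [Matrix.star_apply, toC_star]
  exact (hx j i).star'

/-- the matrix of the first block -/
def XE (N L : ℕ) (x : Matrix (Fin N) (Fin N) E) (p : PT) :
    Matrix (Fin N × Fin (nz L)) (Fin N × Fin (nz L)) ℂ := XM N L (fun i j => M.toC (x i j)) p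

lemma XE_apply {N L : ℕ} (x : Matrix (Fin N) (Fin N) E) (p : PT) (i j : Fin N × Fin (nz L)) :
    XE M N L x p i j = ent (M.toC (x i.1 j.1) p) i.2 j.2 := rfl

lemma ent_sum {ι : Type} (s : Finset ι) (A : ι → BH) (i j : ℕ) :
    ent (∑ k ∈ s, A k) i j = ∑ k ∈ s, ent (A k) i j := by
  classical
  induction s using Finset.induction_on with
  | empty => rfl
  | insert x s hx ih => rw [Finset.sum_insert hx, Finset.sum_insert hx, ent_add, ih]

lemma XE_mul {l N L : ℕ} {x y : Matrix (Fin N) (Fin N) E} (hy : ML M l y) (hL : l ≤ L) (p : PT) :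
    XE M N L (x * y) p = XE M N L x p * XE M N L y p := by
  ext i j
  rw [XE_apply, Matrix.mul_apply, Matrix.mul_apply, toC_sum, Finset.sum_apply, ent_sum,
    Fintype.sum_prod_type]
  refine Finset.sum_congr rfl fun k _ => ?_
  rw [toC_mul, Pi.mul_apply, (hy k j.1).ent_mul hL _ p _ j.2.2, Finset.sum_range]
  rfl

lemma XE_star {N L : ℕ} (x : Matrix (Fin N) (Fin N) E) (p : PT) :
    XE M N L (star x) p = (XE M N L x p).conjTranspose := by
  ext i j
  rw [XE_apply, Matrix.conjTranspose_apply, XE_apply, Matrix.star_apply, toC_star, Pi.star_apply,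
    ent_star]
  rfl

lemma XE_pow {l N L : ℕ} {x : Matrix (Fin N) (Fin N) E} (hx : ML M l x) (hL : l ≤ L) (p : PT)
    (m : ℕ) : XE M N L (x ^ (m + 1)) p = (XE M N L x p) ^ (m + 1) := by
  induction m with
  | zero => simp
  | succ m ih => rw [pow_succ, XE_mul M hx hL, ih, ← pow_succ]

lemma ent_VV (T : BH) (i j i' j' s t : ℕ) :
    ent (Vop i * T * star (Vop j)) (Nat.pair i' s) (Nat.pair j' t) =
      if i = i' ∧ j = j' then ent T s t else 0 := by
  rw [Vop_star]
  unfold ent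
  have h1 : (Vop i * T * Vst j) (ee (Nat.pair j' t)) = Vop i (T (Vst j (ee (Nat.pair j' t)))) := rfl
  have h2 : Vst j (ee (Nat.pair j' t)) = if j = j' then ee t else 0 := by
    have h3 : Vst j (ee (Nat.pair j' t)) = (Vst j * Vop j') (ee t) := by
      rw [← Vop_ee]; rfl
    rw [h3, Vst_Vop]
    split_ifs <;> rfl
  rw [h1, h2, Vop_apply, Nat.unpair_pair]
  by_cases hi : i = i'
  · by_cases hj : j = j'
    · rw [if_pos hj, if_pos hi.symm, if_pos ⟨hi, hj⟩, one_mul]
    · rw [if_neg hj, if_neg (fun h : i = i' ∧ j = j' => hj h.2), map_zero]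
      exact mul_zero _
  · rw [if_neg (fun h => hi h.symm), zero_mul, if_neg (fun h : i = i' ∧ j = j' => hi h.1)]

lemma XE_eq_cmp {N L : ℕ} (x : Matrix (Fin N) (Fin N) E) (p : PT) :
    XE M N L x p = cmp N L (M.ev p (emb M x)) := by
  ext i j
  rw [XE_apply]
  have h1 : M.ev p (emb M x) =
      ∑ i : Fin N, ∑ j : Fin N, Vop i * M.toC (x i j) p * star (Vop j) := by
    unfold emb
    rw [map_sum]
    refine Finset.sum_congr rfl fun i _ => ?_
    rw [map_sum]
    refine Finset.sum_congr rfl fun j _ => ?_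
    have hV : ∀ k : ℕ, M.ev p (VV M k) = Vop k := fun k => congrFun (toC_VV M k) p
    rw [map_mul, map_mul, map_star, hV, hV]
    rfl
  show _ = ent (M.ev p (emb M x)) (Nat.pair i.1 i.2) (Nat.pair j.1 j.2)
  rw [h1, ent_sum, Finset.sum_eq_single i.1]
  · rw [ent_sum, Finset.sum_eq_single j.1]
    · rw [ent_VV, if_pos ⟨rfl, rfl⟩]
    · intro k _ hk
      rw [ent_VV, if_neg (fun h => hk (Fin.ext h.2))]
    · intro h
      exact absurd (Finset.mem_univ _) h
  · intro k _ hk
    rw [ent_sum]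
    refine Finset.sum_eq_zero fun k' _ => ?_
    rw [ent_VV, if_neg (fun h => hk (Fin.ext h.1))]
  · intro h
    exact absurd (Finset.mem_univ _) h

lemma XE_posSemidef {l N L : ℕ} {y : Matrix (Fin N) (Fin N) E} (hy : ML M l y) (hL : l ≤ L)
    (p : PT) : (XE M N L (star y * y) p).PosSemidef := by
  rw [XE_mul M hy hL, XE_star]
  exact Matrix.posSemidef_conjTranspose_mul_self _

lemma XE_isHermitian {N : ℕ} (L : ℕ) (y : Matrix (Fin N) (Fin N) E) (p : PT) :
    (XE M N L (star y * y) p).IsHermitian := by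
  have : XE M N L (star (star y * y)) p = (XE M N L (star y * y) p).conjTranspose :=
    XE_star M _ p
  rw [star_mul, star_star] at this
  exact this.symm

/-! ### approximation -/

lemma norm_emb_sub_le {N : ℕ} (x : Matrix (Fin N) (Fin N) E) {ε : ℝ}
    (h : ∀ i j, ‖x i j‖ ≤ ε) : ‖emb M x‖ ≤ N * (N * ε) := by
  unfold emb
  refine (norm_sum_le _ _).trans ?_
  have h1 : ∀ i : Fin N, ‖∑ j : Fin N, VV M i * x i j * star (VV M j)‖ ≤ N * ε := by
    intro i
    refine (norm_sum_le _ _).trans ?_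
    have h2 : ∀ j : Fin N, ‖VV M i * x i j * star (VV M j)‖ ≤ ε := by
      intro j
      calc _ ≤ ‖VV M i‖ * ‖x i j‖ * ‖star (VV M j)‖ := norm_mul₃_le
        _ ≤ 1 * ‖x i j‖ * 1 := by
          gcongr
          · exact norm_VV_le M i
          · exact norm_VV_star_le M j
        _ = ‖x i j‖ := by ring
        _ ≤ ε := h i j
    refine (Finset.sum_le_sum fun j _ => h2 j).trans ?_
    simp
  refine (Finset.sum_le_sum fun i _ => h1 i).trans ?_
  simp

lemma emb_sub {N : ℕ} (x y : Matrix (Fin N) (Fin N) E) : emb M (x - y) = emb M x - emb M y := by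
  unfold emb
  rw [← Finset.sum_sub_distrib]
  refine Finset.sum_congr rfl fun i _ => ?_
  rw [← Finset.sum_sub_distrib]
  refine Finset.sum_congr rfl fun j _ => ?_
  rw [Matrix.sub_apply, mul_sub, sub_mul]

lemma approx0 (c : ↥(BB M)) {ε : ℝ} (hε : 0 < ε) (N0 : ℕ) :
    ∃ N, N0 ≤ N ∧ ∃ (l : ℕ) (y : Matrix (Fin N) (Fin N) E),
      ML M l y ∧ (∀ i j, y i j ∈ A0 M) ∧ ‖emb M y - (c : E)‖ ≤ ε := by
  obtain ⟨K, hK⟩ := (Metric.tendsto_atTop.mp c.2.2) (ε / 2) (by positivity)
  set N := max K N0 with hN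
  have h1 := hK N (le_max_left _ _)
  rw [dist_eq_norm] at h1
  have hδ : 0 < ε / (2 * (N * N + 1)) := by positivity
  choose l y hy hl hyc using fun i j : Fin N => A0_approx M (enB M i j c).2 hδ
  refine ⟨N, le_max_right _ _, ∑ i, ∑ j, l i j, Matrix.of y, ?_, fun i j => mem_A0 M (hy i j), ?_⟩
  · intro i j
    refine (hl i j).mono ?_
    exact (Finset.single_le_sum (f := fun j => l i j) (fun _ _ => Nat.zero_le _)
      (Finset.mem_univ j)).trans (Finset.single_le_sum (f := fun i => ∑ j, l i j)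
        (fun _ _ => Nat.zero_le _) (Finset.mem_univ i))
  · set z : Matrix (Fin N) (Fin N) E := Matrix.of fun i j => (enB M i j c : E) with hz
    have h2 : emb M z = pN M N * (c : E) * pN M N := by
      rw [← cor_coe]
      unfold cor emb
      rw [AddSubmonoidClass.coe_finsetSum, Finset.sum_range]
      refine Finset.sum_congr rfl fun i _ => ?_
      rw [AddSubmonoidClass.coe_finsetSum, Finset.sum_range]
      rfl
    have h3 : ‖emb M (Matrix.of y - z)‖ ≤ N * (N * (ε / (2 * (N * N + 1)))) := by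
      refine norm_emb_sub_le M _ fun i j => ?_
      rw [Matrix.sub_apply, norm_sub_rev]
      exact hyc i j
    have h4 : (N : ℝ) * (N * (ε / (2 * (N * N + 1)))) ≤ ε / 2 := by
      rw [← mul_assoc, mul_div_assoc', div_le_div_iff₀ (by positivity) (by norm_num)]
      nlinarith [hε.le, mul_nonneg (Nat.cast_nonneg (α := ℝ) N) (Nat.cast_nonneg (α := ℝ) N)]
    rw [emb_sub, h2] at h3
    have h5 : emb M (Matrix.of y) - (c : E) = (emb M (Matrix.of y) - pN M N * (c : E) * pN M N) +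
        (pN M N * (c : E) * pN M N - c) := by abel
    rw [h5]
    refine (norm_add_le _ _).trans ?_
    linarith

/-- approximation of positive elements -/
lemma approx {z : ↥(BB M)} (hz : Ps M z) {ε : ℝ} (hε : 0 < ε) (N0 : ℕ) :
    ∃ N, N0 ≤ N ∧ ∃ (l : ℕ) (y : Matrix (Fin N) (Fin N) E),
      ML M l y ∧ (∀ i j, y i j ∈ A0 M) ∧ ‖emb M (star y * y) - (z : E)‖ ≤ ε := by
  obtain ⟨c, rfl⟩ := hz
  have hcont : Continuous fun w : E => star w * w := by fun_prop
  obtain ⟨δ, hδ, h⟩ := (Metric.continuousAt_iff.mp (hcont.continuousAt (x := (c : E)))) ε hε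
  obtain ⟨N, hN, l, y, hy, hyA, hyc⟩ := approx0 M c (half_pos hδ) N0
  refine ⟨N, hN, l, y, hy, hyA, ?_⟩
  rw [emb_mul, emb_star]
  have h1 : dist (emb M y) (c : E) < δ := by
    rw [dist_eq_norm]
    linarith
  have h2 := h h1
  rw [dist_eq_norm] at h2
  exact h2.le

end Ambient

end

end Pool.Agent.Y269.RK
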