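import Mathlib

/-!
Closure properties of locally Lipschitz functions on a set.
-/

set_option autoImplicit false

namespace Pool.Agent.Y269.RK

open Set Filter Topology

lemma ll_const {X Y : Type} [PseudoEMetricSpace X] [PseudoEMetricSpace Y] (Ω : Set X) (c : Y) :
    LocallyLipschitzOn Ω fun _ => c := fun x _ =>
  ⟨0, univ, univ_mem, fun a _ b _ => by simp⟩

lemma ll_prod {X Y Z : Type} [PseudoEMetricSpace X] [PseudoEMetricSpace Y] [PseudoEMetricSpace Z]
    {Ω : Set X} {f : X → Y} {g : X → Z} (hf : LocallyLipschitzOn Ω f)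
    (hg : LocallyLipschitzOn Ω g) : LocallyLipschitzOn Ω fun x => (f x, g x) := by
  intro x hx
  obtain ⟨K, t, ht, h1⟩ := hf hx
  obtain ⟨K', t', ht', h2⟩ := hg hx
  exact ⟨max K K', t ∩ t', inter_mem ht ht',
    (h1.mono inter_subset_left).prodMk (h2.mono inter_subset_right)⟩

lemma ll_comp {X Y Z : Type} [PseudoEMetricSpace X] [PseudoEMetricSpace Y] [PseudoEMetricSpace Z]
    {Ω : Set X} {Ω' : Set Y} {f : X → Y} {g : Y → Z} (hf : LocallyLipschitzOn Ω f)
    (hm : ∀ x ∈ Ω, f x ∈ Ω') (hg : LocallyLipschitzOn Ω' g) :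
    LocallyLipschitzOn Ω fun x => g (f x) := by
  intro x hx
  obtain ⟨K, t, ht, h1⟩ := hf hx
  obtain ⟨K', t', ht', h2⟩ := hg (hm x hx)
  have hc : ContinuousWithinAt f Ω x := hf.continuousOn x hx
  have h3 : f ⁻¹' t' ∈ 𝓝[Ω] x :=
    (tendsto_nhdsWithin_iff.mpr ⟨hc, eventually_mem_nhdsWithin.mono hm⟩) ht'
  refine ⟨K' * K, t ∩ f ⁻¹' t', inter_mem ht h3, ?_⟩
  have h4 : LipschitzOnWith K f (t ∩ f ⁻¹' t') := h1.mono inter_subset_left
  exact h2.comp h4 (fun y hy => hy.2)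

lemma ll_contDiff {X Y Z : Type} [PseudoEMetricSpace X] [NormedAddCommGroup Y] [NormedSpace ℝ Y]
    [NormedAddCommGroup Z] [NormedSpace ℝ Z] {Ω : Set X} {f : X → Y} {g : Y → Z}
    (hf : LocallyLipschitzOn Ω f) (hg : ∀ x ∈ Ω, ContDiffAt ℝ 1 g (f x)) :
    LocallyLipschitzOn Ω fun x => g (f x) := by
  refine ll_comp (Ω' := f '' Ω) hf (fun x hx => ⟨x, hx, rfl⟩) ?_
  rintro _ ⟨x, hx, rfl⟩
  obtain ⟨K, t, ht, h⟩ := (hg x hx).exists_lipschitzOnWith
  exact ⟨K, t, mem_nhdsWithin_of_mem_nhds ht, h⟩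

lemma ll_add {X Y : Type} [PseudoEMetricSpace X] [NormedAddCommGroup Y] [NormedSpace ℝ Y]
    {Ω : Set X} {f g : X → Y} (hf : LocallyLipschitzOn Ω f) (hg : LocallyLipschitzOn Ω g) :
    LocallyLipschitzOn Ω fun x => f x + g x :=
  ll_contDiff (g := fun p : Y × Y => p.1 + p.2) (ll_prod hf hg)
    fun _ _ => (contDiff_fst.add contDiff_snd).contDiffAt

lemma ll_mul {X Y : Type} [PseudoEMetricSpace X] [NormedRing Y] [NormedAlgebra ℝ Y]
    {Ω : Set X} {f g : X → Y} (hf : LocallyLipschitzOn Ω f) (hg : LocallyLipschitzOn Ω g) :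
    LocallyLipschitzOn Ω fun x => f x * g x :=
  ll_contDiff (g := fun p : Y × Y => p.1 * p.2) (ll_prod hf hg)
    fun _ _ => (contDiff_fst.mul contDiff_snd).contDiffAt

lemma ll_sum {X Y : Type} [PseudoEMetricSpace X] [NormedAddCommGroup Y] [NormedSpace ℝ Y]
    {Ω : Set X} {ι : Type} (s : Finset ι) {f : ι → X → Y}
    (hf : ∀ i ∈ s, LocallyLipschitzOn Ω (f i)) : LocallyLipschitzOn Ω fun x => ∑ i ∈ s, f i x := by
  classical
  induction s using Finset.induction_on with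
  | empty => simpa using ll_const Ω (0 : Y)
  | insert a s ha ih =>
    simp only [Finset.sum_insert ha]
    exact ll_add (hf a (Finset.mem_insert_self _ _))
      (ih fun i hi => hf i (Finset.mem_insert_of_mem hi))

lemma ll_congr {X Y : Type} [PseudoEMetricSpace X] [PseudoEMetricSpace Y] {Ω : Set X}
    {f g : X → Y} (hf : LocallyLipschitzOn Ω f) (h : ∀ x ∈ Ω, f x = g x) :
    LocallyLipschitzOn Ω g := by
  intro x hx
  obtain ⟨K, t, ht, h1⟩ := hf hx
  refine ⟨K, t ∩ Ω, inter_mem ht self_mem_nhdsWithin, ?_⟩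
  intro a ha b hb
  rw [← h a ha.2, ← h b hb.2]
  exact h1 ha.1 hb.1

lemma ll_clm {X Y Z : Type} [PseudoEMetricSpace X] [NormedAddCommGroup Y] [NormedSpace ℝ Y]
    [NormedAddCommGroup Z] [NormedSpace ℝ Z] {Ω : Set X} {f : X → Y} (g : Y →L[ℝ] Z)
    (hf : LocallyLipschitzOn Ω f) : LocallyLipschitzOn Ω fun x => g (f x) :=
  ll_contDiff hf fun _ _ => g.contDiff.contDiffAt

end Pool.Agent.Y269.RK
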