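import Mathlib

/-!
The sizes of the blocks.
-/

namespace Pool.Agent.Y269.RK

/-- the sizes -/
def nz : ℕ → ℕ
  | 0 => 1
  | m + 1 => (1 + 64 * 2 ^ m * nz m) * nz m

/-- the numbers of blocks -/
def kz (m : ℕ) : ℕ := 1 + 64 * 2 ^ m * nz m

lemma nz_zero : nz 0 = 1 := rfl

lemma nz_succ (m : ℕ) : nz (m + 1) = kz m * nz m := rfl

lemma nz_pos (m : ℕ) : 0 < nz m := by
  induction m with
  | zero => exact Nat.one_pos
  | succ m ih => rw [nz_succ]; unfold kz; positivity

lemma kz_ge (m : ℕ) : 65 ≤ kz m := by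
  unfold kz
  have h1 := nz_pos m
  have h2 : 1 ≤ 2 ^ m := Nat.one_le_two_pow
  nlinarith [Nat.mul_le_mul h2 (show 1 ≤ nz m from h1)]

lemma nz_lt (m : ℕ) : nz m < nz (m + 1) := by
  rw [nz_succ]
  have := kz_ge m
  have := nz_pos m
  nlinarith

lemma nz_strictMono : StrictMono nz := strictMono_nat_of_lt_succ nz_lt

lemma nz_mono {l m : ℕ} (h : l ≤ m) : nz l ≤ nz m := nz_strictMono.monotone h

lemma lt_nz (m : ℕ) : m < nz m := by
  induction m with
  | zero => exact Nat.one_pos
  | succ m ih => have := nz_lt m; omega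

lemma nz_dvd {l m : ℕ} (h : l ≤ m) : nz l ∣ nz m := by
  induction m, h using Nat.le_induction with
  | base => exact dvd_rfl
  | succ m _ ih => rw [nz_succ]; exact ih.mul_left _

/-- the level of a number -/
def lv (c : ℕ) : ℕ := Nat.findGreatest (fun m => nz m ≤ c) c

lemma lv_le {c : ℕ} (hc : c ≠ 0) : nz (lv c) ≤ c := by
  have : nz 0 ≤ c := by rw [nz_zero]; omega
  exact Nat.findGreatest_spec (P := fun m => nz m ≤ c) (Nat.zero_le c) this

lemma lt_lv (c : ℕ) : c < nz (lv c + 1) := by
  by_contra hcon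
  push Not at hcon
  have h1 : lv c + 1 ≤ c := by
    have := lt_nz (lv c + 1)
    omega
  exact Nat.findGreatest_is_greatest (P := fun m => nz m ≤ c) (Nat.lt_succ_self _) h1 hcon

lemma lv_unique {c m : ℕ} (h1 : nz m ≤ c) (h2 : c < nz (m + 1)) : lv c = m := by
  have hc : c ≠ 0 := by have := nz_pos m; omega
  have h3 := lv_le hc
  have h4 := lt_lv c
  by_contra hne
  rcases lt_or_gt_of_ne hne with h | h
  · have := nz_mono (show lv c + 1 ≤ m from h); omega
  · have := nz_mono (show m + 1 ≤ lv c from h); omega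

lemma blk_lt {m c x : ℕ} (hc : c < kz m) (hx : x < nz m) : c * nz m + x < nz (m + 1) := by
  rw [nz_succ]
  calc c * nz m + x < c * nz m + nz m := by omega
    _ = (c + 1) * nz m := by ring
    _ ≤ kz m * nz m := Nat.mul_le_mul_right _ hc

lemma lv_block {m c x : ℕ} (hc0 : c ≠ 0) (hc : c < kz m) (hx : x < nz m) :
    lv (c * nz m + x) = m := by
  refine lv_unique ?_ (blk_lt hc hx)
  have : nz m ≤ c * nz m := Nat.le_mul_of_pos_left _ (Nat.pos_of_ne_zero hc0)
  omega

lemma div_block {m x : ℕ} (c : ℕ) (hx : x < nz m) : (c * nz m + x) / nz m = c := by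
  rw [mul_comm, Nat.mul_add_div (nz_pos m), Nat.div_eq_of_lt hx, add_zero]

lemma mod_block {m x : ℕ} (c : ℕ) (hx : x < nz m) : (c * nz m + x) % nz m = x := by
  rw [mul_comm, Nat.mul_add_mod, Nat.mod_eq_of_lt hx]

lemma mod_lt_self {i : ℕ} (hi : i ≠ 0) : i % nz (lv i) < i :=
  (Nat.mod_lt _ (nz_pos _)).trans_le (lv_le hi)

lemma div_lt_kz {i : ℕ} : i / nz (lv i) < kz (lv i) := by
  rw [Nat.div_lt_iff_lt_mul (nz_pos _), ← nz_succ]
  exact lt_lv i

/-- an index is live if none of its digits is the last one -/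
def live : ℕ → Prop
  | 0 => True
  | (i + 1) => (i + 1) / nz (lv (i + 1)) ≠ kz (lv (i + 1)) - 1 ∧ live ((i + 1) % nz (lv (i + 1)))
termination_by i => i
decreasing_by exact mod_lt_self (Nat.succ_ne_zero i)

lemma live_zero : live 0 := by rw [live]; trivial

lemma live_iff {i : ℕ} (hi : i ≠ 0) :
    live i ↔ i / nz (lv i) ≠ kz (lv i) - 1 ∧ live (i % nz (lv i)) := by
  obtain ⟨i, rfl⟩ := Nat.exists_eq_succ_of_ne_zero hi
  rw [live]

lemma live_block {m c x : ℕ} (hc : c < kz m) (hx : x < nz m) :
    live (c * nz m + x) ↔ c ≠ kz m - 1 ∧ live x := by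
  by_cases hc0 : c = 0
  · subst hc0
    have := kz_ge m
    simp only [zero_mul, zero_add]
    constructor
    · intro h; exact ⟨by omega, h⟩
    · intro h; exact h.2
  · have hne : c * nz m + x ≠ 0 := by
      have := nz_pos m
      have : 0 < c * nz m := Nat.mul_pos (Nat.pos_of_ne_zero hc0) this
      omega
    rw [live_iff hne, lv_block hc0 hc hx, div_block c hx, mod_block c hx]

/-- liveness of high and low parts -/
lemma live_split {L : ℕ} : ∀ {s x : ℕ}, nz L ∣ s → x < nz L → (live (s + x) ↔ live s ∧ live x) := by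
  intro s
  induction s using Nat.strong_induction_on with
  | _ s ih =>
    intro x hs hx
    by_cases hs0 : s = 0
    · subst hs0
      rw [zero_add]
      exact ⟨fun h => ⟨live_zero, h⟩, fun h => h.2⟩
    · set m := lv s with hm
      have h1 := lv_le hs0
      have h2 := lt_lv s
      rw [← hm] at h1 h2
      have hLm : L ≤ m := by
        by_contra hcon
        push Not at hcon
        have h3 : nz L ≤ s := Nat.le_of_dvd (Nat.pos_of_ne_zero hs0) hs
        have h4 := nz_mono (show m + 1 ≤ L from hcon)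
        omega
      have hd := nz_dvd hLm
      set c := s / nz m with hc
      set r := s % nz m with hr
      have e1 : s = c * nz m + r := by rw [hc, hr, mul_comm]; exact (Nat.div_add_mod s _).symm
      have hrlt : r < nz m := Nat.mod_lt _ (nz_pos m)
      have hcl : c < kz m := div_lt_kz
      have hdr : nz L ∣ r := by rw [hr]; exact (Nat.dvd_mod_iff hd).mpr hs
      have hrx : r + x < nz m := by
        obtain ⟨a, ha⟩ := hdr
        obtain ⟨b, hb⟩ := hd
        rw [ha, hb] at hrlt ⊢
        have h5 : a < b := lt_of_mul_lt_mul_left hrlt (Nat.zero_le _)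
        calc nz L * a + x < nz L * a + nz L := by omega
          _ = nz L * (a + 1) := by ring
          _ ≤ nz L * b := Nat.mul_le_mul_left _ h5
      have hrs : r < s := mod_lt_self hs0
      have e2 : s + x = c * nz m + (r + x) := by omega
      rw [e2, live_block hcl hrx, ih r hrs hdr hx]
      have e3 : live s ↔ c ≠ kz m - 1 ∧ live r := by
        conv_lhs => rw [e1]
        exact live_block hcl hrlt
      rw [e3]
      tauto

end Pool.Agent.Y269.RK
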