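import Pool.Agent.Helper133.BUProd
import Pool.Agent.Y269.RK.Sz
import Pool.Agent.Y269.RK.Ll

/-!
The base space, the shifts, the base points and the recursion for the evaluation points.
-/

set_option autoImplicit false

namespace Pool.Agent.Y269.RK

open Pool.Agent.Helper133.BT Pool.Agent.Helper133.BU Filter Topology

noncomputable section

/-- the dimensions of the spheres -/
def dd (l : ℕ) : ℕ := 100 * nz (l + 1) ^ 2

/-- the space -/
structure PT : Type where
  u : ℕ → Set.Icc (0 : ℝ) 1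
  y : ∀ l : ℕ, ℕ → ↥(K (dd l))

def PT.toProd (p : PT) : (ℕ → Set.Icc (0 : ℝ) 1) × (∀ l : ℕ, ℕ → ↥(K (dd l))) := (p.u, p.y)

def PT.equiv : PT ≃ (ℕ → Set.Icc (0 : ℝ) 1) × (∀ l : ℕ, ℕ → ↥(K (dd l))) where
  toFun p := (p.u, p.y)
  invFun q := ⟨q.1, q.2⟩
  left_inv _ := rfl
  right_inv _ := rfl

instance : TopologicalSpace PT := TopologicalSpace.induced PT.equiv inferInstance

def PT.homeo : PT ≃ₜ (ℕ → Set.Icc (0 : ℝ) 1) × (∀ l : ℕ, ℕ → ↥(K (dd l))) :=
  PT.equiv.toHomeomorphOfIsInducing ⟨rfl⟩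

instance (n : ℕ) : CompactSpace ↥(K n) := isCompact_iff_compactSpace.mp (K_compact n)

instance : CompactSpace PT := PT.homeo.symm.compactSpace

instance : SecondCountableTopology PT := PT.homeo.secondCountableTopology

lemma PT.cont_u (i : ℕ) : Continuous fun p : PT => p.u i :=
  (continuous_apply i).comp (continuous_fst.comp PT.homeo.continuous)

lemma PT.cont_y (l s : ℕ) : Continuous fun p : PT => p.y l s :=
  (continuous_apply s).comp ((continuous_apply l).comp (continuous_snd.comp PT.homeo.continuous))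

lemma PT.cont_iff {X : Type} [TopologicalSpace X] {f : X → PT}
    (h1 : ∀ i, Continuous fun x => (f x).u i) (h2 : ∀ l s, Continuous fun x => (f x).y l s) :
    Continuous f := by
  rw [← PT.homeo.comp_continuous_iff]
  exact (continuous_pi h1).prodMk (continuous_pi fun l => continuous_pi fun s => h2 l s)

@[ext] lemma PT.ext' {p p' : PT} (h1 : ∀ i, p.u i = p'.u i) (h2 : ∀ l s, p.y l s = p'.y l s) :
    p = p' := by
  cases p; cases p'
  congr
  · exact funext h1
  · exact funext fun l => funext fun s => h2 l s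

/-- a base point of the sphere -/
def yb (l : ℕ) : ↥(K (dd l)) := ⟨ev (dd l) 0, ev_mem (dd l)⟩

/-- a point with constant first coordinates -/
def pc (t : Set.Icc (0 : ℝ) 1) : PT := ⟨fun _ => t, fun l _ => yb l⟩

instance : Nonempty PT := ⟨pc 0⟩

/-- the shift -/
def shift (s : ℕ) (p : PT) : PT := ⟨fun i => p.u (s + i), fun l i => p.y l (s + i)⟩

/-- the antipodal map in one factor -/
def flip (l s : ℕ) (p : PT) : PT :=
  ⟨p.u, fun l' s' => if l' = l ∧ s' = s then ⟨-(p.y l' s' : Fin (dd l' + 1) → ℝ),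
    K_neg _ (p.y l' s').2⟩ else p.y l' s'⟩

lemma flip_u (l s : ℕ) (p : PT) (i : ℕ) : (flip l s p).u i = p.u i := rfl

lemma flip_y_ne {l s l' s' : ℕ} (p : PT) (h : ¬ (l' = l ∧ s' = s)) :
    (flip l s p).y l' s' = p.y l' s' := if_neg h

lemma flip_y_self (l s : ℕ) (p : PT) :
    ((flip l s p).y l s : Fin (dd l + 1) → ℝ) = -(p.y l s : Fin (dd l + 1) → ℝ) := by
  unfold flip
  simp

lemma flip_flip (l s : ℕ) (p : PT) : flip l s (flip l s p) = p := by
  refine PT.ext' (fun i => rfl) fun l' s' => ?_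
  by_cases h : l' = l ∧ s' = s
  · obtain ⟨rfl, rfl⟩ := h
    apply Subtype.ext
    rw [flip_y_self, flip_y_self, neg_neg]
  · rw [flip_y_ne _ h, flip_y_ne _ h]

lemma shift_zero (p : PT) : shift 0 p = p :=
  PT.ext' (fun i => by simp [shift]) fun l s => by simp [shift]

lemma shift_shift (s s' : ℕ) (p : PT) : shift s (shift s' p) = shift (s' + s) p :=
  PT.ext' (fun i => by simp [shift, add_assoc]) fun l i => by simp [shift, add_assoc]

lemma shift_cont (s : ℕ) : Continuous (shift s) :=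
  PT.cont_iff (fun i => PT.cont_u _) fun l i => PT.cont_y _ _

lemma shift_flip_lt {s l s' : ℕ} (h : s' < s) (p : PT) : shift s (flip l s' p) = shift s p :=
  PT.ext' (fun i => rfl) fun l' i => by
    show (flip l s' p).y l' (s + i) = p.y l' (s + i)
    exact flip_y_ne _ (fun h' => by omega)

lemma shift_flip_ge {s l s' : ℕ} (p : PT) :
    shift s (flip l (s + s') p) = flip l s' (shift s p) := by
  refine PT.ext' (fun i => rfl) fun l' i => ?_
  show (flip l (s + s') p).y l' (s + i) = (flip l s' (shift s p)).y l' i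
  by_cases h : l' = l ∧ i = s'
  · obtain ⟨rfl, rfl⟩ := h
    apply Subtype.ext
    rw [flip_y_self, flip_y_self]
    rfl
  · rw [flip_y_ne _ h, flip_y_ne _ (fun h' => h ⟨h'.1, by omega⟩)]
    rfl

/-- the base points -/
def q (m : ℕ) : PT := TopologicalSpace.denseSeq PT (Nat.unpair m).2

lemma q_spec {U : Set PT} (hU : IsOpen U) (hne : U.Nonempty) (l : ℕ) : ∃ m, l ≤ m ∧ q m ∈ U := by
  obtain ⟨p, hp, j, rfl⟩ :=
    (TopologicalSpace.denseRange_denseSeq PT).exists_mem_open hU hne |>.elim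
      (fun j hj => (⟨_, hj, j, rfl⟩ : ∃ p, p ∈ U ∧ ∃ j, TopologicalSpace.denseSeq PT j = p))
  refine ⟨Nat.pair l j, Nat.left_le_pair l j, ?_⟩
  unfold q
  rw [Nat.unpair_pair]
  exact hp

/-- the maps of the blocks -/
def tr (m c : ℕ) (p : PT) : PT := if c = kz m - 1 then q m else shift (c * nz m) p

lemma tr_zero (m : ℕ) (p : PT) : tr m 0 p = p := by
  unfold tr
  have := kz_ge m
  rw [if_neg (by omega), zero_mul, shift_zero]

lemma tr_last (m : ℕ) (p : PT) : tr m (kz m - 1) p = q m := if_pos rfl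

/-- the evaluation points -/
def DD : ℕ → PT → PT
  | 0, p => p
  | (i + 1), p => DD ((i + 1) % nz (lv (i + 1))) (tr (lv (i + 1)) ((i + 1) / nz (lv (i + 1))) p)
termination_by i => i
decreasing_by exact mod_lt_self (Nat.succ_ne_zero i)

lemma DD_zero (p : PT) : DD 0 p = p := by rw [DD]

lemma DD_pos {i : ℕ} (hi : i ≠ 0) (p : PT) :
    DD i p = DD (i % nz (lv i)) (tr (lv i) (i / nz (lv i)) p) := by
  obtain ⟨i, rfl⟩ := Nat.exists_eq_succ_of_ne_zero hi
  rw [DD]

lemma DD_block {m c x : ℕ} (hc : c < kz m) (hx : x < nz m) (p : PT) :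
    DD (c * nz m + x) p = DD x (tr m c p) := by
  by_cases hc0 : c = 0
  · subst hc0
    rw [tr_zero, zero_mul, zero_add]
  · have hne : c * nz m + x ≠ 0 := by
      have := nz_pos m
      have : 0 < c * nz m := Nat.mul_pos (Nat.pos_of_ne_zero hc0) this
      omega
    rw [DD_pos hne, lv_block hc0 hc hx, div_block c hx, mod_block c hx]

lemma DD_live {i : ℕ} (h : live i) (p : PT) : DD i p = shift i p := by
  induction i using Nat.strong_induction_on generalizing p with
  | _ i ih =>
    by_cases hi : i = 0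
    · subst hi; rw [DD_zero, shift_zero]
    · obtain ⟨h1, h2⟩ := (live_iff hi).mp h
      rw [DD_pos hi, ih _ (mod_lt_self hi) h2]
      unfold tr
      rw [if_neg h1, shift_shift]
      congr 1
      rw [mul_comm]
      exact Nat.div_add_mod i _

lemma DD_dead {i : ℕ} (h : ¬ live i) (p p' : PT) : DD i p = DD i p' := by
  induction i using Nat.strong_induction_on generalizing p p' with
  | _ i ih =>
    by_cases hi : i = 0
    · subst hi; exact absurd live_zero h
    · rw [DD_pos hi, DD_pos hi p']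
      by_cases h1 : i / nz (lv i) = kz (lv i) - 1
      · unfold tr
        rw [if_pos h1, if_pos h1]
      · refine ih _ (mod_lt_self hi) (fun h2 => h ((live_iff hi).mpr ⟨h1, h2⟩)) _ _

lemma DD_cont (i : ℕ) : Continuous (DD i) := by
  by_cases h : live i
  · have : DD i = shift i := funext fun p => DD_live h p
    rw [this]
    exact shift_cont i
  · obtain ⟨p0⟩ : Nonempty PT := inferInstance
    have : DD i = fun _ => DD i p0 := funext fun p => DD_dead h p p0
    rw [this]
    exact continuous_const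

/-- functions which are locally Lipschitz in the coordinates -/
def Nice (φ : PT → ℂ) : Prop :=
  ∀ (X : Type) [NormedAddCommGroup X] (Ω : Set X) (π : X → PT),
    (∀ i, LocallyLipschitzOn Ω fun x => ((π x).u i : ℝ)) →
    (∀ l s, LocallyLipschitzOn Ω fun x => ((π x).y l s : Fin (dd l + 1) → ℝ)) →
    LocallyLipschitzOn Ω fun x => φ (π x)

/-- the class of functions which occur -/
def FN (φ : PT → ℂ) : Prop := Continuous φ ∧ Nice φ

namespace FN

lemma const (c : ℂ) : FN fun _ => c := ⟨continuous_const, fun _ _ Ω _ _ _ => ll_const Ω c⟩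

lemma add {φ ψ : PT → ℂ} (h : FN φ) (h' : FN ψ) : FN fun p => φ p + ψ p :=
  ⟨h.1.add h'.1, fun X _ Ω π h1 h2 => ll_add (h.2 X Ω π h1 h2) (h'.2 X Ω π h1 h2)⟩

lemma mul {φ ψ : PT → ℂ} (h : FN φ) (h' : FN ψ) : FN fun p => φ p * ψ p :=
  ⟨h.1.mul h'.1, fun X _ Ω π h1 h2 => ll_mul (h.2 X Ω π h1 h2) (h'.2 X Ω π h1 h2)⟩

lemma conj {φ : PT → ℂ} (h : FN φ) : FN fun p => (starRingEnd ℂ) (φ p) :=
  ⟨Complex.continuous_conj.comp h.1, fun X _ Ω π h1 h2 =>
    ll_clm (Complex.conjCLE : ℂ →L[ℝ] ℂ) (h.2 X Ω π h1 h2)⟩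

lemma sum {ι : Type} (s : Finset ι) {φ : ι → PT → ℂ} (h : ∀ i ∈ s, FN (φ i)) :
    FN fun p => ∑ i ∈ s, φ i p := by
  classical
  induction s using Finset.induction_on with
  | empty => simpa using const 0
  | insert a s ha ih =>
    simp only [Finset.sum_insert ha]
    exact (h a (Finset.mem_insert_self _ _)).add (ih fun i hi => h i (Finset.mem_insert_of_mem hi))

lemma prod {ι : Type} (s : Finset ι) {φ : ι → PT → ℂ} (h : ∀ i ∈ s, FN (φ i)) :
    FN fun p => ∏ i ∈ s, φ i p := by
  classical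
  induction s using Finset.induction_on with
  | empty => simpa using const 1
  | insert a s ha ih =>
    simp only [Finset.prod_insert ha]
    exact (h a (Finset.mem_insert_self _ _)).mul (ih fun i hi => h i (Finset.mem_insert_of_mem hi))

lemma comp_DD {φ : PT → ℂ} (h : FN φ) (i : ℕ) : FN fun p => φ (DD i p) := by
  refine ⟨h.1.comp (DD_cont i), ?_⟩
  by_cases hi : live i
  · intro X _ Ω π h1 h2
    have e : (fun x => φ (DD i (π x))) = fun x => φ (shift i (π x)) :=
      funext fun x => by rw [DD_live hi]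
    rw [e]
    exact h.2 X Ω (fun x => shift i (π x)) (fun j => h1 _) (fun l s => h2 _ _)
  · intro X _ Ω π h1 h2
    obtain ⟨p0⟩ : Nonempty PT := inferInstance
    have e : (fun x => φ (DD i (π x))) = fun x => φ (DD i p0) :=
      funext fun x => by rw [DD_dead hi]
    rw [e]
    exact ll_const _ _

end FN

/-- agreement in the coordinates of level `L` -/
def Agr (L : ℕ) (p p' : PT) : Prop :=
  (∀ i < nz L, p.u i = p'.u i) ∧ ∀ l < L, ∀ s < nz L, p.y l s = p'.y l s

lemma Agr.rfl' {L : ℕ} (p : PT) : Agr L p p := ⟨fun _ _ => rfl, fun _ _ _ _ => rfl⟩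

lemma Agr.symm {L : ℕ} {p p' : PT} (h : Agr L p p') : Agr L p' p :=
  ⟨fun i hi => (h.1 i hi).symm, fun l hl s hs => (h.2 l hl s hs).symm⟩

lemma Agr.tr {m c : ℕ} {p p' : PT} (h : Agr (m + 1) p p') (hc : c < kz m) :
    Agr m (tr m c p) (tr m c p') := by
  unfold RK.tr
  split_ifs with h1
  · exact Agr.rfl' _
  · refine ⟨fun i hi => h.1 _ (blk_lt hc hi), fun l hl s hs => ?_⟩
    exact h.2 l (by omega) _ (blk_lt hc hs)

/-- the good indices of the spheres -/
def good (l s : ℕ) : Prop := nz l ∣ s ∧ live s ∧ (s / nz l) % kz l ≠ 0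

/-- membership in a block -/
def inb (l s i : ℕ) : Prop := s ≤ i ∧ i < s + nz l

instance (l s i : ℕ) : Decidable (inb l s i) := inferInstanceAs (Decidable (_ ∧ _))

/-- the sign -/
def sk (l s i : ℕ) : ℂ := if inb l s i then -1 else 1

lemma sk_mul_self (l s i : ℕ) : sk l s i * sk l s i = 1 := by
  unfold sk; split_ifs <;> simp

lemma conj_sk (l s i : ℕ) : (starRingEnd ℂ) (sk l s i) = sk l s i := by
  unfold sk; split_ifs <;> simp

lemma norm_sk (l s i : ℕ) : ‖sk l s i‖ = 1 := by
  unfold sk; split_ifs <;> simp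

end

end Pool.Agent.Y269.RK
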