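import Pool.Agent.Y269.GP.Op
import Pool.Agent.Y269.RK.Pt

/-!
Self-similar operator valued functions.
-/

set_option autoImplicit false

namespace Pool.Agent.Y269.RK

open scoped ENNReal
open Pool.Agent.Helper133.BT Pool.Agent.Helper133.BU Filter Topology Pool.Agent.Y269.GP

noncomputable section

/-- operators -/
abbrev BH : Type := HH →L[ℂ] HH

/-- operator valued functions -/
abbrev FF : Type := PT → BH

/-- membership in the block `c` of level `m` -/
def cb (m c i : ℕ) : Prop := c * nz m ≤ i ∧ i < c * nz m + nz m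

instance (m c i : ℕ) : Decidable (cb m c i) := inferInstanceAs (Decidable (_ ∧ _))

def SS (m c : ℕ) : BH := wp (fun i => i - c * nz m) (fun i => if cb m c i then 1 else 0)

def SSt (m c : ℕ) : BH := wp (fun i => c * nz m + i) (fun i => if i < nz m then 1 else 0)

def PR (m : ℕ) : BH := wp (fun i => i) (fun i => if i < nz m then 1 else 0)

def gg (l s : ℕ) : BH := wp (fun i => i) (fun i => sk l s i)

lemma nit (P : Prop) [Decidable P] : ‖(if P then (1 : ℂ) else 0)‖ ≤ 1 := by
  split_ifs <;> simp

lemma SS_good (m c : ℕ) :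
    Good (fun i => i - c * nz m) (fun i => if cb m c i then (1 : ℂ) else 0) := by
  refine ⟨?_, 1, fun _ => nit _⟩
  intro i j hi hj hij
  have h1 : cb m c i := by by_contra h; simp [h] at hi
  have h2 : cb m c j := by by_contra h; simp [h] at hj
  unfold cb at h1 h2
  simp only at hij
  omega

lemma SSt_good (m c : ℕ) :
    Good (fun i => c * nz m + i) (fun i => if i < nz m then (1 : ℂ) else 0) := by
  refine ⟨?_, 1, fun _ => nit _⟩
  intro i j _ _ hij
  simp only at hij
  omega

lemma PR_good (m : ℕ) : Good (fun i => i) (fun i => if i < nz m then (1 : ℂ) else 0) :=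
  ⟨fun _ _ _ _ h => h, 1, fun _ => nit _⟩

lemma gg_good (l s : ℕ) : Good (fun i => i) (fun i => sk l s i) :=
  ⟨fun _ _ _ _ h => h, 1, fun i => (norm_sk l s i).le⟩

lemma SS_apply (m c : ℕ) (f : HH) (i : ℕ) :
    SS m c f i = (if cb m c i then 1 else 0) * f (i - c * nz m) := wp_apply (SS_good m c) f i

lemma SSt_apply (m c : ℕ) (f : HH) (i : ℕ) :
    SSt m c f i = (if i < nz m then 1 else 0) * f (c * nz m + i) := wp_apply (SSt_good m c) f i

lemma PR_apply (m : ℕ) (f : HH) (i : ℕ) :
    PR m f i = (if i < nz m then 1 else 0) * f i := wp_apply (PR_good m) f i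

lemma gg_apply (l s : ℕ) (f : HH) (i : ℕ) : gg l s f i = sk l s i * f i :=
  wp_apply (gg_good l s) f i

lemma SS_star (m c : ℕ) : star (SS m c) = SSt m c := by
  refine star_wp (SS_good m c) (SSt_good m c) ?_ ?_
  · intro i hi
    have h1 : cb m c i := by by_contra h; simp [h] at hi
    have h2 : i - c * nz m < nz m := by unfold cb at h1; omega
    have h3 : c * nz m + (i - c * nz m) = i := by unfold cb at h1; omega
    simp [h1, h2, h3]
  · intro j hj
    have h1 : j < nz m := by by_contra h; simp [h] at hj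
    have h2 : cb m c (c * nz m + j) := by unfold cb; omega
    simp [h1, h2]

lemma SSt_star (m c : ℕ) : star (SSt m c) = SS m c := by rw [← SS_star, star_star]

lemma PR_star (m : ℕ) : star (PR m) = PR m := by
  refine star_wp (PR_good m) (PR_good m) ?_ ?_
  · intro i hi
    have h1 : i < nz m := by by_contra h; simp [h] at hi
    simp [h1]
  · intro i hi
    have h1 : i < nz m := by by_contra h; simp [h] at hi
    simp [h1]

lemma gg_star (l s : ℕ) : star (gg l s) = gg l s := by
  refine star_wp (gg_good l s) (gg_good l s) ?_ ?_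
  · intro i _
    exact ⟨(conj_sk l s i).symm, rfl⟩
  · intro i _
    exact ⟨(conj_sk l s i).symm, rfl⟩

lemma PR_PR (m : ℕ) : PR m * PR m = PR m := by
  refine op_ext fun f i => ?_
  rw [mulA, PR_apply, PR_apply]
  split_ifs <;> simp

lemma PR_ee (m t : ℕ) : PR m (ee t) = (if t < nz m then (1 : ℂ) else 0) • ee t := by
  refine lp.ext (funext fun k => ?_)
  rw [PR_apply, lp.coeFn_smul, Pi.smul_apply, ee_apply, smul_eq_mul]
  by_cases hk : k = t
  · subst hk; rfl
  · rw [if_neg hk]; simp

lemma PR_ee_lt {m t : ℕ} (h : t < nz m) : PR m (ee t) = ee t := by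
  rw [PR_ee, if_pos h, one_smul]

lemma gg_ee (l s t : ℕ) : gg l s (ee t) = sk l s t • ee t := by
  refine lp.ext (funext fun i => ?_)
  rw [gg_apply, lp.coeFn_smul, Pi.smul_apply, ee_apply, smul_eq_mul]
  by_cases h : i = t
  · subst h; rfl
  · rw [if_neg h]; simp

lemma SS_ee {m c j : ℕ} (hj : j < nz m) : SS m c (ee j) = ee (c * nz m + j) := by
  refine lp.ext (funext fun k => ?_)
  rw [SS_apply, ee_apply, ee_apply]
  by_cases hk : k = c * nz m + j
  · have h2 : cb m c k := by unfold cb; omega
    have h3 : k - c * nz m = j := by omega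
    rw [if_pos h2, if_pos h3, if_pos hk]; simp
  · rw [if_neg hk]
    by_cases hb : cb m c k
    · have h3 : ¬ k - c * nz m = j := by unfold cb at hb; omega
      rw [if_neg h3, mul_zero]
    · rw [if_neg hb, zero_mul]

/-- matrix entries -/
def ent (A : BH) (i j : ℕ) : ℂ := A (ee j) i

lemma ent_add (A B : BH) (i j : ℕ) : ent (A + B) i j = ent A i j + ent B i j := rfl

lemma ent_sub (A B : BH) (i j : ℕ) : ent (A - B) i j = ent A i j - ent B i j := rfl

lemma ent_smul (c : ℂ) (A : BH) (i j : ℕ) : ent (c • A) i j = c * ent A i j := rfl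

lemma ent_one (i j : ℕ) : ent (1 : BH) i j = if i = j then 1 else 0 := ee_apply j i

lemma ent_zero (i j : ℕ) : ent (0 : BH) i j = 0 := rfl

lemma ent_star (A : BH) (i j : ℕ) : ent (star A) i j = (starRingEnd ℂ) (ent A j i) := by
  unfold ent
  rw [← inner_ee i, ContinuousLinearMap.star_eq_adjoint,
    ContinuousLinearMap.adjoint_inner_right, ← inner_ee j, inner_conj_symm]

lemma norm_ee (i : ℕ) : ‖ee i‖ = 1 := by
  unfold ee
  rw [lp.norm_single (by norm_num), norm_one]

lemma norm_ent_le (A : BH) (i j : ℕ) : ‖ent A i j‖ ≤ ‖A‖ := by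
  unfold ent
  calc ‖A (ee j) i‖ ≤ ‖A (ee j)‖ := lp.norm_apply_le_norm (by norm_num) _ _
    _ ≤ ‖A‖ * ‖ee j‖ := A.le_opNorm _
    _ = ‖A‖ := by rw [norm_ee, mul_one]

lemma ent_ext {A B : BH} (h : ∀ i j, ent A i j = ent B i j) : A = B :=
  op_ext' fun j i => h i j

/-- a vector supported in a block is a sum -/
lemma vec_sum {f : HH} {n : ℕ} (h : ∀ k, n ≤ k → f k = 0) :
    f = ∑ k ∈ Finset.range n, f k • ee k := by
  refine lp.ext (funext fun i => ?_)
  rw [lp.coeFn_sum, Finset.sum_apply]
  have h1 : ∀ k, ((f k • ee k : HH) : ℕ → ℂ) i = f k * (if i = k then 1 else 0) := by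
    intro k
    rw [lp.coeFn_smul, Pi.smul_apply, ee_apply, smul_eq_mul]
  simp only [h1, mul_ite, mul_one, mul_zero]
  rw [Finset.sum_ite_eq]
  split_ifs with h2
  · rfl
  · exact h i (by simpa using h2)

/-- self-similar functions of level `l` -/
structure Lev (l : ℕ) (T : FF) : Prop where
  comm : ∀ m, l ≤ m → ∀ p, T p * PR m = PR m * T p
  shift : ∀ m, l ≤ m → ∀ c, c < kz m → ∀ p, T p * SS m c = SS m c * T (tr m c p)
  shift' : ∀ m, l ≤ m → ∀ c, c < kz m → ∀ p, SSt m c * T p = T (tr m c p) * SSt m c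
  eqv : ∀ j s, good j s → ∀ p, T (flip j s p) * gg j s = gg j s * T p
  loc : ∀ p p', Agr l p p' → T p * PR l = T p' * PR l
  fn : ∀ i j, FN fun p => ent (T p) i j

namespace Lev

/-- entries of two block diagonal functions -/
lemma entry_zero {l : ℕ} {T : FF} (h : Lev l T) {m : ℕ} (hm : l ≤ m) (p : PT) {i j : ℕ}
    (hij : ¬ (i < nz m ↔ j < nz m)) : ent (T p) i j = 0 := by
  unfold ent
  have h1 : (T p * PR m) (ee j) i = (PR m * T p) (ee j) i := by rw [h.comm m hm p]
  rw [mulA, mulA, PR_apply, PR_ee, map_smul, lp.coeFn_smul, Pi.smul_apply, smul_eq_mul] at h1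
  by_cases hj : j < nz m
  · have hi : ¬ i < nz m := fun hi => hij ⟨fun _ => hj, fun _ => hi⟩
    rw [if_pos hj, if_neg hi] at h1
    simpa using h1
  · have hi : i < nz m := by
      by_contra hi
      exact hij ⟨fun h => absurd h hi, fun h => absurd h hj⟩
    rw [if_neg hj, if_pos hi] at h1
    simpa using h1.symm

/-- the entries in a block -/
lemma entry_block {l : ℕ} {T : FF} (h : Lev l T) {m : ℕ} (hm : l ≤ m) {c : ℕ} (hc : c < kz m)
    (p : PT) {i j : ℕ} (hi : i < nz m) (hj : j < nz m) :
    ent (T p) (c * nz m + i) (c * nz m + j) = ent (T (tr m c p)) i j := by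
  unfold ent
  have h1 : (T p * SS m c) (ee j) (c * nz m + i) = (SS m c * T (tr m c p)) (ee j) (c * nz m + i) := by
    rw [h.shift m hm c hc p]
  rw [mulA, mulA, SS_ee hj, SS_apply] at h1
  have h2 : cb m c (c * nz m + i) := by unfold cb; omega
  rw [if_pos h2, one_mul] at h1
  rw [h1, Nat.add_sub_cancel_left]

/-- entries in different blocks -/
lemma entry_off {l : ℕ} {T : FF} (h : Lev l T) {m : ℕ} (hm : l ≤ m) {c : ℕ} (hc : c < kz m)
    (p : PT) {i j : ℕ} (hi : ¬ cb m c i) (hj : cb m c j) : ent (T p) i j = 0 := by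
  unfold ent
  have h1 : (T p * SS m c) (ee (j - c * nz m)) i = (SS m c * T (tr m c p)) (ee (j - c * nz m)) i := by
    rw [h.shift m hm c hc p]
  have hj' := hj
  unfold cb at hj'
  rw [mulA, mulA, SS_ee (by omega), SS_apply, if_neg hi, zero_mul] at h1
  rwa [show c * nz m + (j - c * nz m) = j by omega] at h1

lemma mono_succ {l : ℕ} {T : FF} (h : Lev l T) : Lev (l + 1) T where
  comm m hm := h.comm m (by omega)
  shift m hm := h.shift m (by omega)
  shift' m hm := h.shift' m (by omega)
  eqv := h.eqv
  loc p p' hp := by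
    refine op_ext' fun j i => ?_
    rw [mulA, mulA, PR_ee, map_smul, map_smul]
    by_cases hj : j < nz (l + 1)
    · rw [if_pos hj, one_smul, one_smul]
      -- decompose
      have hc : j / nz l < kz l := by
        rw [Nat.div_lt_iff_lt_mul (nz_pos _), ← nz_succ]; exact hj
      have hx : j % nz l < nz l := Nat.mod_lt _ (nz_pos l)
      have e : j = (j / nz l) * nz l + j % nz l := by
        rw [mul_comm]; exact (Nat.div_add_mod j _).symm
      have key : ∀ p, T p (ee j) = SS l (j / nz l) (T (RK.tr l (j / nz l) p) (ee (j % nz l))) := by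
        intro p
        conv_lhs => rw [e, ← SS_ee hx]
        exact congrArg (fun A : BH => A (ee (j % nz l))) (h.shift l le_rfl _ hc p)
      rw [key p, key p']
      have h2 := h.loc _ _ (hp.tr hc)
      have h3 : (T (RK.tr l (j / nz l) p) * PR l) (ee (j % nz l)) =
          (T (RK.tr l (j / nz l) p') * PR l) (ee (j % nz l)) := by rw [h2]
      rw [mulA, mulA, PR_ee_lt hx] at h3
      rw [h3]
    · rw [if_neg hj, zero_smul, zero_smul]
  fn := h.fn

lemma mono {l l' : ℕ} {T : FF} (h : Lev l T) (hl : l ≤ l') : Lev l' T := by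
  induction l', hl using Nat.le_induction with
  | base => exact h
  | succ m _ ih => exact ih.mono_succ

lemma add {l : ℕ} {S T : FF} (hS : Lev l S) (hT : Lev l T) : Lev l (S + T) where
  comm m hm p := by
    rw [Pi.add_apply, add_mul, mul_add, hS.comm m hm, hT.comm m hm]
  shift m hm c hc p := by
    rw [Pi.add_apply, Pi.add_apply, add_mul, mul_add, hS.shift m hm c hc, hT.shift m hm c hc]
  shift' m hm c hc p := by
    rw [Pi.add_apply, Pi.add_apply, add_mul, mul_add, hS.shift' m hm c hc, hT.shift' m hm c hc]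
  eqv j s hg p := by
    rw [Pi.add_apply, Pi.add_apply, add_mul, mul_add, hS.eqv j s hg, hT.eqv j s hg]
  loc p p' h := by
    rw [Pi.add_apply, Pi.add_apply, add_mul, add_mul, hS.loc p p' h, hT.loc p p' h]
  fn i j := (hS.fn i j).add (hT.fn i j)

/-- products of entries -/
lemma ent_mul {l : ℕ} {T : FF} (hT : Lev l T) {m : ℕ} (hm : l ≤ m) (A : BH) (p : PT) (i : ℕ)
    {j : ℕ} (hj : j < nz m) :
    ent (A * T p) i j = ∑ k ∈ Finset.range (nz m), ent A i k * ent (T p) k j := by
  have h1 : T p (ee j) = ∑ k ∈ Finset.range (nz m), (T p (ee j) k) • ee k :=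
    vec_sum fun k hk => hT.entry_zero hm p (fun h => absurd (h.mpr hj) (not_lt.mpr hk))
  have h2 : (A * T p) (ee j) = ∑ k ∈ Finset.range (nz m), (T p (ee j) k) • A (ee k) := by
    rw [mulA]
    conv_lhs => rw [h1]
    rw [map_sum]
    exact Finset.sum_congr rfl fun k _ => map_smul _ _ _
  have h3 : ∀ s : Finset ℕ, ((∑ k ∈ s, (T p (ee j) k) • A (ee k) : HH) : ℕ → ℂ) i =
      ∑ k ∈ s, ent A i k * ent (T p) k j := by
    intro s
    induction s using Finset.induction_on with
    | empty => simp
    | insert a s ha ih =>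
      rw [Finset.sum_insert ha, Finset.sum_insert ha, ← ih]
      show (T p (ee j) a) * (A (ee a) i) + _ = (A (ee a) i) * (T p (ee j) a) + _
      ring
  have h4 := congrArg (fun v : HH => (v : ℕ → ℂ) i) h2
  exact h4.trans (h3 _)

lemma mul {l : ℕ} {S T : FF} (hS : Lev l S) (hT : Lev l T) : Lev l (S * T) where
  comm m hm p := by
    rw [Pi.mul_apply, mul_assoc, hT.comm m hm, ← mul_assoc, hS.comm m hm, mul_assoc]
  shift m hm c hc p := by
    rw [Pi.mul_apply, Pi.mul_apply, mul_assoc, hT.shift m hm c hc, ← mul_assoc,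
      hS.shift m hm c hc, mul_assoc]
  shift' m hm c hc p := by
    rw [Pi.mul_apply, Pi.mul_apply, ← mul_assoc, hS.shift' m hm c hc, mul_assoc,
      hT.shift' m hm c hc, mul_assoc]
  eqv j s hg p := by
    rw [Pi.mul_apply, Pi.mul_apply, mul_assoc, hT.eqv j s hg, ← mul_assoc, hS.eqv j s hg,
      mul_assoc]
  loc p p' h := by
    rw [Pi.mul_apply, Pi.mul_apply, mul_assoc, hT.loc p p' h, mul_assoc, hT.comm l le_rfl,
      ← mul_assoc, ← mul_assoc, hS.loc p p' h]
  fn i j := by
    have hj : j < nz (l + j) := (lt_nz j).trans_le (nz_mono (by omega))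
    have e : (fun p => ent ((S * T) p) i j) =
        fun p => ∑ k ∈ Finset.range (nz (l + j)), ent (S p) i k * ent (T p) k j :=
      funext fun p => hT.ent_mul (m := l + j) (by omega) (S p) p i hj
    rw [e]
    exact FN.sum _ fun k _ => (hS.fn i k).mul (hT.fn k j)

lemma smul_one (l : ℕ) (c : ℂ) : Lev l (c • (1 : FF)) where
  comm m _ p := by
    show (c • (1 : BH)) * PR m = PR m * (c • (1 : BH))
    rw [smul_mul_assoc, mul_smul_comm, one_mul, mul_one]
  shift m _ b _ p := by
    show (c • (1 : BH)) * SS m b = SS m b * (c • (1 : BH))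
    rw [smul_mul_assoc, mul_smul_comm, one_mul, mul_one]
  shift' m _ b _ p := by
    show SSt m b * (c • (1 : BH)) = (c • (1 : BH)) * SSt m b
    rw [smul_mul_assoc, mul_smul_comm, one_mul, mul_one]
  eqv j s _ p := by
    show (c • (1 : BH)) * gg j s = gg j s * (c • (1 : BH))
    rw [smul_mul_assoc, mul_smul_comm, one_mul, mul_one]
  loc p p' _ := rfl
  fn i j := FN.const (ent (c • (1 : BH)) i j)

lemma one (l : ℕ) : Lev l (1 : FF) := by simpa using smul_one l 1

lemma zero (l : ℕ) : Lev l (0 : FF) := by simpa using smul_one l 0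

lemma smul {l : ℕ} {T : FF} (h : Lev l T) (c : ℂ) : Lev l (c • T) := by
  have := (smul_one l c).mul h
  rwa [smul_one_mul] at this

lemma neg {l : ℕ} {T : FF} (h : Lev l T) : Lev l (-T) := by
  have := h.smul (-1)
  rwa [neg_one_smul] at this

lemma sub {l : ℕ} {S T : FF} (hS : Lev l S) (hT : Lev l T) : Lev l (S - T) := by
  rw [sub_eq_add_neg]
  exact hS.add hT.neg

lemma star' {l : ℕ} {T : FF} (h : Lev l T) : Lev l (star T) where
  comm m hm p := by
    have := congrArg star (h.comm m hm p)
    rw [star_mul, star_mul, PR_star] at this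
    rw [Pi.star_apply]; exact this.symm
  shift m hm c hc p := by
    have := congrArg star (h.shift' m hm c hc p)
    rw [star_mul, star_mul, SSt_star] at this
    rw [Pi.star_apply, Pi.star_apply]; exact this
  shift' m hm c hc p := by
    have := congrArg star (h.shift m hm c hc p)
    rw [star_mul, star_mul, SS_star] at this
    rw [Pi.star_apply, Pi.star_apply]; exact this
  eqv j s hg p := by
    have := congrArg star (h.eqv j s hg (flip j s p))
    rw [star_mul, star_mul, gg_star, flip_flip] at this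
    rw [Pi.star_apply, Pi.star_apply]; exact this.symm
  loc p p' hp := by
    have h1 : PR l * T p = PR l * T p' := by
      rw [← h.comm l le_rfl, ← h.comm l le_rfl, h.loc p p' hp]
    have := congrArg star h1
    rw [star_mul, star_mul, PR_star] at this
    exact this
  fn i j := by
    have e : (fun p => ent ((star T) p) i j) = fun p => (starRingEnd ℂ) (ent (T p) j i) :=
      funext fun p => ent_star (T p) i j
    rw [e]
    exact (h.fn j i).conj

/-- an element of level `l` is determined by its first block -/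
lemma eq_zero {l : ℕ} {T : FF} (h : Lev l T)
    (h0 : ∀ p i j, i < nz l → j < nz l → ent (T p) i j = 0) : T = 0 := by
  have key : ∀ M, ∀ p i j, i < nz (l + M) → j < nz (l + M) → ent (T p) i j = 0 := by
    intro M
    induction M with
    | zero => exact h0
    | succ M ih =>
      intro p i j hi hj
      have hcj : j / nz (l + M) < kz (l + M) := by
        rw [Nat.div_lt_iff_lt_mul (nz_pos _), ← nz_succ]; exact hj
      have hxj : j % nz (l + M) < nz (l + M) := Nat.mod_lt _ (nz_pos _)
      have ej : j = (j / nz (l + M)) * nz (l + M) + j % nz (l + M) := by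
        rw [mul_comm]; exact (Nat.div_add_mod j _).symm
      have hbj : cb (l + M) (j / nz (l + M)) j := by unfold cb; omega
      by_cases hbi : cb (l + M) (j / nz (l + M)) i
      · have ei : i = (j / nz (l + M)) * nz (l + M) + (i - (j / nz (l + M)) * nz (l + M)) := by
          unfold cb at hbi; omega
        have hxi : i - (j / nz (l + M)) * nz (l + M) < nz (l + M) := by
          unfold cb at hbi; omega
        have h9 := h.entry_block (m := l + M) (by omega) hcj p hxi hxj
        rw [← ei, ← ej] at h9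
        rw [h9]
        exact ih _ _ _ hxi hxj
      · exact h.entry_off (by omega) hcj p hbi hbj
  funext p
  refine ent_ext fun i j => ?_
  have h1 : i < nz (l + (i + j)) := (lt_nz i).trans_le (nz_mono (by omega))
  have h2 : j < nz (l + (i + j)) := (lt_nz j).trans_le (nz_mono (by omega))
  rw [key _ p i j h1 h2]
  rfl

lemma ent_flip {l : ℕ} {T : FF} (h : Lev l T) {k s : ℕ} (hg : good k s) (i j : ℕ) (p : PT) :
    ent (T (flip k s p)) i j = sk k s i * sk k s j * ent (T p) i j := by
  have h1 : (T (flip k s p) * gg k s) (ee j) i = (gg k s * T p) (ee j) i := by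
    rw [h.eqv k s hg]
  rw [mulA, mulA, gg_ee, map_smul, lp.coeFn_smul, Pi.smul_apply, smul_eq_mul, gg_apply] at h1
  unfold ent
  have h2 := sk_mul_self k s j
  linear_combination (sk k s j) * h1 - (T (flip k s p) (ee j) i) * h2

lemma ent_loc {l : ℕ} {T : FF} (h : Lev l T) {p p' : PT} (hp : Agr l p p') (i : ℕ) {j : ℕ}
    (hj : j < nz l) : ent (T p) i j = ent (T p') i j := by
  have h1 := congrArg (fun A : BH => A (ee j) i) (h.loc p p' hp)
  simp only at h1
  rwa [mulA, mulA, PR_ee_lt hj] at h1

end Lev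

end

end Pool.Agent.Y269.RK
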