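import Pool.Agent.Y269.RK.NoRank
import Pool.Agent.Y776.RK.Fin

/-!
Concrete ambient algebra, roots, and the limit traces as quasitraces.
-/

set_option autoImplicit false

namespace Pool.Agent.Y269.RK

open scoped ENNReal NNReal BoundedContinuousFunction
open Pool.Agent.Helper133.BT Pool.Agent.Helper133.BU Filter Topology Pool.Agent.Y269.GP

noncomputable section

/-- a discrete copy of the space -/
def PTd : Type := PT

instance : TopologicalSpace PTd := ⊥

instance : DiscreteTopology PTd := ⟨rfl⟩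

/-- the ambient algebra -/
abbrev EA : Type := PTd →ᵇ BH

open Classical in
/-- the bounded operator valued functions -/
def amb : Amb EA where
  ev p :=
    { toFun := fun x => x p
      map_one' := rfl
      map_mul' := fun _ _ => rfl
      map_zero' := rfl
      map_add' := fun _ _ => rfl
      commutes' := fun _ => rfl
      map_star' := fun _ => rfl }
  inj x y h := BoundedContinuousFunction.ext h
  norm_le x C hC h := (BoundedContinuousFunction.norm_le hC).mpr h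
  of x := if h : ∃ C : ℝ, ∀ p, ‖x p‖ ≤ C then
    BoundedContinuousFunction.ofNormedAddCommGroupDiscrete (α := PTd) x h.choose h.choose_spec else 0
  ev_of x C h p := by
    have h' : ∃ C : ℝ, ∀ p, ‖x p‖ ≤ C := ⟨C, h⟩
    rw [dif_pos h']
    rfl

/-! ### roots -/

section Roots

variable {B : Type} [NonUnitalCStarAlgebra B] [PartialOrder B] [StarOrderedRing B]

lemma qs_le {a : B} (ha : 0 ≤ a) {x : ℝ≥0} (hx : x ∈ quasispectrum ℝ≥0 a) : x ≤ ‖a‖₊ := by
  have h1 := IsGreatest.nnnorm_cfcₙ_nnreal (fun x : ℝ≥0 => x) a (by fun_prop) rfl ha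
  have h2 := h1.2 ⟨x, hx, rfl⟩
  rwa [cfcₙ_id' ℝ≥0 a] at h2

lemma nnnorm_nnrpow_le {a : B} (ha : 0 ≤ a) (y : ℝ≥0) : ‖a ^ y‖₊ ≤ ‖a‖₊ ^ (y : ℝ) := by
  rw [CFC.nnrpow_def]
  refine nnnorm_cfcₙ_nnreal_le fun x hx => ?_
  exact NNReal.rpow_le_rpow (qs_le ha hx) y.2

end Roots

section Ambient

variable {E : Type} [CStarAlgebra E] (M : Amb E)

instance instPO : PartialOrder ↥(BB M) := CStarAlgebra.spectralOrder _

instance instSO : StarOrderedRing ↥(BB M) := CStarAlgebra.spectralOrderedRing _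

lemma ps_iff (x : ↥(BB M)) : 0 ≤ x ↔ Ps M x := CStarAlgebra.nonneg_iff_eq_star_mul_self

lemma root_pow {a : ↥(BB M)} (ha : 0 ≤ a) (m : ℕ) :
    ((a ^ (((m : ℝ≥0) + 1)⁻¹) : ↥(BB M)) : E) ^ (m + 1) = (a : E) := by
  set y : ℝ≥0 := ((m : ℝ≥0) + 1)⁻¹ with hy
  have hy0 : 0 < y := by positivity
  have key : ∀ k : ℕ, ((a ^ y : ↥(BB M)) : E) ^ (k + 1) =
      ((a ^ (((k : ℝ≥0) + 1) * y) : ↥(BB M)) : E) := by
    intro k
    induction k with
    | zero => simp
    | succ k ih =>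
      rw [pow_succ, ih]
      have e : (((k + 1 : ℕ) : ℝ≥0) + 1) * y = ((k : ℝ≥0) + 1) * y + y := by
        push_cast
        ring
      rw [e, CFC.nnrpow_add (by positivity) hy0]
      rfl
  rw [key m, hy, mul_inv_cancel₀ (by positivity), CFC.nnrpow_one a ha]

theorem RH_of (a : ↥(BB M)) (ha : 0 ≤ a)
    (hd : ∀ D : SD, Tendsto (fun m : ℕ => tB M D (a ^ (((m : ℝ≥0) + 1)⁻¹))) atTop
      (𝓝 (ENNReal.ofReal (trc M D (hE M)).re))) :
    RH M a (fun m : ℕ => a ^ (((m : ℝ≥0) + 1)⁻¹)) (max 1 ‖a‖) where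
  K1 := le_max_left _ _
  ps m := (ps_iff M _).mp CFC.nnrpow_nonneg
  pow m := root_pow M ha m
  nrm m := by
    have h1 := nnnorm_nnrpow_le ha (((m : ℝ≥0) + 1)⁻¹)
    have h2 : ‖a ^ (((m : ℝ≥0) + 1)⁻¹)‖ ≤ ‖a‖ ^ ((((m : ℝ≥0) + 1)⁻¹ : ℝ≥0) : ℝ) := by
      exact_mod_cast h1
    refine h2.trans ?_
    have e : ((((m : ℝ≥0) + 1)⁻¹ : ℝ≥0) : ℝ) = 1 / ((m : ℝ) + 1) := by
      push_cast
      rw [one_div]
    rw [e]
    exact Real.rpow_le_rpow (norm_nonneg _) (le_max_right _ _) (by positivity)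
  hd := hd

/-! ### the element -/

/-- the generator `u` -/
def wE : ↥(A0 M) := ⟨M.of (TC 0 u0 0 0), mem_A0 M (h0_mem M)⟩

lemma wE_toC : M.toC (wE M : E) = TC 0 u0 0 0 := toC_of M (BF.TC u0_FN 0 0)

lemma wE_sa : IsSelfAdjoint (wE M) := by
  apply Subtype.ext
  apply toC_inj M
  show M.toC (star (wE M : E)) = _
  rw [toC_star, wE_toC, TC_star u0_FN Nat.one_pos Nat.one_pos]
  congr 1
  funext p
  exact u0_conj p

lemma norm_u0_le (p : PT) : ‖u0 p‖ ≤ 1 := by
  unfold u0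
  rw [Complex.norm_real, Real.norm_eq_abs, abs_of_nonneg (p.u 0).2.1]
  exact (p.u 0).2.2

lemma norm_wE_le : ‖wE M‖ ≤ 1 :=
  norm_of_le M zero_le_one fun p => norm_TC_le u0_FN zero_le_one norm_u0_le 0 0 p

lemma norm_one_sub_wE_le : ‖1 - wE M‖ ≤ 1 := by
  have e : ((1 - wE M : ↥(A0 M)) : E) = 1 - (wE M : E) := rfl
  show ‖((1 - wE M : ↥(A0 M)) : E)‖ ≤ 1
  rw [e]
  refine M.norm_le _ 1 zero_le_one fun p => ?_
  have f1 : FN fun p => (1 : ℂ) + (-1) * u0 p := (FN.const 1).add ((FN.const (-1)).mul u0_FN)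
  have h1 : M.ev p (1 - (wE M : E)) = TC 0 (fun p => (1 : ℂ) + (-1) * u0 p) 0 0 p := by
    rw [map_sub, map_one]
    have h2 : M.ev p (wE M : E) = TC 0 u0 0 0 p := congrFun (wE_toC M) p
    rw [h2]
    refine op_ext fun f i => ?_
    show f i - TC 0 u0 0 0 p f i = _
    rw [TC_apply u0_FN, TC_apply f1]
    have e1 : sgm 0 0 i = i := by
      unfold sgm
      rw [nz_zero, Nat.div_one, one_mul, add_zero]
    rw [e1]
    unfold wt
    rw [nz_zero, Nat.mod_one, if_pos rfl, if_pos rfl]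
    ring
  rw [h1]
  refine norm_TC_le f1 zero_le_one (fun p => ?_) 0 0 p
  have e2 : (1 : ℂ) + (-1) * u0 p = ((1 - (p.u 0 : ℝ) : ℝ) : ℂ) := by
    unfold u0
    push_cast
    ring
  rw [e2, Complex.norm_real, Real.norm_eq_abs, abs_le]
  have h3 := (p.u 0).2
  constructor <;> linarith [h3.1, h3.2]

/-- positivity of `w` and `1 - w` -/
lemma pos_of_norm {R : Type} [CStarAlgebra R] {z : R} (hz : IsSelfAdjoint z) (h : ‖1 - z‖ ≤ 1) :
    ∃ c : R, z = star c * c := by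
  let _ : PartialOrder R := CStarAlgebra.spectralOrder R
  have _ : StarOrderedRing R := CStarAlgebra.spectralOrderedRing R
  rw [← CStarAlgebra.nonneg_iff_eq_star_mul_self]
  have h1 : IsSelfAdjoint (1 - z) := (IsSelfAdjoint.one R).sub hz
  have h2 := h1.le_algebraMap_norm_self
  have h3 : algebraMap ℝ R ‖1 - z‖ ≤ algebraMap ℝ R 1 := by
    exact algebraMap_mono R h
  rw [map_one] at h3
  have h4 := h2.trans h3
  simpa using h4

lemma wE_pos : ∃ c : ↥(A0 M), wE M = star c * c := pos_of_norm (wE_sa M) (norm_one_sub_wE_le M)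

lemma one_sub_wE_pos : ∃ c : ↥(A0 M), 1 - wE M = star c * c := by
  refine pos_of_norm ((IsSelfAdjoint.one _).sub (wE_sa M)) ?_
  rw [sub_sub_cancel]
  exact norm_wE_le M

lemma hE_eq : hE M = ((1 + wE M : ↥(A0 M)) : E) := rfl

end Ambient

end

end Pool.Agent.Y269.RK
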