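import Pool.Agent.Y269.RK.Rank

/-!
The rank function does not occur.
-/

set_option autoImplicit false

namespace Pool.Agent.Y269.RK

open scoped ENNReal ComplexOrder
open Pool.Agent.Helper133.BT Pool.Agent.Helper133.BU Filter Topology Pool.Agent.Y269.GP

noncomputable section

/-- the forms of an extended vector -/
lemma herm_ext {I I' : Type} [Fintype I] [Fintype I'] (ψ : I → I') (hψ : Function.Injective ψ)
    {w : I → ℂ} {w' : I' → ℂ} (h1 : ∀ k, w' (ψ k) = w k) (h0 : ∀ i ∉ Set.range ψ, w' i = 0)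
    {X : Matrix I I ℂ} {X' : Matrix I' I' ℂ} (hX : ∀ i j, X' (ψ i) (ψ j) = X i j) :
    herm X' w' w' = herm X w w := by
  unfold herm Matrix.mulVec dotProduct
  symm
  refine Fintype.sum_of_injective ψ hψ _ _ ?_ ?_
  · intro i hi
    rw [Pi.star_apply, h0 i hi, star_zero, zero_mul]
  · intro i
    rw [Pi.star_apply, Pi.star_apply, h1]
    congr 1
    refine Fintype.sum_of_injective ψ hψ _ _ ?_ ?_
    · intro j hj
      rw [h0 j hj, mul_zero]
    · intro j
      rw [h1]
      show X i j * w j = X' (ψ i) (ψ j) * w j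
      rw [hX]

lemma norm_ext {I I' : Type} [Fintype I] [Fintype I'] (ψ : I → I') (hψ : Function.Injective ψ)
    {w : I → ℂ} {w' : I' → ℂ} (h1 : ∀ k, w' (ψ k) = w k) (h0 : ∀ i ∉ Set.range ψ, w' i = 0) :
    ∑ i, ‖w' i‖ ^ 2 = ∑ i, ‖w i‖ ^ 2 := by
  symm
  refine Fintype.sum_of_injective ψ hψ _ _ ?_ ?_
  · intro i hi
    rw [h0 i hi]
    simp
  · intro i
    rw [h1]

/-- the entries in a live block -/
lemma Lev.ent_shift {l : ℕ} {T : FF} (h : Lev l T) {s t : ℕ} (hs : s < nz l) (ht : t < nz l) :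
    ∀ {B : ℕ}, nz l ∣ B → live B → ∀ p, ent (T p) (B + s) (B + t) = ent (T (RK.shift B p)) s t := by
  intro B
  induction B using Nat.strong_induction_on with
  | _ B ih =>
    intro hB hlv p
    by_cases hB0 : B = 0
    · subst hB0
      rw [zero_add, zero_add, RK.shift_zero]
    · obtain ⟨h1, h2⟩ := (live_iff hB0).mp hlv
      set m := lv B with hm
      have k1 := lv_le hB0
      have k2 := lt_lv B
      rw [← hm] at k1 k2
      have hlm : l ≤ m := by
        by_contra hcon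
        push Not at hcon
        have h3 : nz l ≤ B := Nat.le_of_dvd (Nat.pos_of_ne_zero hB0) hB
        have h4 := nz_mono (show m + 1 ≤ l from hcon)
        omega
      have hd := nz_dvd hlm
      set c := B / nz m with hc
      set r := B % nz m with hr
      have e1 : B = c * nz m + r := by rw [hc, hr, mul_comm]; exact (Nat.div_add_mod B _).symm
      have hrlt : r < nz m := Nat.mod_lt _ (nz_pos m)
      have hcl : c < kz m := div_lt_kz
      have hdr : nz l ∣ r := by rw [hr]; exact (Nat.dvd_mod_iff hd).mpr hB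
      have hrx : ∀ x, x < nz l → r + x < nz m := by
        intro x hx
        obtain ⟨a, ha⟩ := hdr
        obtain ⟨b, hb⟩ := hd
        rw [ha, hb] at hrlt ⊢
        have h5 : a < b := lt_of_mul_lt_mul_left hrlt (Nat.zero_le _)
        calc nz l * a + x < nz l * a + nz l := by omega
          _ = nz l * (a + 1) := by ring
          _ ≤ nz l * b := Nat.mul_le_mul_left _ h5
      have hrs : r < B := mod_lt_self hB0
      have e2 : ∀ x, B + x = c * nz m + (r + x) := by intro x; omega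
      rw [e2, e2, h.entry_block hlm hcl p (hrx s hs) (hrx t ht)]
      have htr : RK.tr m c p = RK.shift (c * nz m) p := by
        unfold tr
        rw [if_neg h1]
      rw [htr, ih r hrs hdr h2, shift_shift, ← e1]

section Ambient

variable {E : Type} [CStarAlgebra E] (M : Amb E)

lemma ent_emb {N : ℕ} (x : Matrix (Fin N) (Fin N) E) (p : PT) (i j u v : ℕ) :
    ent (M.ev p (emb M x)) (Nat.pair i u) (Nat.pair j v) =
      if h : i < N ∧ j < N then ent (M.toC (x ⟨i, h.1⟩ ⟨j, h.2⟩) p) u v else 0 := by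
  have h1 : M.ev p (emb M x) =
      ∑ i : Fin N, ∑ j : Fin N, Vop i * M.toC (x i j) p * star (Vop j) := by
    unfold emb
    rw [map_sum]
    refine Finset.sum_congr rfl fun i _ => ?_
    rw [map_sum]
    refine Finset.sum_congr rfl fun j _ => ?_
    have hV : ∀ k : ℕ, M.ev p (VV M k) = Vop k := fun k => congrFun (toC_VV M k) p
    rw [map_mul, map_mul, map_star, hV, hV]
    rfl
  rw [h1, ent_sum]
  by_cases h : i < N ∧ j < N
  · rw [dif_pos h, Finset.sum_eq_single ⟨i, h.1⟩]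
    · rw [ent_sum, Finset.sum_eq_single ⟨j, h.2⟩]
      · rw [ent_VV, if_pos ⟨rfl, rfl⟩]
      · intro k _ hk
        rw [ent_VV, if_neg (fun h' => hk (Fin.ext h'.2))]
      · intro h'
        exact absurd (Finset.mem_univ _) h'
    · intro k _ hk
      rw [ent_sum]
      refine Finset.sum_eq_zero fun k' _ => ?_
      rw [ent_VV, if_neg (fun h' => hk (Fin.ext h'.1))]
    · intro h'
      exact absurd (Finset.mem_univ _) h'
  · rw [dif_neg h]
    refine Finset.sum_eq_zero fun k _ => ?_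
    rw [ent_sum]
    refine Finset.sum_eq_zero fun k' _ => ?_
    rw [ent_VV, if_neg]
    rintro ⟨h2, h3⟩
    exact h ⟨h2 ▸ k.2, h3 ▸ k'.2⟩

/-- positivity on a block where the coordinates are those of `pc 1` -/
lemma block_pos {N1 l N : ℕ} {x : Matrix (Fin N1) (Fin N1) E} (hx : ML M l x) {η : ℝ}
    {G : Submodule ℂ HH} (hG : PosOn (M.ev (pc 1) (emb M x)) η G) {L c : ℕ} (hlL : l ≤ L)
    (hc : c ∈ JJ l L) {p : PT} (hp1 : ∀ i < nz l, (p.u (c * nz l + i) : ℝ) = 1)
    (hp2 : ∀ l' < l, ∀ s < nz l, p.y l' (c * nz l + s) = yb l')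
    {w : Fin N × Fin (nz l) → ℂ} (hw : w ∈ G.comap (Jm N l)) :
    η * ∑ i, ‖wsh l L c w i‖ ^ 2 ≤ (herm (cmp N L (M.ev p (emb M x))) (wsh l L c w)
      (wsh l L c w)).re := by
  classical
  have hc' : c ∈ Finset.range (nz L / nz l) ∧ live (c * nz l) := by
    unfold JJ at hc
    exact Finset.mem_filter.mp hc
  obtain ⟨hc1, hc2⟩ := hc'
  have hc3 : c * nz l + nz l ≤ nz L := by
    have h1 := Finset.mem_range.mp hc1
    obtain ⟨e, he⟩ := nz_dvd hlL
    rw [he, Nat.mul_div_cancel_left _ (nz_pos l)] at h1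
    rw [he]
    calc c * nz l + nz l = nz l * (c + 1) := by ring
      _ ≤ nz l * e := Nat.mul_le_mul_left _ h1
  let ψ : Fin N × Fin (nz l) → Fin N × Fin (nz L) := fun k => (k.1, ⟨c * nz l + k.2, by omega⟩)
  have hψ : Function.Injective ψ := by
    intro k k' hk
    have h1 := congrArg Prod.fst hk
    have h2 := congrArg (fun z : Fin N × Fin (nz L) => (z.2 : ℕ)) hk
    simp only [ψ] at h1 h2
    exact Prod.ext h1 (Fin.ext (by omega))
  have h1 : ∀ k, wsh l L c w (ψ k) = w k := by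
    intro k
    unfold wsh
    have h2 : c * nz l ≤ ((ψ k).2 : ℕ) ∧ ((ψ k).2 : ℕ) < c * nz l + nz l := by
      show c * nz l ≤ c * nz l + k.2 ∧ c * nz l + k.2 < c * nz l + nz l
      omega
    rw [dif_pos h2]
    congr 1
    refine Prod.ext rfl (Fin.ext ?_)
    show c * nz l + (k.2 : ℕ) - c * nz l = k.2
    omega
  have h0 : ∀ i ∉ Set.range ψ, wsh l L c w i = 0 := by
    intro i hi
    unfold wsh
    rw [dif_neg]
    intro h2
    apply hi
    refine ⟨(i.1, ⟨(i.2 : ℕ) - c * nz l, by omega⟩), ?_⟩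
    refine Prod.ext rfl (Fin.ext ?_)
    show c * nz l + ((i.2 : ℕ) - c * nz l) = i.2
    omega
  have hX : ∀ i j, cmp N L (M.ev p (emb M x)) (ψ i) (ψ j) =
      cmp N l (M.ev (pc 1) (emb M x)) i j := by
    intro i j
    show ent (M.ev p (emb M x)) (Nat.pair i.1 (c * nz l + i.2)) (Nat.pair j.1 (c * nz l + j.2)) =
      ent (M.ev (pc 1) (emb M x)) (Nat.pair i.1 i.2) (Nat.pair j.1 j.2)
    rw [ent_emb, ent_emb]
    by_cases h : (i.1 : ℕ) < N1 ∧ (j.1 : ℕ) < N1
    · rw [dif_pos h, dif_pos h]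
      have hT := hx ⟨i.1, h.1⟩ ⟨j.1, h.2⟩
      rw [hT.ent_shift i.2.2 j.2.2 (Dvd.intro_left _ rfl) hc2 p]
      refine hT.ent_loc ?_ _ j.2.2
      refine ⟨fun i hi => ?_, fun l' hl' s hs => ?_⟩
      · apply Subtype.ext
        exact hp1 i hi
      · exact hp2 l' hl' s hs
    · rw [dif_neg h, dif_neg h]
  rw [herm_ext ψ hψ h1 h0 hX, norm_ext ψ hψ h1 h0]
  exact posOn_comap hG w hw

lemma wsh_add {N : ℕ} (l L c : ℕ) (w w' : Fin N × Fin (nz l) → ℂ) :
    wsh l L c (w + w') = wsh l L c w + wsh l L c w' := by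
  funext i
  unfold wsh
  rw [Pi.add_apply]
  split_ifs
  · rfl
  · simp

lemma wsh_smul {N : ℕ} (l L c : ℕ) (r : ℂ) (w : Fin N × Fin (nz l) → ℂ) :
    wsh l L c (r • w) = r • wsh l L c w := by
  funext i
  unfold wsh
  rw [Pi.smul_apply]
  split_ifs
  · rfl
  · simp

/-- the shift of vectors as a linear map -/
def wshL (N l L c : ℕ) : (Fin N × Fin (nz l) → ℂ) →ₗ[ℂ] (Fin N × Fin (nz L) → ℂ) where
  toFun := wsh l L c
  map_add' := wsh_add l L c
  map_smul' := wsh_smul l L c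

lemma hh_pc1 (l : ℕ) : ∑ i ∈ Finset.range (nz l), hh i (pc 1) = HH0 l + al l := by
  classical
  have h1 : ∀ i, hh i (pc 1) = (if live i then 1 else hh i (pc 0)) + (if live i then 1 else 0) := by
    intro i
    by_cases h : live i
    · rw [if_pos h, if_pos h]
      unfold hh
      rw [DD_live h]
      show 1 + ((1 : Set.Icc (0 : ℝ) 1) : ℝ) = 1 + 1
      norm_num
    · rw [if_neg h, if_neg h, add_zero]
      unfold hh
      rw [DD_dead h (pc 1) (pc 0)]
  rw [Finset.sum_congr rfl fun i _ => h1 i, Finset.sum_add_distrib]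
  unfold HH0 al
  congr 1
  rw [Finset.sum_ite]
  simp

theorem no_rank (hasm : S_ASM) (hub : S_UBMAT) (hlb : S_LBMAT) (hcnt : S_CNT) {M : Amb E}
    {a : ↥(BB M)} {b : ℕ → ↥(BB M)} {K : ℝ} (h : RH M a b K) : False := by
  have hPa : Ps M a := by
    have h1 := h.pow 0
    rw [zero_add, pow_one] at h1
    have h2 : b 0 = a := Subtype.ext h1
    rw [← h2]
    exact h.ps 0
  -- approximations
  have hpos : ∀ n : ℕ, (0 : ℝ) < (1 / ((n : ℝ) + 2)) ^ 2 := fun n => by positivity
  choose N hN lv' y hy hyA hyc using fun n : ℕ => approx M hPa (hpos n) n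
  set x : ∀ n, Matrix (Fin (N n)) (Fin (N n)) E := fun n => star (y n) * y n with hxdef
  have hMx : ∀ n, ML M (lv' n) (x n) := fun n => ML.mul M (ML.star M (hy n)) (hy n)
  have hη : Tendsto (fun n : ℕ => 1 / ((n : ℝ) + 2)) atTop (𝓝 0) := by
    have h1 : Tendsto (fun n : ℕ => ((n : ℝ) + 2)) atTop atTop :=
      tendsto_atTop_add_const_right _ _ tendsto_natCast_atTop_atTop
    refine h1.inv_tendsto_atTop.congr fun n => ?_
    rw [Pi.inv_apply, one_div]
  have hδ : Tendsto (fun n : ℕ => (1 / ((n : ℝ) + 2)) ^ 2) atTop (𝓝 0) := by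
    have := hη.pow 2
    simpa using this
  have hLB := fun {ε : ℝ} (hε : 0 < ε) => LB hlb h N x (fun n => (1 / ((n : ℝ) + 2)) ^ 2)
    (fun n => 1 / ((n : ℝ) + 2)) hN hyc hδ hη hε
  -- the first approximation
  obtain ⟨n1, hn1⟩ := hLB (show (0 : ℝ) < 1 / 100 by norm_num)
  obtain ⟨L1, hL1⟩ := hn1 n1 le_rfl
  set l : ℕ := max L1 (max (lv' n1) 1) with hl
  have hlL1 : L1 ≤ l := le_max_left _ _
  have hlv : lv' n1 ≤ l := (le_max_left _ _).trans (le_max_right _ _)
  have hl1 : 1 ≤ l := (le_max_right _ _).trans (le_max_right _ _)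
  obtain ⟨G, hG1, hG2, hG3⟩ := hL1 l hlL1 (pc 1)
  rw [hh_pc1] at hG3
  obtain ⟨-, -, c3, c4, c5, -⟩ := hcnt
  have hnzl : (65 : ℝ) ≤ nz l := by
    have h1 : nz 1 ≤ nz l := nz_mono hl1
    have h2 : 65 ≤ nz 1 := by
      rw [nz_succ, nz_zero, mul_one]
      exact kz_ge 0
    exact_mod_cast h2.trans h1
  have hH0 : (0 : ℝ) ≤ HH0 l := (Nat.cast_nonneg _).trans (c5 l).1
  set Mn : ℕ := ⌊HH0 l + 1 / 2⌋₊ + 1 with hMn
  have hM1 : HH0 l + 1 / 2 < Mn := by
    rw [hMn]
    push_cast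
    exact Nat.lt_floor_add_one _
  have hM2 : (Mn : ℝ) ≤ HH0 l + 3 / 2 := by
    rw [hMn]
    push_cast
    have := Nat.floor_le (show 0 ≤ HH0 l + 1 / 2 by linarith)
    linarith
  have hMG : Mn ≤ Module.finrank ℂ G := by
    have h1 := c3 l
    have h2 : (Mn : ℝ) ≤ Module.finrank ℂ G := by linarith
    exact_mod_cast h2
  -- the second approximation
  have hnz0 : (0 : ℝ) < nz l := by linarith
  set ε : ℝ := 1 / (128 * (nz l : ℝ) ^ 2) with hε
  have hε0 : 0 < ε := by positivity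
  obtain ⟨n2', hn2'⟩ := hLB hε0
  set n2 : ℕ := max n2' (max (N n1) (4 * (n1 + 2))) with hn2
  have hn2a : n2' ≤ n2 := le_max_left _ _
  have hn2b : N n1 ≤ n2 := (le_max_left _ _).trans (le_max_right _ _)
  have hn2c : 4 * (n1 + 2) ≤ n2 := (le_max_right _ _).trans (le_max_right _ _)
  obtain ⟨L2, hL2⟩ := hn2' n2 hn2a
  have hNN : N n1 ≤ N n2 := hn2b.trans (hN n2)
  have hδη : (1 / ((n2 : ℝ) + 2)) ^ 2 < 1 / ((n2 : ℝ) + 2) := by
    have h1 : (0 : ℝ) < 1 / ((n2 : ℝ) + 2) := by positivity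
    have h2 : 1 / ((n2 : ℝ) + 2) < 1 := by
      rw [div_lt_one (by positivity)]
      have : (0 : ℝ) ≤ n2 := Nat.cast_nonneg _
      linarith
    nlinarith
  set η' : ℝ := 1 / ((n2 : ℝ) + 2) with hη'
  set δ' : ℝ := (1 / ((n2 : ℝ) + 2)) ^ 2 with hδ'
  obtain ⟨L3, hL3⟩ := UB hub h (hyc n2) (show δ' < (δ' + η') / 2 by linarith) hε0
  -- the vectors
  set F : Submodule ℂ (Fin (N n2) × Fin (nz l) → ℂ) := G.comap (Jm (N n2) l) with hF
  have hFr : Mn ≤ Module.finrank ℂ F := by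
    rw [hF, finrank_comap_Jm (hG1.trans (WN_mono hNN))]
    exact hMG
  let w : Fin Mn → Fin (N n2) × Fin (nz l) → ℂ := fun i =>
    (Module.finBasis ℂ F (Fin.castLE hFr i) : Fin (N n2) × Fin (nz l) → ℂ)
  have hw : LinearIndependent ℂ w := by
    have h1 := (Module.finBasis ℂ F).linearIndependent.comp (Fin.castLE hFr)
      (Fin.castLE_injective hFr)
    exact h1.map' F.subtype (Submodule.ker_subtype F)
  have hwF : ∀ i, w i ∈ F := fun i => (Module.finBasis ℂ F (Fin.castLE hFr i)).2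
  -- the gap
  have hgap : η' ≤ 1 / ((n1 : ℝ) + 2) - ((1 / ((n1 : ℝ) + 2)) ^ 2 + δ') := by
    have h1 : (4 : ℝ) * (n1 + 2) ≤ n2 := by exact_mod_cast hn2c
    have h2 : (0 : ℝ) ≤ n1 := Nat.cast_nonneg _
    set t : ℝ := 1 / ((n1 : ℝ) + 2) with ht
    have ht0 : 0 < t := by positivity
    have ht1 : t ≤ 1 / 2 := by
      rw [ht]
      exact one_div_le_one_div_of_le (by norm_num) (by linarith)
    have ht2 : η' ≤ t / 4 := by
      rw [hη', ht, div_div]
      exact one_div_le_one_div_of_le (by positivity) (by linarith)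
    have ht3 : δ' ≤ t / 4 := hδη.le.trans ht2
    nlinarith
  refine hasm (N n2) (lv' n2) l (max (max L2 L3) l) Mn (fun i j => M.toC (x n2 i j)) w
    ((δ' + η') / 2) η' ε (fun i j => hMx n2 i j) (fun L p => XE_isHermitian M L (y n2) p) hl1 hM1
    hM2 hw (by linarith) hε0 le_rfl ?_ ?_ ?_
  · intro L hL c hc p hp1 hp2 v hv
    have hlL : l ≤ L := (le_max_right _ _).trans hL
    have h1 : ∃ w0 ∈ F, v = wsh l L c w0 := by
      have h2 : Submodule.span ℂ (Set.range fun a => wsh l L c (w a)) ≤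
          F.map (wshL (N n2) l L c) := by
        rw [Submodule.span_le]
        rintro _ ⟨i, rfl⟩
        exact ⟨w i, hwF i, rfl⟩
      obtain ⟨w0, hw0, h3⟩ := h2 hv
      exact ⟨w0, hw0, h3.symm⟩
    obtain ⟨w0, hw0, rfl⟩ := h1
    have h4 := block_pos M ((hMx n1).mono M hlv) hG2 hlL hc hp1 hp2 hw0
    have h5 : (herm (XM (N n2) L (fun i j => M.toC (x n2 i j)) p) (wsh l L c w0)
        (wsh l L c w0)) = herm (cmp (N n2) L (M.ev p (emb M (x n2)))) (wsh l L c w0)
        (wsh l L c w0) := by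
      rw [← XE_eq_cmp]
      rfl
    rw [h5, herm_cmp, ← norm_Jm]
    rw [herm_cmp, ← norm_Jm] at h4
    have h6 : PosOn (M.ev p (emb M (x n1))) (1 / ((n1 : ℝ) + 2))
        (Submodule.span ℂ {Jm (N n2) L (wsh l L c w0)}) := by
      intro z hz
      obtain ⟨r, rfl⟩ := Submodule.mem_span_singleton.mp hz
      rw [map_smul, inner_smul_left, inner_smul_right, norm_smul, mul_pow, ← mul_assoc,
        ← mul_assoc, mul_comm ((starRingEnd ℂ) r), Complex.mul_conj, Complex.re_ofReal_mul,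
        Complex.normSq_eq_norm_sq]
      have := mul_le_mul_of_nonneg_left h4 (sq_nonneg ‖r‖)
      linarith
    have h7 : ‖emb M (x n1) - emb M (x n2)‖ ≤ (1 / ((n1 : ℝ) + 2)) ^ 2 + δ' := by
      have e : emb M (x n1) - emb M (x n2) = (emb M (x n1) - a) - (emb M (x n2) - a) := by abel
      rw [e]
      exact (norm_sub_le _ _).trans (add_le_add (hyc n1) (hyc n2))
    exact (h6.mono ((ev_sub_le M _ _ p).trans h7) hgap) _ (Submodule.mem_span_singleton_self _)
  · intro L hL p F' hF'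
    have h1 : PosOn (M.ev p (emb M (x n2))) ((δ' + η') / 2) (F'.map (Jm (N n2) L)) := by
      apply posOn_map
      intro v hv
      rw [← XE_eq_cmp]
      exact hF' v hv
    have h2 := hL3 L ((le_max_right _ _).trans ((le_max_left _ _).trans hL)) p _ (map_Jm_le F') h1
    rwa [finrank_map_Jm] at h2
  · intro L hL p
    obtain ⟨G', hG'1, hG'2, hG'3⟩ := hL2 L ((le_max_left _ _).trans ((le_max_left _ _).trans hL)) p
    refine ⟨G'.comap (Jm (N n2) L), ?_, ?_⟩
    · rw [finrank_comap_Jm hG'1]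
      exact hG'3
    · intro v hv
      have h1 := posOn_comap (N := N n2) (L := L) hG'2 v hv
      rw [← XE_eq_cmp] at h1
      exact h1

end Ambient

end

end Pool.Agent.Y269.RK
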