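import Pool.Agent.Y269.RK.TC

/-!
Functions with the parity of a basis vector.
-/

set_option autoImplicit false

namespace Pool.Agent.Y269.RK

open scoped ENNReal
open Pool.Agent.Helper133.BT Pool.Agent.Helper133.BU Filter Topology Pool.Agent.Y269.GP

noncomputable section

/-- normalised coordinates of a vector -/
def nco (n : ℕ) (b : Fin (n + 1)) (v : Fin (n + 1) → ℝ) : ℝ := v b / √(∑ c, (v c) ^ 2)

lemma K_sq_pos {n : ℕ} {v : Fin (n + 1) → ℝ} (hv : v ∈ K n) : 0 < ∑ c, (v c) ^ 2 := by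
  have h1 : ∑ b, |v b| = 1 := hv
  have h2 : ∃ b, v b ≠ 0 := by
    by_contra hcon
    push Not at hcon
    simp [hcon] at h1
  obtain ⟨b, hb⟩ := h2
  exact Finset.sum_pos' (fun b _ => sq_nonneg _) ⟨b, Finset.mem_univ b, by positivity⟩

lemma nco_contDiffAt {n : ℕ} (b : Fin (n + 1)) {v : Fin (n + 1) → ℝ}
    (hv : ∑ c, (v c) ^ 2 ≠ 0) : ContDiffAt ℝ 1 (nco n b) v := by
  unfold nco
  have h1 : ContDiff ℝ 1 fun v : Fin (n + 1) → ℝ => ∑ c, (v c) ^ 2 := by fun_prop
  refine ContDiffAt.div (by fun_prop) (h1.contDiffAt.sqrt hv) ?_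
  intro h
  rw [Real.sqrt_eq_zero (Finset.sum_nonneg fun c _ => sq_nonneg _)] at h
  exact hv h

lemma nco_sum {n : ℕ} {v : Fin (n + 1) → ℝ} (hv : v ∈ K n) : ∑ b, (nco n b v) ^ 2 = 1 := by
  have h := K_sq_pos hv
  have : ∀ a, (nco n a v) ^ 2 = (v a) ^ 2 / ∑ c, (v c) ^ 2 := by
    intro a
    rw [nco, div_pow, Real.sq_sqrt h.le]
  simp_rw [this]
  rw [← Finset.sum_div]
  exact div_self h.ne'

lemma nco_neg {n : ℕ} (b : Fin (n + 1)) (v : Fin (n + 1) → ℝ) : nco n b (-v) = -nco n b v := by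
  unfold nco
  simp [neg_div]

/-- normalised coordinates of a sphere -/
def co (l s b : ℕ) (p : PT) : ℂ :=
  if h : b < dd l + 1 then ((nco (dd l) ⟨b, h⟩ (p.y l s) : ℝ) : ℂ) else 0

lemma co_FN (l s b : ℕ) : FN (co l s b) := by
  by_cases h : b < dd l + 1
  · have e : co l s b = fun p => ((nco (dd l) ⟨b, h⟩ (p.y l s) : ℝ) : ℂ) := by
      funext p
      unfold co
      rw [dif_pos h]
    rw [e]
    refine ⟨?_, ?_⟩
    · refine Complex.continuous_ofReal.comp ?_
      refine continuous_iff_continuousAt.mpr fun p => ?_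
      have h1 := (nco_contDiffAt ⟨b, h⟩ (K_sq_pos (p.y l s).2).ne').continuousAt
      have h2 : ContinuousAt (fun p : PT => (p.y l s : Fin (dd l + 1) → ℝ)) p :=
        (continuous_subtype_val.comp (PT.cont_y l s)).continuousAt
      exact ContinuousAt.comp (f := fun p : PT => (p.y l s : Fin (dd l + 1) → ℝ)) h1 h2
    · intro X _ Ω π h1 h2
      refine ll_clm Complex.ofRealCLM (f := fun x => nco (dd l) ⟨b, h⟩ ((π x).y l s)) ?_
      exact ll_contDiff (g := nco (dd l) ⟨b, h⟩) (h2 l s)
        fun x _ => nco_contDiffAt ⟨b, h⟩ (K_sq_pos ((π x).y l s).2).ne'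
  · have e : co l s b = fun _ => 0 := by
      funext p
      unfold co
      rw [dif_neg h]
    rw [e]
    exact FN.const 0

open Classical in
/-- the factors -/
def fac (l s b : ℕ) (p : PT) : ℂ := if good l s then co l s b p else if b = 0 then 1 else 0

lemma fac_FN (l s b : ℕ) : FN (fac l s b) := by
  by_cases h : good l s
  · have e : fac l s b = co l s b := by
      funext p
      unfold fac
      rw [if_pos h]
    rw [e]
    exact co_FN l s b
  · have e : fac l s b = fun _ => if b = 0 then 1 else 0 := by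
      funext p
      unfold fac
      rw [if_neg h]
    rw [e]
    exact FN.const _

lemma co_conj (l s b : ℕ) (p : PT) : (starRingEnd ℂ) (co l s b p) = co l s b p := by
  unfold co
  split_ifs
  · exact Complex.conj_ofReal _
  · simp

lemma fac_conj (l s b : ℕ) (p : PT) : (starRingEnd ℂ) (fac l s b p) = fac l s b p := by
  unfold fac
  split_ifs
  · exact co_conj l s b p
  · simp
  · simp

lemma fac_flip_self {l s : ℕ} (hg : good l s) (b : ℕ) (p : PT) :
    fac l s b (flip l s p) = -fac l s b p := by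
  unfold fac
  rw [if_pos hg, if_pos hg]
  unfold co
  split_ifs
  · rw [flip_y_self, nco_neg]
    push_cast
    ring
  · simp

lemma fac_flip_ne {l s l' s' : ℕ} (h : ¬ (l' = l ∧ s' = s)) (b : ℕ) (p : PT) :
    fac l' s' b (flip l s p) = fac l' s' b p := by
  unfold fac co
  rw [flip_y_ne p h]

lemma fac_sum (l s : ℕ) (p : PT) : ∑ b ∈ Finset.range (dd l + 1), fac l s b p * fac l s b p = 1 := by
  unfold fac
  by_cases h : good l s
  · simp only [if_pos h]
    rw [Finset.sum_range]
    have h1 : ∀ c : Fin (dd l + 1), co l s c p * co l s c p =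
        ((nco (dd l) c (p.y l s) ^ 2 : ℝ) : ℂ) := by
      intro c
      unfold co
      rw [dif_pos c.2]
      push_cast
      ring
    rw [Finset.sum_congr rfl fun c _ => h1 c, ← Complex.ofReal_sum, nco_sum (p.y l s).2]
    simp
  · simp only [if_neg h]
    rw [Finset.sum_eq_single 0]
    · simp
    · intro b _ hb
      simp [hb]
    · intro h
      exact absurd (Finset.mem_range.mpr (Nat.succ_pos _)) h

/-- functions with the parity of a basis vector -/
def psi (L a : ℕ) (r : Fin L → ℕ) (p : PT) : ℂ := ∏ l : Fin L, fac l (nz l * (a / nz l)) (r l) p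

lemma psi_FN (L a : ℕ) (r : Fin L → ℕ) : FN (psi L a r) := FN.prod _ fun l _ => fac_FN _ _ _

lemma psi_conj (L a : ℕ) (r : Fin L → ℕ) (p : PT) :
    (starRingEnd ℂ) (psi L a r p) = psi L a r p := by
  unfold psi
  rw [map_prod]
  exact Finset.prod_congr rfl fun l _ => fac_conj _ _ _ _

lemma fac_loc {L l s : ℕ} (hl : l < L) (hs : s < nz L) (b : ℕ) {p p' : PT} (h : Agr L p p') :
    fac l s b p = fac l s b p' := by
  unfold fac co
  rw [h.2 l hl s hs]

lemma psi_loc {L a : ℕ} (ha : a < nz L) (r : Fin L → ℕ) : Loc L (psi L a r) := by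
  intro p p' h
  unfold psi
  refine Finset.prod_congr rfl fun l _ => fac_loc l.2 ?_ _ h
  exact (Nat.mul_div_le a (nz l)).trans_lt ha

lemma inb_iff {l s a : ℕ} (hs : nz l ∣ s) : inb l s a ↔ nz l * (a / nz l) = s := by
  obtain ⟨c, rfl⟩ := hs
  unfold inb
  have h0 := nz_pos l
  have e1 : nz l * c ≤ a ↔ c ≤ a / nz l := by rw [Nat.le_div_iff_mul_le h0, mul_comm]
  have e2 : a < nz l * c + nz l ↔ a / nz l < c + 1 := by
    rw [Nat.div_lt_iff_lt_mul h0, add_mul, one_mul, mul_comm c]
  rw [e1, e2]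
  constructor
  · rintro ⟨h1, h2⟩
    congr 1
    omega
  · intro h
    have := Nat.eq_of_mul_eq_mul_left h0 h
    omega

lemma psi_flip {L a : ℕ} (ha : a < nz L) (r : Fin L → ℕ) {l s : ℕ} (hg : good l s) (p : PT) :
    psi L a r (flip l s p) = sk l s a * psi L a r p := by
  unfold psi
  by_cases hb : inb l s a
  · have e1 : sk l s a = -1 := by unfold sk; rw [if_pos hb]
    have e2 := (inb_iff hg.1).mp hb
    have hl : l < L := by
      by_contra hcon
      push Not at hcon
      -- then the block number is zero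
      have h1 : a / nz l = 0 := Nat.div_eq_of_lt (ha.trans_le (nz_mono hcon))
      rw [h1, mul_zero] at e2
      obtain ⟨_, _, h3⟩ := hg
      rw [← e2] at h3
      simp at h3
    rw [e1, ← Finset.mul_prod_erase _ _ (Finset.mem_univ (⟨l, hl⟩ : Fin L)),
      ← Finset.mul_prod_erase _ (fun l' : Fin L => fac l' (nz l' * (a / nz l')) (r l') p)
        (Finset.mem_univ (⟨l, hl⟩ : Fin L))]
    have e3 : fac l (nz l * (a / nz l)) (r ⟨l, hl⟩) (flip l s p) =
        -fac l (nz l * (a / nz l)) (r ⟨l, hl⟩) p := by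
      rw [e2]
      exact fac_flip_self hg _ _
    have e4 : ∏ x ∈ Finset.univ.erase (⟨l, hl⟩ : Fin L),
        fac x (nz x * (a / nz x)) (r x) (flip l s p) =
        ∏ x ∈ Finset.univ.erase (⟨l, hl⟩ : Fin L), fac x (nz x * (a / nz x)) (r x) p := by
      refine Finset.prod_congr rfl fun x hx => fac_flip_ne ?_ _ _
      rintro ⟨h, -⟩
      exact (Finset.mem_erase.mp hx).1 (Fin.ext h)
    rw [e4]
    show fac l (nz l * (a / nz l)) (r ⟨l, hl⟩) (flip l s p) * _ =
      -1 * (fac l (nz l * (a / nz l)) (r ⟨l, hl⟩) p * _)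
    rw [e3]
    ring
  · have e1 : sk l s a = 1 := by unfold sk; rw [if_neg hb]
    rw [e1, one_mul]
    refine Finset.prod_congr rfl fun x _ => fac_flip_ne ?_ _ _
    rintro ⟨h, h'⟩
    rw [inb_iff hg.1] at hb
    rw [h] at h'
    exact hb h'

lemma psi_sum (L a : ℕ) (p : PT) :
    ∑ r ∈ Fintype.piFinset (fun l : Fin L => Finset.range (dd l + 1)),
      psi L a r p * psi L a r p = 1 := by
  have h1 : ∀ r : Fin L → ℕ, psi L a r p * psi L a r p =
      ∏ l : Fin L, (fac l (nz l * (a / nz l)) (r l) p * fac l (nz l * (a / nz l)) (r l) p) := by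
    intro r
    unfold psi
    rw [Finset.prod_mul_distrib]
  simp only [h1]
  rw [← Finset.prod_univ_sum (fun l : Fin L => Finset.range (dd l + 1))
    (fun l b => fac l (nz l * (a / nz l)) b p * fac l (nz l * (a / nz l)) b p)]
  exact Finset.prod_eq_one fun l _ => fac_sum _ _ _

lemma psi_one {L a : ℕ} (h : ∀ l < L, ¬ good l (nz l * (a / nz l))) (p : PT) :
    psi L a (fun _ => 0) p = 1 := by
  unfold psi
  refine Finset.prod_eq_one fun l _ => ?_
  unfold fac
  rw [if_neg (h l l.2), if_pos rfl]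

lemma psi_zero_one (L : ℕ) (p : PT) : psi L 0 (fun _ => 0) p = 1 := by
  refine psi_one (fun l _ h => ?_) p
  obtain ⟨_, _, h3⟩ := h
  simp at h3

lemma psi_last_one {m i : ℕ} (hi : i < nz m) (p : PT) :
    psi (m + 1) ((kz m - 1) * nz m + i) (fun _ => 0) p = 1 := by
  refine psi_one (fun l hl h => ?_) p
  obtain ⟨_, h2, _⟩ := h
  have hlm : l ≤ m := by omega
  have hd : nz l ∣ (kz m - 1) * nz m := (nz_dvd hlm).mul_left _
  have e : nz l * (((kz m - 1) * nz m + i) / nz l) = (kz m - 1) * nz m + nz l * (i / nz l) := by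
    have := sgm_add (b := 0) hd i
    unfold sgm at this
    simpa using this
  have h4 : nz l * (i / nz l) < nz m := (Nat.mul_div_le i (nz l)).trans_lt hi
  have := kz_ge m
  rw [e, live_block (by omega) h4] at h2
  exact h2.1 rfl

lemma psi_par {L a b : ℕ} (ha : a < nz L) (hb : b < nz L) (r r' : Fin L → ℕ) :
    Par2 a b (fun p => psi L a r p * psi L b r' p) := by
  intro l s hg p
  show psi L a r (flip l s p) * psi L b r' (flip l s p) = _
  rw [psi_flip ha r hg, psi_flip hb r' hg]
  ring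

lemma norm_fac_le (l s b : ℕ) (p : PT) : ‖fac l s b p‖ ≤ 1 := by
  unfold fac co
  split_ifs with h1 h2 h3
  · rw [Complex.norm_real, Real.norm_eq_abs]
    refine abs_le_one_iff_mul_self_le_one.mpr ?_
    rw [← nco_sum (p.y l s).2, ← sq]
    exact Finset.single_le_sum (f := fun b => nco (dd l) b (p.y l s) ^ 2)
      (fun _ _ => sq_nonneg _) (Finset.mem_univ _)
  · simp
  · simp
  · simp

/-- the function of the element whose rank does not occur -/
def u0 (p : PT) : ℂ := ((p.u 0 : ℝ) : ℂ)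

lemma u0_FN : FN u0 := by
  refine ⟨Complex.continuous_ofReal.comp (continuous_subtype_val.comp (PT.cont_u 0)), ?_⟩
  intro X _ Ω π h1 h2
  exact ll_clm Complex.ofRealCLM (f := fun x => ((π x).u 0 : ℝ)) (h1 0)

lemma u0_conj (p : PT) : (starRingEnd ℂ) (u0 p) = u0 p := Complex.conj_ofReal _

lemma u0_loc : Loc 0 u0 := by
  intro p p' h
  unfold u0
  rw [h.1 0 (by rw [nz_zero]; exact Nat.one_pos)]

lemma u0_par : Par2 0 0 u0 := by
  intro l s hg p
  rw [sk_mul_self, one_mul]
  rfl

end

end Pool.Agent.Y269.RK
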