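import Pool.Agent.Y269.RK.Cor

/-!
Estimates for the ranks of the approximations.
-/

set_option autoImplicit false

namespace Pool.Agent.Y269.RK

open scoped ENNReal ComplexOrder
open Pool.Agent.Helper133.BT Pool.Agent.Helper133.BU Filter Topology Pool.Agent.Y269.GP

noncomputable section

lemma sum_pr_le {N L : ℕ} (u : HH) (s : Finset (Fin N × Fin (nz L))) :
    ∑ i ∈ s, ‖u (pr i)‖ ^ 2 ≤ ‖u‖ ^ 2 := by
  classical
  have e2 : (2 : ℝ≥0∞).toReal = (2 : ℕ) := by norm_num
  have h1 : ∑ i ∈ s, ‖u (pr i)‖ ^ 2 = ∑ n ∈ s.image pr, ‖u n‖ ^ 2 := by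
    rw [Finset.sum_image]
    intro i _ j _ h
    exact pr_inj h
  have h4 := lp.sum_rpow_le_norm_rpow two_pos' u (s.image pr)
  rw [e2] at h4
  simp only [Real.rpow_natCast] at h4
  rw [h1]
  exact h4

lemma avg_re (L : ℕ) (A : BH) :
    (nz L : ℝ) * (avg L A).re = ∑ s ∈ Finset.range (nz L), (ent A s s).re := by
  have h0 : (nz L : ℝ) ≠ 0 := Nat.cast_ne_zero.mpr (nz_pos L).ne'
  unfold avg
  have h1 : ((nz L : ℂ)⁻¹ * ∑ s ∈ Finset.range (nz L), ent A s s).re =
      (nz L : ℝ)⁻¹ * ∑ s ∈ Finset.range (nz L), (ent A s s).re := by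
    rw [← Complex.re_sum, show (nz L : ℂ)⁻¹ = (((nz L : ℝ)⁻¹ : ℝ) : ℂ) by push_cast; rfl,
      Complex.re_ofReal_mul]
  rw [h1, ← mul_assoc, mul_inv_cancel₀ h0, one_mul]

/-- the index set of the first coordinates -/
def Qs (N L M0 : ℕ) : Finset (Fin N × Fin (nz L)) := Finset.univ.filter fun i => (i.1 : ℕ) < M0

lemma sum_Qs {N L M0 : ℕ} (h : M0 ≤ N) (f : ℕ → Fin (nz L) → ℝ) :
    ∑ i ∈ Qs N L M0, f i.1 i.2 = ∑ i ∈ Finset.range M0, ∑ s, f i s := by
  unfold Qs
  rw [Finset.sum_filter, Fintype.sum_prod_type]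
  have h1 : ∀ i : Fin N, (∑ s : Fin (nz L), if (i : ℕ) < M0 then f i s else 0) =
      (fun i : ℕ => if i < M0 then ∑ s : Fin (nz L), f i s else 0) i := by
    intro i
    simp only
    split_ifs
    · rfl
    · simp
  rw [Finset.sum_congr rfl fun i _ => h1 i, ← Finset.sum_range
    (fun i : ℕ => if i < M0 then ∑ s : Fin (nz L), f i s else 0), ← Finset.sum_filter]
  congr 1
  ext i
  simp only [Finset.mem_filter, Finset.mem_range]
  omega

lemma card_Qs {N L M0 : ℕ} (h : M0 ≤ N) : ((Qs N L M0).card : ℝ) = M0 * nz L := by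
  have h1 := sum_Qs (L := L) h (fun _ _ => 1)
  simpa using h1

section Ambient

variable {E : Type} [CStarAlgebra E] (M : Amb E)

/-- the element whose rank function does not occur -/
def hE : E := 1 + M.of (TC 0 u0 0 0)

lemma avg_hE (L : ℕ) (p : PT) :
    (nz L : ℝ) * (avg L (M.ev p (hE M))).re = ∑ i ∈ Finset.range (nz L), hh i p := by
  rw [avg_re]
  refine Finset.sum_congr rfl fun s _ => ?_
  have h1 : M.ev p (hE M) = 1 + TC 0 u0 0 0 p := by
    unfold hE
    rw [map_add, map_one]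
    congr 1
    exact congrFun (toC_of M (BF.TC u0_FN 0 0)) p
  rw [h1, ent_add, ent_one, if_pos rfl]
  have h2 : ent (TC 0 u0 0 0 p) s s = u0 (DD s p) := by
    unfold ent
    rw [TC_apply u0_FN, ee_apply]
    unfold sgm wt
    rw [nz_zero, Nat.div_one, one_mul, add_zero, Nat.mod_one, if_pos rfl, if_pos rfl, mul_one]
  rw [h2]
  unfold hh u0
  rw [Complex.add_re, Complex.one_re, Complex.ofReal_re]

lemma hh_nonneg (i : ℕ) (p : PT) : 1 ≤ hh i p := by
  unfold hh
  have := ((DD i p).u 0).2.1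
  linarith

lemma th_ge (D : SD) : 1 ≤ (trc M D (hE M)).re := by
  refine ge_of_tendsto ((Complex.continuous_re.tendsto _).comp (trc_tendsto M D (hE M)))
    (Eventually.of_forall fun k => ?_)
  simp only [Function.comp_apply]
  have h0 : (0 : ℝ) < nz (D.L k) := Nat.cast_pos.mpr (nz_pos _)
  have h1 := avg_hE M (D.L k) (D.p k)
  have h2 : (nz (D.L k) : ℝ) ≤ ∑ i ∈ Finset.range (nz (D.L k)), hh i (D.p k) := by
    calc (nz (D.L k) : ℝ) = ∑ i ∈ Finset.range (nz (D.L k)), (1 : ℝ) := by simp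
      _ ≤ _ := Finset.sum_le_sum fun i _ => hh_nonneg i _
  rw [← h1] at h2
  exact le_of_mul_le_mul_left (by linarith) h0

/-- the diagonal entries -/
def dg (i : ℕ) (w : E) : E := star (VV M i) * w * VV M i

lemma norm_dg_sub_le (i : ℕ) (w w' : E) : ‖dg M i w - dg M i w'‖ ≤ ‖w - w'‖ := by
  unfold dg
  rw [← sub_mul, ← mul_sub]
  calc _ ≤ ‖star (VV M i)‖ * ‖w - w'‖ * ‖VV M i‖ := norm_mul₃_le
    _ ≤ 1 * ‖w - w'‖ * 1 := by
      gcongr
      · exact norm_VV_star_le M i
      · exact norm_VV_le M i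
    _ = _ := by ring

lemma sum_XE {N L M0 : ℕ} (h : M0 ≤ N) (x : Matrix (Fin N) (Fin N) E) (p : PT) :
    ∑ i ∈ Qs N L M0, (XE M N L x p i i).re =
      nz L * ∑ i ∈ Finset.range M0, (avg L (M.ev p (dg M i (emb M x)))).re := by
  rw [Finset.mul_sum]
  have h1 : ∀ i ∈ Qs N L M0, (XE M N L x p i i).re =
      (fun (i : ℕ) (s : Fin (nz L)) => (ent (M.ev p (dg M i (emb M x))) s s).re) i.1 i.2 := by
    intro i _
    simp only
    unfold dg
    rw [emb_entry]
    rfl
  rw [Finset.sum_congr rfl h1]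
  refine (sum_Qs h (fun (i : ℕ) (s : Fin (nz L)) =>
    (ent (M.ev p (dg M i (emb M x))) s s).re)).trans ?_
  refine Finset.sum_congr rfl fun i _ => ?_
  rw [avg_re, Finset.sum_range]

lemma ev_pN (p : PT) (N : ℕ) (f : HH) (n : ℕ) :
    (M.ev p (pN M N)) f n = if (Nat.unpair n).1 < N then f n else 0 := by
  have hV : ∀ k : ℕ, M.ev p (VV M k) = Vop k := fun k => congrFun (toC_VV M k) p
  have h1 : M.ev p (pN M N) = ∑ k ∈ Finset.range N, Vop k * Vst k := by
    unfold pN
    rw [map_sum]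
    refine Finset.sum_congr rfl fun k _ => ?_
    rw [map_mul, map_star, hV, Vop_star]
  have h2 : ∀ s : Finset ℕ, (∑ k ∈ s, Vop k * Vst k : BH) f n =
      ∑ k ∈ s, if (Nat.unpair n).1 = k then f n else 0 := by
    intro s
    induction s using Finset.induction_on with
    | empty => rfl
    | insert k s hk ih =>
      rw [Finset.sum_insert hk, Finset.sum_insert hk, ← ih]
      show (Vop k * Vst k : BH) f n + _ = _
      congr 1
      rw [mulA, Vop_apply, Vst_apply]
      by_cases h : (Nat.unpair n).1 = k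
      · rw [if_pos h, if_pos h, one_mul, ← h, Nat.pair_unpair]
      · rw [if_neg h, if_neg h, zero_mul]
  rw [h1, h2, Finset.sum_ite_eq]
  simp only [Finset.mem_range]

lemma mulVec_bound {N L M0 : ℕ} (x : Matrix (Fin N) (Fin N) E) (p : PT) {θ : ℝ}
    (hθ : ‖emb M x - pN M M0 * emb M x‖ ≤ θ) (v : Fin N × Fin (nz L) → ℂ) :
    ∑ i ∈ (Qs N L M0)ᶜ, ‖(XE M N L x p).mulVec v i‖ ^ 2 ≤ θ ^ 2 * ∑ i, ‖v i‖ ^ 2 := by
  set u : HH := M.ev p (emb M x - pN M M0 * emb M x) (Jm N L v) with hu
  have h1 : ∀ i ∈ (Qs N L M0)ᶜ, ‖(XE M N L x p).mulVec v i‖ ^ 2 = ‖u (pr i)‖ ^ 2 := by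
    intro i hi
    have hi' : ¬ (i.1 : ℕ) < M0 := by
      intro h
      rw [Finset.mem_compl] at hi
      exact hi (Finset.mem_filter.mpr ⟨Finset.mem_univ _, h⟩)
    have h2 : u (pr i) = (XE M N L x p).mulVec v i := by
      rw [XE_eq_cmp, ← inner_cmp, inner_ee, hu, map_sub, map_mul]
      show (M.ev p (emb M x) (Jm N L v)) (pr i) -
        (M.ev p (pN M M0) (M.ev p (emb M x) (Jm N L v))) (pr i) = _
      rw [ev_pN]
      unfold pr
      rw [Nat.unpair_pair, if_neg hi', sub_zero]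
    rw [h2]
  rw [Finset.sum_congr rfl h1]
  refine (sum_pr_le u _).trans ?_
  rw [← norm_Jm, ← mul_pow]
  have h3 : ‖u‖ ≤ θ * ‖Jm N L v‖ := by
    rw [hu]
    refine ((M.ev p _).le_opNorm _).trans ?_
    gcongr
    exact (ev_norm_le M _ p).trans hθ
  gcongr

lemma form_bound {N L : ℕ} (x : Matrix (Fin N) (Fin N) E) (p : PT) {C : ℝ}
    (hC : ‖emb M x‖ ≤ C) (v : Fin N × Fin (nz L) → ℂ) :
    (herm (XE M N L x p) v v).re ≤ C * ∑ i, ‖v i‖ ^ 2 := by
  rw [XE_eq_cmp, herm_cmp, ← norm_Jm]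
  calc _ ≤ ‖inner ℂ (Jm N L v) (M.ev p (emb M x) (Jm N L v))‖ := Complex.re_le_norm _
    _ ≤ ‖Jm N L v‖ * ‖M.ev p (emb M x) (Jm N L v)‖ := norm_inner_le_norm _ _
    _ ≤ ‖Jm N L v‖ * (‖M.ev p (emb M x)‖ * ‖Jm N L v‖) := by
      gcongr; exact (M.ev p (emb M x)).le_opNorm _
    _ ≤ ‖Jm N L v‖ * (C * ‖Jm N L v‖) := by
      gcongr; exact (ev_norm_le M _ p).trans hC
    _ = _ := by ring

lemma ev_sub_le (x y : E) (p : PT) : ‖M.ev p x - M.ev p y‖ ≤ ‖x - y‖ := norm_toC_sub_le M x y p

variable (a : ↥(BB M)) (b : ℕ → ↥(BB M)) (K : ℝ)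

/-- the hypotheses on the element `a` and its roots `b m` -/
structure RH : Prop where
  K1 : 1 ≤ K
  ps : ∀ m, Ps M (b m)
  pow : ∀ m, ((b m : E)) ^ (m + 1) = (a : E)
  nrm : ∀ m : ℕ, ‖b m‖ ≤ K ^ (1 / ((m : ℝ) + 1))
  hd : ∀ D : SD, Tendsto (fun m => tB M D (b m)) atTop (𝓝 (ENNReal.ofReal (trc M D (hE M)).re))

/-- a good approximation of a root -/
lemma root_approx {M} {a : ↥(BB M)} {b : ℕ → ↥(BB M)} {K : ℝ} (h : RH M a b K) (m N0 : ℕ)
    {β θ : ℝ} (hβ : 0 < β) (hθ : 0 < θ) :
    ∃ N, N0 ≤ N ∧ ∃ (l : ℕ) (y : Matrix (Fin N) (Fin N) E), ML M l y ∧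
      ‖emb M (star y * y) - (b m : E)‖ ≤ θ ∧
      ‖emb M ((star y * y) ^ (m + 1)) - (a : E)‖ ≤ β := by
  have hcont : Continuous fun w : E => w ^ (m + 1) := by fun_prop
  obtain ⟨δ, hδ, hd⟩ := (Metric.continuousAt_iff.mp (hcont.continuousAt (x := (b m : E)))) β hβ
  obtain ⟨N, hN, l, y, hy, -, hyc⟩ := approx M (h.ps m) (lt_min hθ (half_pos hδ)) N0
  refine ⟨N, hN, l, y, hy, hyc.trans (min_le_left _ _), ?_⟩
  have h1 : dist (emb M (star y * y)) (b m : E) < δ := by
    rw [dist_eq_norm]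
    refine (hyc.trans (min_le_right _ _)).trans_lt ?_
    linarith
  have h2 := hd h1
  rw [dist_eq_norm, h.pow m, ← emb_pow] at h2
  exact h2.le

lemma tendsto_root {β : ℝ} (hβ : 0 < β) :
    Tendsto (fun m : ℕ => β ^ (1 / ((m : ℝ) + 1))) atTop (𝓝 1) := by
  have h1 : Tendsto (fun m : ℕ => 1 / ((m : ℝ) + 1)) atTop (𝓝 0) :=
    tendsto_one_div_add_atTop_nhds_zero_nat
  have h2 := (Real.continuousAt_const_rpow hβ.ne' (b := 0)).tendsto.comp h1
  rw [Real.rpow_zero] at h2
  exact h2

theorem UB (hMat : S_UBMAT) {M} {a : ↥(BB M)} {b : ℕ → ↥(BB M)} {K : ℝ} (h : RH M a b K)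
    {N : ℕ} {x : Matrix (Fin N) (Fin N) E} {δ η ε : ℝ}
    (hx : ‖emb M x - (a : E)‖ ≤ δ) (hδη : δ < η) (hε : 0 < ε) :
    ∃ L0, ∀ L, L0 ≤ L → ∀ p, ∀ G : Submodule ℂ HH, G ≤ WN N L →
      PosOn (M.ev p (emb M x)) η G →
      (Module.finrank ℂ G : ℝ) ≤ ∑ i ∈ Finset.range (nz L), hh i p + ε * nz L := by
  by_contra hcon
  push Not at hcon
  choose L hL p G hG hpos hfr using hcon
  let D : SD := ⟨L, p, tendsto_atTop_mono hL tendsto_id⟩
  set th := (trc M D (hE M)).re with hth
  have hth1 : 1 ≤ th := th_ge M D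
  have hthL : Tendsto (fun k => (avg (L k) (M.ev (p k) (hE M))).re)
      (hyperfilter ℕ : Filter ℕ) (𝓝 th) :=
    (Complex.continuous_re.tendsto _).comp (trc_tendsto M D (hE M))
  have hβ : 0 < (η - δ) / 2 := by linarith
  have key : ∀ m : ℕ, ENNReal.ofReal ((th + ε) * ((η - δ) / 2) ^ (1 / ((m : ℝ) + 1))) ≤
      tB M D (b m) := by
    intro m
    set c : ℝ := ((η - δ) / 2) ^ (1 / ((m : ℝ) + 1)) with hc
    have hc0 : 0 < c := Real.rpow_pos_of_pos hβ _
    have hcm : c ^ (m + 1) = (η - δ) / 2 := by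
      rw [hc, ← Real.rpow_natCast, ← Real.rpow_mul hβ.le]
      have : 1 / ((m : ℝ) + 1) * ((m + 1 : ℕ) : ℝ) = 1 := by
        push_cast
        field_simp
      rw [this, Real.rpow_one]
    have step : ∀ θ : ℝ, 0 < θ → θ ≤ c →
        ENNReal.ofReal ((th + ε) * (c - θ ^ 2 / c) - θ) ≤ tB M D (b m) := by
      intro θ hθ hθc
      have hcut := Cut.left M (b m).2.2
      obtain ⟨N0, hN0⟩ := (Metric.tendsto_atTop.mp hcut) (θ / 4) (by positivity)
      have hN0' := hN0 N0 le_rfl
      rw [dist_eq_norm] at hN0'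
      have hθ' : 0 < min (θ / 4) (θ / (N0 + 1)) := by positivity
      obtain ⟨N', hN', l', y, hy, h1, h2⟩ := root_approx h m (max N N0) hβ hθ'
      set x' := star y * y with hx'
      have hMx : ML M l' x' := ML.mul M (ML.star M hy) hy
      have h3 : ‖emb M x' - pN M N0 * emb M x'‖ ≤ θ := by
        have e : emb M x' - pN M N0 * emb M x' = (emb M x' - b m) -
            pN M N0 * (emb M x' - b m) - (pN M N0 * (b m : E) - b m) := by
          rw [mul_sub]; abel
        have h4 : ‖emb M x' - (b m : E)‖ ≤ θ / 4 := h1.trans (min_le_left _ _)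
        have h5 : ‖pN M N0 * (emb M x' - b m)‖ ≤ θ / 4 := by
          calc _ ≤ ‖pN M N0‖ * ‖emb M x' - b m‖ := norm_mul_le _ _
            _ ≤ 1 * (θ / 4) := by gcongr; exact norm_pN_le M N0
            _ = _ := one_mul _
        rw [e]
        calc _ ≤ ‖(emb M x' - b m) - pN M N0 * (emb M x' - b m)‖ +
              ‖pN M N0 * (b m : E) - b m‖ := norm_sub_le _ _
          _ ≤ ‖emb M x' - (b m : E)‖ + ‖pN M N0 * (emb M x' - b m)‖ +
              ‖pN M N0 * (b m : E) - b m‖ := by gcongr; exact norm_sub_le _ _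
          _ ≤ θ := by linarith
      have hNN : N ≤ N' := (le_max_left _ _).trans hN'
      have hN0N : N0 ≤ N' := (le_max_right _ _).trans hN'
      have hcc : 0 ≤ c - θ ^ 2 / c := by
        rw [sub_nonneg, div_le_iff₀ hc0]
        nlinarith
      -- the estimate at level `L k`
      have hev : ∀ᶠ k in (hyperfilter ℕ : Filter ℕ),
          ((avg (L k) (M.ev (p k) (hE M))).re + ε) * (c - θ ^ 2 / c) ≤
          ∑ i ∈ Finset.range N0, (avg (L k) (M.ev (p k) (dg M i (emb M x')))).re := by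
        have hl : ∀ᶠ k in (hyperfilter ℕ : Filter ℕ), l' ≤ L k :=
          Nat.hyperfilter_le_atTop (D.hL.eventually_ge_atTop l')
        filter_upwards [hl] with k hk
        have g1 : PosOn (M.ev (p k) (emb M (x' ^ (m + 1)))) ((η - δ) / 2) (G k) := by
          refine (hpos k).mono (δ := δ + (η - δ) / 2) ?_ (by linarith)
          refine (ev_sub_le M _ _ _).trans ?_
          have e : emb M x - emb M (x' ^ (m + 1)) = (emb M x - a) -
              (emb M (x' ^ (m + 1)) - a) := by abel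
          rw [e]
          exact (norm_sub_le _ _).trans (add_le_add hx h2)
        have g2 : G k ≤ WN N' (L k) := (hG k).trans (WN_mono hNN)
        have g3 := posOn_comap (N := N') (L := L k) g1
        rw [← XE_eq_cmp, XE_pow M hMx hk, ← hcm] at g3
        have g4 := hMat _ (XE M N' (L k) x' (p k)) m c θ (Qs N' (L k) N0)
          ((G k).comap (Jm N' (L k))) (XE_posSemidef M hy hk _) hc0 hθ.le hθc g3
          (mulVec_bound M x' (p k) h3)
        rw [finrank_comap_Jm g2, sum_XE M hN0N] at g4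
        have g5 := hfr k
        rw [← avg_hE M] at g5
        have h0 : (0 : ℝ) < nz (L k) := Nat.cast_pos.mpr (nz_pos _)
        have g6 : (nz (L k) : ℝ) * (((avg (L k) (M.ev (p k) (hE M))).re + ε) * (c - θ ^ 2 / c)) ≤
            nz (L k) * ∑ i ∈ Finset.range N0, (avg (L k) (M.ev (p k) (dg M i (emb M x')))).re := by
          refine le_trans ?_ g4
          have := mul_le_mul_of_nonneg_right g5.le hcc
          linarith
        exact le_of_mul_le_mul_left g6 h0
      have hlim : (th + ε) * (c - θ ^ 2 / c) ≤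
          ∑ i ∈ Finset.range N0, (trc M D (dg M i (emb M x'))).re := by
        refine le_of_tendsto_of_tendsto ((hthL.add_const ε).mul_const _) ?_ hev
        exact tendsto_finsetSum _ fun i _ => (Complex.continuous_re.tendsto _).comp
          (trc_tendsto M D (dg M i (emb M x')))
      have hdiff : ∑ i ∈ Finset.range N0, (trc M D (dg M i (emb M x'))).re ≤
          ∑ i ∈ Finset.range N0, (trc M D (enB M i i (b m) : E)).re + θ := by
        have g7 : ∀ i ∈ Finset.range N0, (trc M D (dg M i (emb M x'))).re ≤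
            (trc M D (enB M i i (b m) : E)).re + θ / (N0 + 1) := by
          intro i _
          have g8 : ‖trc M D (dg M i (emb M x') - dg M i (b m : E))‖ ≤ θ / (N0 + 1) :=
            (norm_trc_le M D _).trans ((norm_dg_sub_le M i _ _).trans
              (h1.trans (min_le_right _ _)))
          rw [trc_sub] at g8
          have g9 := (Complex.re_le_norm _).trans g8
          rw [Complex.sub_re] at g9
          have g10 : dg M i (b m : E) = (enB M i i (b m) : E) := rfl
          rw [g10] at g9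
          linarith
        refine (Finset.sum_le_sum g7).trans ?_
        rw [Finset.sum_add_distrib, Finset.sum_const, Finset.card_range, nsmul_eq_mul]
        gcongr
        rw [mul_div_assoc', div_le_iff₀ (by positivity)]
        nlinarith
      refine le_trans (ENNReal.ofReal_le_ofReal ?_) (le_tB M D N0 (h.ps m))
      linarith
    -- let `θ` tend to zero
    have hcont : Tendsto (fun θ : ℝ => ENNReal.ofReal ((th + ε) * (c - θ ^ 2 / c) - θ))
        (𝓝[>] 0) (𝓝 (ENNReal.ofReal ((th + ε) * c))) := by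
      have : Continuous fun θ : ℝ => ENNReal.ofReal ((th + ε) * (c - θ ^ 2 / c) - θ) := by
        refine ENNReal.continuous_ofReal.comp ?_
        fun_prop
      have h5 := (this.tendsto 0).mono_left (nhdsWithin_le_nhds (s := Set.Ioi 0))
      simpa using h5
    refine le_of_tendsto hcont ?_
    filter_upwards [Ioo_mem_nhdsGT hc0] with θ hθ
    exact step θ hθ.1 hθ.2.le
  have hlim1 := h.hd D
  have hlim2 : Tendsto (fun m : ℕ => ENNReal.ofReal
      ((th + ε) * ((η - δ) / 2) ^ (1 / ((m : ℝ) + 1)))) atTop (𝓝 (ENNReal.ofReal (th + ε))) := by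
    have h5 := (ENNReal.continuous_ofReal.tendsto _).comp ((tendsto_root hβ).const_mul (th + ε))
    rw [mul_one] at h5
    exact h5
  have h6 := le_of_tendsto_of_tendsto' hlim2 hlim1 key
  rw [ENNReal.ofReal_le_ofReal_iff (by linarith)] at h6
  linarith

theorem LB (hMat : S_LBMAT) {M} {a : ↥(BB M)} {b : ℕ → ↥(BB M)} {K : ℝ} (h : RH M a b K)
    (N : ℕ → ℕ) (x : ∀ n, Matrix (Fin (N n)) (Fin (N n)) E) (δ η : ℕ → ℝ) (hN : ∀ n, n ≤ N n)
    (hx : ∀ n, ‖emb M (x n) - (a : E)‖ ≤ δ n) (hδ : Tendsto δ atTop (𝓝 0))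
    (hη : Tendsto η atTop (𝓝 0)) {ε : ℝ} (hε : 0 < ε) :
    ∃ n0, ∀ n, n0 ≤ n → ∃ L0, ∀ L, L0 ≤ L → ∀ p, ∃ G : Submodule ℂ HH, G ≤ WN (N n) L ∧
      PosOn (M.ev p (emb M (x n))) (η n) G ∧
      ∑ i ∈ Finset.range (nz L), hh i p - ε * nz L ≤ (Module.finrank ℂ G : ℝ) := by
  by_contra hcon
  push Not at hcon
  choose n hn hcon using hcon
  choose L hL p hG using fun k => hcon k k
  let D : SD := ⟨L, p, tendsto_atTop_mono hL tendsto_id⟩
  have hnt : Tendsto n atTop atTop := tendsto_atTop_mono hn tendsto_id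
  set th := (trc M D (hE M)).re with hth
  have hth1 : 1 ≤ th := th_ge M D
  have hthL : Tendsto (fun k => (avg (L k) (M.ev (p k) (hE M))).re)
      (hyperfilter ℕ : Filter ℕ) (𝓝 th) :=
    (Complex.continuous_re.tendsto _).comp (trc_tendsto M D (hE M))
  have key : ∀ m : ℕ, tB M D (b m) ≤
      ENNReal.ofReal (K ^ (1 / ((m : ℝ) + 1)) * (th - ε)) := by
    intro m
    set Km : ℝ := K ^ (1 / ((m : ℝ) + 1)) with hKm
    have hK0 : 0 < Km := Real.rpow_pos_of_pos (by linarith [h.K1]) _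
    refine tB_le M D (h.ps m) fun M0 => ?_
    have step : ∀ κ : ℝ, 0 < κ →
        ∑ i ∈ Finset.range M0, (trc M D (enB M i i (b m) : E)).re ≤
          (Km + κ) * (th - ε) + κ * M0 + κ := by
      intro κ hκ
      have hβ : 0 < κ ^ (m + 1) / 2 := by positivity
      have hθ' : 0 < min κ (κ / (M0 + 1)) := by positivity
      obtain ⟨N', hN', l', y, hy, h1, h2⟩ := root_approx h m M0 hβ hθ'
      set x' := star y * y with hx'
      have hMx : ML M l' x' := ML.mul M (ML.star M hy) hy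
      have h3 : ‖emb M x'‖ ≤ Km + κ := by
        have e : emb M x' = (b m : E) + (emb M x' - b m) := by abel
        rw [e]
        refine (norm_add_le _ _).trans (add_le_add (h.nrm m) (h1.trans (min_le_left _ _)))
      have hev : ∀ᶠ k in (hyperfilter ℕ : Filter ℕ),
          ∑ i ∈ Finset.range M0, (avg (L k) (M.ev (p k) (dg M i (emb M x')))).re ≤
          (Km + κ) * ((avg (L k) (M.ev (p k) (hE M))).re - ε) + κ * M0 := by
        have hl : ∀ᶠ k in (hyperfilter ℕ : Filter ℕ), l' ≤ L k :=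
          Nat.hyperfilter_le_atTop (D.hL.eventually_ge_atTop l')
        have hl2 : ∀ᶠ k in (hyperfilter ℕ : Filter ℕ), N' ≤ k :=
          Nat.hyperfilter_le_atTop (eventually_ge_atTop N')
        have hl3 : ∀ᶠ k in (hyperfilter ℕ : Filter ℕ), δ (n k) + η (n k) < κ ^ (m + 1) / 2 := by
          refine Nat.hyperfilter_le_atTop ?_
          have h5 : Tendsto (fun k => δ (n k) + η (n k)) atTop (𝓝 (0 + 0)) :=
            (hδ.comp hnt).add (hη.comp hnt)
          rw [add_zero] at h5
          exact h5.eventually_lt_const hβ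
        filter_upwards [hl, hl2, hl3] with k hk hk2 hk3
        obtain ⟨F, hF1, hF2⟩ := hMat _ (XE M N' (L k) x' (p k)) m (Km + κ) κ (Qs N' (L k) M0)
          (XE_posSemidef M hy hk _) hκ (by positivity) (form_bound M x' (p k) h3)
        rw [← XE_pow M hMx hk, XE_eq_cmp] at hF1
        have g1 := posOn_map hF1
        have g2 : PosOn (M.ev (p k) (emb M (x (n k)))) (η (n k)) (F.map (Jm N' (L k))) := by
          refine g1.mono (δ := κ ^ (m + 1) / 2 + δ (n k)) ?_ (by linarith)
          refine (ev_sub_le M _ _ _).trans ?_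
          have e : emb M (x' ^ (m + 1)) - emb M (x (n k)) =
              (emb M (x' ^ (m + 1)) - a) - (emb M (x (n k)) - a) := by abel
          rw [e]
          exact (norm_sub_le _ _).trans (add_le_add h2 (hx _))
        have g3 : F.map (Jm N' (L k)) ≤ WN (N (n k)) (L k) :=
          (map_Jm_le F).trans (WN_mono (hk2.trans ((hn k).trans (hN _))))
        have g4 := hG k _ g3 g2
        rw [finrank_map_Jm, ← avg_hE M] at g4
        rw [sum_XE M hN', card_Qs hN'] at hF2
        have h0 : (0 : ℝ) < nz (L k) := Nat.cast_pos.mpr (nz_pos _)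
        have g6 : (nz (L k) : ℝ) *
            ∑ i ∈ Finset.range M0, (avg (L k) (M.ev (p k) (dg M i (emb M x')))).re ≤
            nz (L k) * ((Km + κ) * ((avg (L k) (M.ev (p k) (hE M))).re - ε) + κ * M0) := by
          refine hF2.trans ?_
          have := mul_le_mul_of_nonneg_left g4.le (show 0 ≤ Km + κ by positivity)
          linarith
        exact le_of_mul_le_mul_left g6 h0
      have hlim : ∑ i ∈ Finset.range M0, (trc M D (dg M i (emb M x'))).re ≤
          (Km + κ) * (th - ε) + κ * M0 := by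
        refine le_of_tendsto_of_tendsto ?_ (((hthL.sub_const ε).const_mul _).add_const _) hev
        exact tendsto_finsetSum _ fun i _ => (Complex.continuous_re.tendsto _).comp
          (trc_tendsto M D (dg M i (emb M x')))
      have hdiff : ∑ i ∈ Finset.range M0, (trc M D (enB M i i (b m) : E)).re ≤
          ∑ i ∈ Finset.range M0, (trc M D (dg M i (emb M x'))).re + κ := by
        have g7 : ∀ i ∈ Finset.range M0, (trc M D (enB M i i (b m) : E)).re ≤
            (trc M D (dg M i (emb M x'))).re + κ / (M0 + 1) := by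
          intro i _
          have g8 : ‖trc M D (dg M i (b m : E) - dg M i (emb M x'))‖ ≤ κ / (M0 + 1) := by
            refine (norm_trc_le M D _).trans ((norm_dg_sub_le M i _ _).trans ?_)
            rw [norm_sub_rev]
            exact h1.trans (min_le_right _ _)
          rw [trc_sub] at g8
          have g9 := (Complex.re_le_norm _).trans g8
          rw [Complex.sub_re] at g9
          have g10 : dg M i (b m : E) = (enB M i i (b m) : E) := rfl
          rw [g10] at g9
          linarith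
        refine (Finset.sum_le_sum g7).trans ?_
        rw [Finset.sum_add_distrib, Finset.sum_const, Finset.card_range, nsmul_eq_mul]
        gcongr
        rw [mul_div_assoc', div_le_iff₀ (by positivity)]
        nlinarith
      linarith
    -- let `κ` tend to zero
    have hcont : Tendsto (fun κ : ℝ => (Km + κ) * (th - ε) + κ * M0 + κ)
        (𝓝[>] 0) (𝓝 (Km * (th - ε))) := by
      have : Continuous fun κ : ℝ => (Km + κ) * (th - ε) + κ * M0 + κ := by fun_prop
      have h5 := (this.tendsto 0).mono_left (nhdsWithin_le_nhds (s := Set.Ioi 0))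
      simpa using h5
    refine ge_of_tendsto hcont ?_
    filter_upwards [self_mem_nhdsWithin] with κ hκ
    exact step κ hκ
  have hlim1 := h.hd D
  have hlim2 : Tendsto (fun m : ℕ => ENNReal.ofReal (K ^ (1 / ((m : ℝ) + 1)) * (th - ε))) atTop
      (𝓝 (ENNReal.ofReal (th - ε))) := by
    have h5 := (ENNReal.continuous_ofReal.tendsto _).comp
      ((tendsto_root (show 0 < K by linarith [h.K1])).mul_const (th - ε))
    rw [one_mul] at h5
    exact h5
  have h6 := le_of_tendsto_of_tendsto' hlim1 hlim2 key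
  rw [ENNReal.ofReal_le_ofReal_iff'] at h6
  rcases h6 with h6 | h6 <;> linarith

end Ambient

end

end Pool.Agent.Y269.RK
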