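import Pool.Agent.Y269.RK.Alg

/-!
The stabilisation of the algebra.
-/

set_option autoImplicit false

namespace Pool.Agent.Y269.RK

open scoped ENNReal
open Pool.Agent.Helper133.BT Pool.Agent.Helper133.BU Filter Topology Pool.Agent.Y269.GP

noncomputable section

/-! ### isometries with orthogonal ranges -/

def Vop (i : ℕ) : BH :=
  wp (fun n => (Nat.unpair n).2) (fun n => if (Nat.unpair n).1 = i then 1 else 0)

def Vst (i : ℕ) : BH := wp (fun k => Nat.pair i k) (fun _ => 1)

lemma Vop_good (i : ℕ) : Good (fun n => (Nat.unpair n).2)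
    (fun n => if (Nat.unpair n).1 = i then (1 : ℂ) else 0) := by
  refine ⟨?_, 1, fun _ => nit _⟩
  intro n m hn hm h
  have h1 : (Nat.unpair n).1 = i := by by_contra h; simp [h] at hn
  have h2 : (Nat.unpair m).1 = i := by by_contra h; simp [h] at hm
  simp only at h
  rw [← Nat.pair_unpair n, ← Nat.pair_unpair m, h1, h2, h]

lemma Vst_good (i : ℕ) : Good (fun k => Nat.pair i k) (fun _ => (1 : ℂ)) := by
  refine ⟨?_, 1, fun _ => by simp⟩
  intro n m _ _ h
  simp only at h
  exact (Nat.pair_eq_pair.mp h).2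

lemma Vop_apply (i : ℕ) (f : HH) (n : ℕ) :
    Vop i f n = (if (Nat.unpair n).1 = i then 1 else 0) * f (Nat.unpair n).2 :=
  wp_apply (Vop_good i) f n

lemma Vst_apply (i : ℕ) (f : HH) (k : ℕ) : Vst i f k = f (Nat.pair i k) := by
  have := wp_apply (Vst_good i) f k
  rw [one_mul] at this
  exact this

lemma Vop_star (i : ℕ) : star (Vop i) = Vst i := by
  refine star_wp (Vop_good i) (Vst_good i) ?_ ?_
  · intro n hn
    have h1 : (Nat.unpair n).1 = i := by by_contra h; simp [h] at hn
    refine ⟨by simp [h1], ?_⟩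
    rw [← h1, Nat.pair_unpair]
  · intro k _
    simp

lemma Vst_Vop (i j : ℕ) : Vst i * Vop j = if i = j then 1 else 0 := by
  refine op_ext fun f k => ?_
  rw [mulA, Vst_apply, Vop_apply, Nat.unpair_pair]
  by_cases h : i = j
  · rw [if_pos h, if_pos h, one_mul]
    rfl
  · rw [if_neg h, if_neg h, zero_mul]
    rfl

lemma Vop_ee (i k : ℕ) : Vop i (ee k) = ee (Nat.pair i k) := by
  refine lp.ext (funext fun n => ?_)
  rw [Vop_apply, ee_apply, ee_apply]
  by_cases h : n = Nat.pair i k
  · subst h
    rw [if_pos rfl, Nat.unpair_pair, if_pos rfl, if_pos rfl, one_mul]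
  · rw [if_neg h]
    by_cases h1 : (Nat.unpair n).1 = i
    · have h3 : ¬ (Nat.unpair n).2 = k := by
        intro h2
        apply h
        rw [← h1, ← h2, Nat.pair_unpair]
      rw [if_neg h3, mul_zero]
    · rw [if_neg h1, zero_mul]

section Ambient

variable {E : Type} [CStarAlgebra E] (M : Amb E)

/-- the isometries in the ambient algebra -/
def VV (i : ℕ) : E := M.of fun _ => Vop i

lemma bf_const (A : BH) : BF (fun _ => A) := ⟨‖A‖, fun _ => le_rfl⟩

lemma toC_VV (i : ℕ) : M.toC (VV M i) = fun _ => Vop i := toC_of M (bf_const _)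

lemma VV_star_mul (i j : ℕ) : star (VV M i) * VV M j = if i = j then 1 else 0 := by
  apply toC_inj M
  rw [toC_mul, toC_star, toC_VV, toC_VV]
  funext p
  show star (Vop i) * Vop j = _
  rw [Vop_star, Vst_Vop]
  split_ifs
  · rw [toC_one]; rfl
  · rw [toC_zero]; rfl

/-- the projections -/
def pN (N : ℕ) : E := ∑ k ∈ Finset.range N, VV M k * star (VV M k)

lemma pN_VV (N i : ℕ) : pN M N * VV M i = if i < N then VV M i else 0 := by
  unfold pN
  rw [Finset.sum_mul]
  have h1 : ∀ k ∈ Finset.range N, VV M k * star (VV M k) * VV M i =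
      if i = k then VV M i else 0 := by
    intro k _
    rw [mul_assoc, VV_star_mul]
    by_cases h : i = k
    · rw [if_pos h.symm, if_pos h, mul_one, h]
    · rw [if_neg (fun h' => h h'.symm), if_neg h, mul_zero]
  rw [Finset.sum_congr rfl h1, Finset.sum_ite_eq]
  simp only [Finset.mem_range]

lemma pN_star (N : ℕ) : star (pN M N) = pN M N := by
  unfold pN
  rw [star_sum]
  exact Finset.sum_congr rfl fun k _ => by rw [star_mul, star_star]

lemma VV_pN (N i : ℕ) : star (VV M i) * pN M N = if i < N then star (VV M i) else 0 := by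
  have := congrArg star (pN_VV M N i)
  rw [star_mul, pN_star] at this
  rw [this]
  split_ifs
  · rfl
  · exact star_zero _

lemma pN_mul (N K : ℕ) (h : N ≤ K) : pN M K * pN M N = pN M N := by
  conv_lhs => rw [show pN M N = ∑ k ∈ Finset.range N, VV M k * star (VV M k) from rfl]
  rw [Finset.mul_sum]
  refine Finset.sum_congr rfl fun k hk => ?_
  rw [← mul_assoc, pN_VV, if_pos (by have := Finset.mem_range.mp hk; omega)]

lemma pN_mul' (N K : ℕ) (h : N ≤ K) : pN M N * pN M K = pN M N := by
  have := congrArg star (pN_mul M N K h)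
  rwa [star_mul, pN_star, pN_star] at this

lemma norm_pN_le (N : ℕ) : ‖pN M N‖ ≤ 1 := by
  have h1 : star (pN M N) * pN M N = pN M N := by rw [pN_star, pN_mul M N N le_rfl]
  have h2 : ‖star (pN M N) * pN M N‖ = ‖pN M N‖ * ‖pN M N‖ := CStarRing.norm_star_mul_self
  rw [h1] at h2
  by_contra hcon
  push Not at hcon
  nlinarith

lemma norm_VV_le (i : ℕ) : ‖VV M i‖ ≤ 1 := by
  have h2 : ‖star (VV M i) * VV M i‖ = ‖VV M i‖ * ‖VV M i‖ := CStarRing.norm_star_mul_self
  rw [VV_star_mul, if_pos rfl] at h2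
  have h3 : ‖(1 : E)‖ ≤ 1 := by
    refine M.norm_le _ 1 zero_le_one fun p => ?_
    rw [map_one]
    exact ContinuousLinearMap.norm_id_le
  by_contra hcon
  push Not at hcon
  nlinarith

lemma norm_VV_star_le (i : ℕ) : ‖star (VV M i)‖ ≤ 1 := by rw [norm_star]; exact norm_VV_le M i

/-- convergence of the two sided cut-offs -/
def Cut (x : E) : Prop := Tendsto (fun N => pN M N * x * pN M N) atTop (𝓝 x)

lemma Cut.right {x : E} (h : Cut M x) : Tendsto (fun N => x * pN M N) atTop (𝓝 x) := by
  rw [Metric.tendsto_atTop]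
  intro ε hε
  obtain ⟨K, hK⟩ := (Metric.tendsto_atTop.mp h) (ε / 2) (by positivity)
  refine ⟨K, fun N hN => ?_⟩
  have h1 := hK K le_rfl
  rw [dist_eq_norm] at h1 ⊢
  have h2 : x * pN M N - x = (x - pN M K * x * pN M K) * pN M N + (pN M K * x * pN M K - x) := by
    rw [sub_mul, mul_assoc (pN M K * x), pN_mul' M K N hN]
    abel
  rw [h2]
  have h3 : ‖x - pN M K * x * pN M K‖ < ε / 2 := by rw [norm_sub_rev]; exact h1
  calc _ ≤ ‖(x - pN M K * x * pN M K) * pN M N‖ + ‖pN M K * x * pN M K - x‖ := norm_add_le _ _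
    _ ≤ ‖x - pN M K * x * pN M K‖ * ‖pN M N‖ + ‖pN M K * x * pN M K - x‖ := by
      gcongr; exact norm_mul_le _ _
    _ ≤ ‖x - pN M K * x * pN M K‖ * 1 + ‖pN M K * x * pN M K - x‖ := by
      gcongr; exact norm_pN_le M N
    _ < ε := by linarith

lemma Cut.star' {x : E} (h : Cut M x) : Cut M (star x) := by
  unfold Cut at h ⊢
  have := h.star
  refine this.congr fun N => ?_
  rw [star_mul, star_mul, pN_star, mul_assoc]

lemma Cut.left {x : E} (h : Cut M x) : Tendsto (fun N => pN M N * x) atTop (𝓝 x) := by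
  have := (Cut.right M (Cut.star' M h)).star
  rw [star_star] at this
  refine this.congr fun N => ?_
  rw [star_mul, star_star, pN_star]

/-- the stabilisation of the algebra -/
def BB : NonUnitalStarSubalgebra ℂ E where
  carrier := {x | (∀ i j, star (VV M i) * x * VV M j ∈ A0 M) ∧ Cut M x}
  add_mem' := by
    rintro x y ⟨hx, hx'⟩ ⟨hy, hy'⟩
    refine ⟨fun i j => ?_, ?_⟩
    · rw [mul_add, add_mul]
      exact add_mem (hx i j) (hy i j)
    · unfold Cut at hx' hy' ⊢
      refine (hx'.add hy').congr fun N => ?_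
      rw [mul_add, add_mul]
  zero_mem' := by
    refine ⟨fun i j => ?_, ?_⟩
    · rw [mul_zero, zero_mul]
      exact zero_mem _
    · unfold Cut
      simp
  mul_mem' := by
    rintro x y ⟨hx, hx'⟩ ⟨hy, hy'⟩
    have h1 : Tendsto (fun N => x * pN M N * y) atTop (𝓝 (x * y)) :=
      (Cut.right M hx').mul_const y
    refine ⟨fun i j => ?_, ?_⟩
    · have h2 : Tendsto (fun N => star (VV M i) * (x * pN M N * y) * VV M j) atTop
          (𝓝 (star (VV M i) * (x * y) * VV M j)) := (h1.const_mul _).mul_const _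
      refine (A0_closed M).mem_of_tendsto h2 (Eventually.of_forall fun N => ?_)
      have e : star (VV M i) * (x * pN M N * y) * VV M j =
          ∑ k ∈ Finset.range N, (star (VV M i) * x * VV M k) * (star (VV M k) * y * VV M j) := by
        unfold pN
        rw [Finset.mul_sum, Finset.sum_mul, Finset.mul_sum, Finset.sum_mul]
        refine Finset.sum_congr rfl fun k _ => ?_
        simp only [mul_assoc]
      show star (VV M i) * (x * pN M N * y) * VV M j ∈ (A0 M : Set E)
      rw [e]
      exact sum_mem fun k _ => mul_mem (hx i k) (hy k j)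
    · have h2 := (Cut.left M hx').mul (Cut.right M hy')
      unfold Cut
      refine h2.congr fun N => ?_
      simp only [mul_assoc]
  smul_mem' := by
    rintro c x ⟨hx, hx'⟩
    refine ⟨fun i j => ?_, ?_⟩
    · rw [mul_smul_comm, smul_mul_assoc]
      exact SMulMemClass.smul_mem c (hx i j)
    · unfold Cut at hx' ⊢
      refine (hx'.const_smul c).congr fun N => ?_
      rw [mul_smul_comm, smul_mul_assoc]
  star_mem' := by
    rintro x ⟨hx, hx'⟩
    refine ⟨fun i j => ?_, Cut.star' M hx'⟩
    have := star_mem (hx j i)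
    rwa [star_mul, star_mul, star_star, ← mul_assoc] at this

lemma mem_BB {x : E} : x ∈ BB M ↔ (∀ i j, star (VV M i) * x * VV M j ∈ A0 M) ∧ Cut M x := Iff.rfl

lemma BB_closed : IsClosed (BB M : Set E) := by
  rw [← isSeqClosed_iff_isClosed]
  intro x y hx hy
  refine ⟨fun i j => ?_, ?_⟩
  · refine (A0_closed M).mem_of_tendsto ((hy.const_mul _).mul_const _)
      (Eventually.of_forall fun n => (hx n).1 i j)
  · unfold Cut
    rw [Metric.tendsto_atTop]
    intro ε hε
    obtain ⟨K, hK⟩ := (Metric.tendsto_atTop.mp hy) (ε / 3) (by positivity)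
    obtain ⟨N0, hN0⟩ := (Metric.tendsto_atTop.mp (hx K).2) (ε / 3) (by positivity)
    refine ⟨N0, fun N hN => ?_⟩
    have h1 := hK K le_rfl
    have h2 := hN0 N hN
    rw [dist_eq_norm] at h1 h2 ⊢
    have h3 : pN M N * y * pN M N - y = pN M N * (y - x K) * pN M N +
        (pN M N * x K * pN M N - x K) + (x K - y) := by
      rw [mul_sub, sub_mul]
      abel
    rw [h3]
    have h4 : ‖pN M N * (y - x K) * pN M N‖ ≤ ‖y - x K‖ := by
      calc _ ≤ ‖pN M N‖ * ‖y - x K‖ * ‖pN M N‖ := norm_mul₃_le
        _ ≤ 1 * ‖y - x K‖ * 1 := by gcongr <;> exact norm_pN_le M N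
        _ = _ := by ring
    have h5 : ‖y - x K‖ < ε / 3 := by rw [norm_sub_rev]; exact h1
    calc _ ≤ ‖pN M N * (y - x K) * pN M N‖ + ‖pN M N * x K * pN M N - x K‖ + ‖x K - y‖ :=
          norm_add₃_le
      _ < ε := by linarith

instance : NonUnitalCStarAlgebra ↥(BB M) :=
  NonUnitalStarSubalgebra.nonUnitalCStarAlgebra (BB M) (h_closed := BB_closed M)

/-- the matrix units -/
def iot (i j : ℕ) (a : ↥(A0 M)) : ↥(BB M) :=
  ⟨VV M i * (a : E) * star (VV M j), by
    refine ⟨fun k l => ?_, ?_⟩
    · have e : star (VV M k) * (VV M i * (a : E) * star (VV M j)) * VV M l =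
          (star (VV M k) * VV M i) * a * (star (VV M j) * VV M l) := by
        simp only [mul_assoc]
      rw [e, VV_star_mul, VV_star_mul]
      have hit : ∀ (P : Prop) [Decidable P], (if P then (1 : E) else 0) ∈ A0 M := by
        intro P _
        split_ifs
        · exact OneMemClass.one_mem (A0 M)
        · exact zero_mem (A0 M)
      exact mul_mem (mul_mem (hit _) a.2) (hit _)
    · unfold Cut
      refine tendsto_const_nhds.congr' ?_
      filter_upwards [eventually_ge_atTop (i + j + 1)] with N hN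
      have e : pN M N * (VV M i * (a : E) * star (VV M j)) * pN M N =
          (pN M N * VV M i) * a * (star (VV M j) * pN M N) := by
        simp only [mul_assoc]
      rw [e, pN_VV, VV_pN, if_pos (by omega), if_pos (by omega)]⟩

lemma iot_coe (i j : ℕ) (a : ↥(A0 M)) :
    ((iot M i j a : ↥(BB M)) : E) = VV M i * (a : E) * star (VV M j) := rfl

/-- the entries of an element of the stabilisation -/
def enB (i j : ℕ) (x : ↥(BB M)) : ↥(A0 M) := ⟨star (VV M i) * (x : E) * VV M j, x.2.1 i j⟩

lemma enB_coe (i j : ℕ) (x : ↥(BB M)) :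
    ((enB M i j x : ↥(A0 M)) : E) = star (VV M i) * (x : E) * VV M j := rfl

lemma enB_iot (i j k l : ℕ) (a : ↥(A0 M)) :
    enB M i j (iot M k l a) = if i = k ∧ j = l then a else 0 := by
  apply Subtype.ext
  rw [enB_coe, iot_coe]
  have e : star (VV M i) * (VV M k * (a : E) * star (VV M l)) * VV M j =
      (star (VV M i) * VV M k) * a * (star (VV M l) * VV M j) := by
    simp only [mul_assoc]
  rw [e, VV_star_mul, VV_star_mul]
  by_cases h1 : i = k
  · by_cases h2 : j = l
    · rw [if_pos h1, if_pos h2.symm, if_pos ⟨h1, h2⟩, one_mul, mul_one]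
    · rw [if_neg (fun h : l = j => h2 h.symm), mul_zero, if_neg (fun h : i = k ∧ j = l => h2 h.2)]
      rfl
  · rw [if_neg h1, zero_mul, zero_mul, if_neg (fun h : i = k ∧ j = l => h1 h.1)]
    rfl

lemma iot_mul (i j k l : ℕ) (a b : ↥(A0 M)) :
    iot M i j a * iot M k l b = if j = k then iot M i l (a * b) else 0 := by
  apply Subtype.ext
  have e : ((iot M i j a * iot M k l b : ↥(BB M)) : E) =
      VV M i * (a : E) * (star (VV M j) * VV M k) * ((b : E) * star (VV M l)) := by
    show VV M i * (a : E) * star (VV M j) * (VV M k * (b : E) * star (VV M l)) = _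
    simp only [mul_assoc]
  rw [e, VV_star_mul]
  by_cases h : j = k
  · rw [if_pos h, if_pos h, mul_one]
    show _ = VV M i * ((a : E) * (b : E)) * star (VV M l)
    simp only [mul_assoc]
  · rw [if_neg h, if_neg h, mul_zero, zero_mul]
    rfl

lemma iot_star (i j : ℕ) (a : ↥(A0 M)) : star (iot M i j a) = iot M j i (star a) := by
  apply Subtype.ext
  show star (VV M i * (a : E) * star (VV M j)) = VV M j * star (a : E) * star (VV M i)
  rw [star_mul, star_mul, star_star, mul_assoc]

lemma iot_add (i j : ℕ) (a b : ↥(A0 M)) : iot M i j (a + b) = iot M i j a + iot M i j b := by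
  apply Subtype.ext
  show VV M i * ((a : E) + (b : E)) * star (VV M j) = _
  rw [mul_add, add_mul]
  rfl

lemma iot_smul (i j : ℕ) (c : ℂ) (a : ↥(A0 M)) : iot M i j (c • a) = c • iot M i j a := by
  apply Subtype.ext
  show VV M i * (c • (a : E)) * star (VV M j) = c • (VV M i * (a : E) * star (VV M j))
  rw [mul_smul_comm, smul_mul_assoc]

/-- the matrix units as linear maps -/
def iotL (i j : ℕ) : ↥(A0 M) →ₗ[ℂ] ↥(BB M) where
  toFun := iot M i j
  map_add' := iot_add M i j
  map_smul' := iot_smul M i j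

lemma iot_inj (i j : ℕ) : Function.Injective (iot M i j) := by
  intro a b h
  have h1 := congrArg (enB M i j) h
  rwa [enB_iot, enB_iot, if_pos ⟨rfl, rfl⟩, if_pos ⟨rfl, rfl⟩] at h1

/-- the corner of an element -/
def cor (N : ℕ) (x : ↥(BB M)) : ↥(BB M) :=
  ∑ i ∈ Finset.range N, ∑ j ∈ Finset.range N, iot M i j (enB M i j x)

lemma cor_coe (N : ℕ) (x : ↥(BB M)) : ((cor M N x : ↥(BB M)) : E) = pN M N * x * pN M N := by
  unfold cor
  rw [AddSubmonoidClass.coe_finsetSum]
  unfold pN
  rw [Finset.sum_mul, Finset.sum_mul]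
  refine Finset.sum_congr rfl fun i _ => ?_
  rw [AddSubmonoidClass.coe_finsetSum, Finset.mul_sum]
  refine Finset.sum_congr rfl fun j _ => ?_
  rw [iot_coe, enB_coe]
  simp only [mul_assoc]

lemma cor_tendsto (x : ↥(BB M)) : Tendsto (fun N => cor M N x) atTop (𝓝 x) := by
  rw [tendsto_subtype_rng]
  simp only [cor_coe]
  exact x.2.2

lemma span_dense :
    (Submodule.span ℂ {b : ↥(BB M) | ∃ i j a, b = iot M i j a}).topologicalClosure = ⊤ := by
  rw [eq_top_iff]
  intro x _
  refine (Submodule.isClosed_topologicalClosure _).mem_of_tendsto (cor_tendsto M x)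
    (Eventually.of_forall fun N => ?_)
  refine Submodule.le_topologicalClosure _ ?_
  unfold cor
  exact Submodule.sum_mem _ fun i _ => Submodule.sum_mem _ fun j _ =>
    Submodule.subset_span ⟨i, j, _, rfl⟩

lemma B_ext {x y : ↥(BB M)} (h : ∀ i j, enB M i j x = enB M i j y) : x = y := by
  have h1 : ∀ N, cor M N x = cor M N y := by
    intro N
    unfold cor
    simp only [h]
  exact tendsto_nhds_unique (cor_tendsto M x) (by simpa only [h1] using cor_tendsto M y)

end Ambient

end

end Pool.Agent.Y269.RK
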