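import Pool.Agent.Y269.RK.Lv

/-!
The self-similar functions with one nonzero entry in the first block.
-/

set_option autoImplicit false

namespace Pool.Agent.Y269.RK

open scoped ENNReal
open Pool.Agent.Helper133.BT Pool.Agent.Helper133.BU Filter Topology Pool.Agent.Y269.GP

noncomputable section

lemma FN.bdd {φ : PT → ℂ} (h : FN φ) : ∃ C : ℝ, 0 ≤ C ∧ ∀ p, ‖φ p‖ ≤ C := by
  obtain ⟨C, hC⟩ := (isCompact_range h.1).isBounded.exists_norm_le
  refine ⟨max C 0, le_max_right _ _, fun p => (hC _ ⟨p, rfl⟩).trans (le_max_left _ _)⟩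

def sgm (L b i : ℕ) : ℕ := nz L * (i / nz L) + b

def wt (L : ℕ) (φ : PT → ℂ) (a : ℕ) (p : PT) (i : ℕ) : ℂ :=
  if i % nz L = a then φ (DD (nz L * (i / nz L)) p) else 0

lemma wt_ne {L : ℕ} {φ : PT → ℂ} {a : ℕ} {p : PT} {i : ℕ} (h : wt L φ a p i ≠ 0) :
    i % nz L = a ∧ wt L φ a p i = φ (DD (nz L * (i / nz L)) p) := by
  unfold wt at h ⊢
  by_cases h' : i % nz L = a
  · exact ⟨h', if_pos h'⟩
  · rw [if_neg h'] at h; exact absurd rfl h

lemma sgm_div {L b : ℕ} (hb : b < nz L) (i : ℕ) : sgm L b i / nz L = i / nz L := by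
  unfold sgm
  rw [Nat.mul_add_div (nz_pos L), Nat.div_eq_of_lt hb, add_zero]

lemma sgm_mod {L b : ℕ} (hb : b < nz L) (i : ℕ) : sgm L b i % nz L = b := by
  unfold sgm
  rw [Nat.mul_add_mod, Nat.mod_eq_of_lt hb]

lemma sgm_self {L i : ℕ} : sgm L (i % nz L) i = i := Nat.div_add_mod i (nz L)

lemma sgm_sgm {L b : ℕ} (hb : b < nz L) (c i : ℕ) : sgm L c (sgm L b i) = sgm L c i := by
  unfold sgm
  rw [Nat.mul_add_div (nz_pos L), Nat.div_eq_of_lt hb, add_zero]

lemma norm_wt_le {L : ℕ} {φ : PT → ℂ} {C : ℝ} (hC0 : 0 ≤ C) (hC : ∀ p, ‖φ p‖ ≤ C) (a : ℕ) (p : PT)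
    (i : ℕ) : ‖wt L φ a p i‖ ≤ C := by
  unfold wt
  split_ifs
  · exact hC _
  · simpa using hC0

lemma TC_good {L : ℕ} {φ : PT → ℂ} (hφ : FN φ) (a b : ℕ) (p : PT) :
    Good (sgm L b) (wt L φ a p) := by
  obtain ⟨C, hC0, hC⟩ := hφ.bdd
  refine ⟨?_, C, norm_wt_le hC0 hC a p⟩
  intro i j hi hj hij
  have h1 := (wt_ne hi).1
  have h2 := (wt_ne hj).1
  unfold sgm at hij
  rw [← Nat.div_add_mod i (nz L), ← Nat.div_add_mod j (nz L), h1, h2]
  omega

/-- the function with first block `φ • e_{ab}` -/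
def TC (L : ℕ) (φ : PT → ℂ) (a b : ℕ) : FF := fun p => wp (sgm L b) (wt L φ a p)

lemma TC_apply {L : ℕ} {φ : PT → ℂ} (hφ : FN φ) (a b : ℕ) (p : PT) (f : HH) (i : ℕ) :
    TC L φ a b p f i = wt L φ a p i * f (sgm L b i) :=
  wp_apply (TC_good hφ a b p) f i

lemma norm_TC_le {L : ℕ} {φ : PT → ℂ} (hφ : FN φ) {C : ℝ} (hC0 : 0 ≤ C) (hC : ∀ p, ‖φ p‖ ≤ C)
    (a b : ℕ) (p : PT) : ‖TC L φ a b p‖ ≤ C :=
  norm_wp_le (TC_good hφ a b p) (norm_wt_le hC0 hC a p)

lemma TC_mul {L : ℕ} {φ ψ : PT → ℂ} (hφ : FN φ) (hψ : FN ψ) (a b d : ℕ) (hb : b < nz L) :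
    TC L φ a b * TC L ψ b d = TC L (fun p => φ p * ψ p) a d := by
  funext p
  refine op_ext fun f i => ?_
  rw [Pi.mul_apply, mulA, TC_apply hφ, TC_apply hψ, TC_apply (hφ.mul hψ), sgm_sgm hb]
  unfold wt
  rw [sgm_mod hb, sgm_div hb, if_pos rfl]
  by_cases h : i % nz L = a
  · rw [if_pos h, if_pos h]
    ring
  · rw [if_neg h, if_neg h]; simp

lemma TC_star {L : ℕ} {φ : PT → ℂ} (hφ : FN φ) {a b : ℕ} (ha : a < nz L) (hb : b < nz L) :
    star (TC L φ a b) = TC L (fun p => (starRingEnd ℂ) (φ p)) b a := by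
  funext p
  rw [Pi.star_apply]
  refine star_wp (TC_good hφ a b p) (TC_good hφ.conj b a p) ?_ ?_
  · intro i hi
    obtain ⟨h1, h2⟩ := wt_ne hi
    rw [h2]
    refine ⟨?_, ?_⟩
    · unfold wt
      rw [sgm_mod hb, sgm_div hb, if_pos rfl]
    · rw [sgm_sgm hb, ← h1, sgm_self]
  · intro i hi
    obtain ⟨h1, h2⟩ := wt_ne hi
    rw [h2]
    refine ⟨?_, ?_⟩
    · unfold wt
      rw [sgm_mod ha, sgm_div ha, if_pos rfl]
      simp
    · rw [sgm_sgm ha, ← h1, sgm_self]

lemma TC_zero (L : ℕ) (a b : ℕ) : TC L (fun _ => 0) a b = 0 := by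
  funext p
  refine op_ext fun f i => ?_
  rw [TC_apply (FN.const 0)]
  unfold wt
  rw [ite_self, zero_mul]
  rfl

lemma TC_add {L : ℕ} {φ ψ : PT → ℂ} (hφ : FN φ) (hψ : FN ψ) (a b : ℕ) :
    TC L φ a b + TC L ψ a b = TC L (fun p => φ p + ψ p) a b := by
  funext p
  refine op_ext fun f i => ?_
  show TC L φ a b p f i + TC L ψ a b p f i = _
  rw [TC_apply hφ, TC_apply hψ, TC_apply (hφ.add hψ), ← add_mul]
  congr 1
  unfold wt
  by_cases h : i % nz L = a
  · rw [if_pos h, if_pos h, if_pos h]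
  · rw [if_neg h, if_neg h, if_neg h, add_zero]

lemma TC_sum {ι : Type} (s : Finset ι) (L : ℕ) {φ : ι → PT → ℂ} (hφ : ∀ i ∈ s, FN (φ i))
    (a b : ℕ) : ∑ x ∈ s, TC L (φ x) a b = TC L (fun p => ∑ x ∈ s, φ x p) a b := by
  classical
  induction s using Finset.induction_on with
  | empty =>
    simp only [Finset.sum_empty]
    exact (TC_zero L a b).symm
  | insert x s hx ih =>
    rw [Finset.sum_insert hx, ih fun i hi => hφ i (Finset.mem_insert_of_mem hi),
      TC_add (hφ x (Finset.mem_insert_self _ _))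
        (FN.sum s fun i hi => hφ i (Finset.mem_insert_of_mem hi))]
    congr 1
    funext p
    rw [Finset.sum_insert hx]

lemma sumF {ι : Type} (s : Finset ι) (T : ι → FF) (p : PT) (f : HH) (i : ℕ) :
    (∑ a ∈ s, T a) p f i = ∑ a ∈ s, T a p f i := by
  classical
  induction s using Finset.induction_on with
  | empty => rfl
  | insert x s hx ih =>
    rw [Finset.sum_insert hx, Finset.sum_insert hx, ← ih]
    rfl

lemma sum_TC_one (L : ℕ) : ∑ a ∈ Finset.range (nz L), TC L (fun _ => 1) a a = 1 := by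
  funext p
  refine op_ext fun f i => ?_
  rw [sumF, Finset.sum_eq_single (i % nz L)]
  · rw [TC_apply (FN.const 1), sgm_self]
    unfold wt
    rw [if_pos rfl, one_mul]
    rfl
  · intro b _ hb
    rw [TC_apply (FN.const 1)]
    unfold wt
    rw [if_neg (fun h => hb h.symm), zero_mul]
  · intro h
    exact absurd (Finset.mem_range.mpr (Nat.mod_lt _ (nz_pos L))) h

lemma lt_nz_iff {L m i : ℕ} (hm : L ≤ m) : i < nz m ↔ i / nz L < nz m / nz L := by
  obtain ⟨c, hc⟩ := nz_dvd hm
  rw [hc, Nat.mul_div_cancel_left _ (nz_pos L), Nat.div_lt_iff_lt_mul (nz_pos L), mul_comm c]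

lemma lt_sgm {L m b : ℕ} (hm : L ≤ m) (hb : b < nz L) (i : ℕ) :
    sgm L b i < nz m ↔ i < nz m := by
  rw [lt_nz_iff hm, sgm_div hb, ← lt_nz_iff hm]

/-- membership in an interval with end points divisible by `nz L` -/
lemma ge_sgm {L s b : ℕ} (hs : nz L ∣ s) (hb : b < nz L) (i : ℕ) : s ≤ sgm L b i ↔ s ≤ i := by
  obtain ⟨c, rfl⟩ := hs
  have key : ∀ j, nz L * c ≤ j ↔ c ≤ j / nz L := by
    intro j
    rw [Nat.le_div_iff_mul_le (nz_pos L), mul_comm]
  rw [key, key, sgm_div hb]

lemma inb_sgm {L l s b : ℕ} (hl : L ≤ l) (hs : nz L ∣ s) (hb : b < nz L) (i : ℕ) :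
    inb l s (sgm L b i) ↔ inb l s i := by
  unfold inb
  rw [ge_sgm hs hb, ← not_le, ge_sgm (dvd_add hs (nz_dvd hl)) hb, not_le]

lemma cb_sgm {L m b : ℕ} (hm : L ≤ m) (hb : b < nz L) (c i : ℕ) : cb m c (sgm L b i) ↔ cb m c i :=
  inb_sgm hm ((nz_dvd hm).mul_left c) hb i

lemma sgm_add {L s b : ℕ} (hs : nz L ∣ s) (i : ℕ) : sgm L b (s + i) = s + sgm L b i := by
  obtain ⟨c, rfl⟩ := hs
  unfold sgm
  rw [Nat.mul_add_div (nz_pos L)]
  ring

lemma wt_block {L : ℕ} {φ : PT → ℂ} {a m c : ℕ} (hm : L ≤ m) (hc : c < kz m) (p : PT) {i : ℕ}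
    (hi : i < nz m) : wt L φ a p (c * nz m + i) = wt L φ a (tr m c p) i := by
  have hd : nz L ∣ c * nz m := (nz_dvd hm).mul_left c
  unfold wt
  have h1 : (c * nz m + i) % nz L = i % nz L := by
    obtain ⟨e, he⟩ := hd
    rw [he, Nat.mul_add_mod]
  have h2 : nz L * ((c * nz m + i) / nz L) = c * nz m + nz L * (i / nz L) := by
    have := sgm_add (b := 0) hd i
    unfold sgm at this
    simpa using this
  have h3 : nz L * (i / nz L) < nz m := (Nat.mul_div_le i (nz L)).trans_lt hi
  rw [h1, h2, DD_block hc h3]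

lemma agr_flip {L l s : ℕ} (p : PT) (h : L ≤ l ∨ nz L ≤ s) : Agr L (flip l s p) p := by
  refine ⟨fun i _ => rfl, fun l' hl' s' hs' => ?_⟩
  exact flip_y_ne p (fun h' => by omega)

/-- goodness of a shifted index -/
lemma good_shift {L l B s : ℕ} (hl : l < L) (hB : nz L ∣ B) (hs : s < nz L) (h : good l (B + s)) :
    live B ∧ good l s := by
  obtain ⟨h1, h2, h3⟩ := h
  obtain ⟨h4, h5⟩ := (live_split hB hs).mp h2
  refine ⟨h4, ?_, h5, ?_⟩
  · exact (Nat.dvd_add_right ((nz_dvd hl.le).trans hB)).mp h1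
  · obtain ⟨e, he⟩ := (nz_dvd (show l + 1 ≤ L from hl)).trans hB
    have h6 : (B + s) / nz l = kz l * e + s / nz l := by
      rw [he, nz_succ, mul_assoc, mul_comm (kz l), mul_assoc, Nat.mul_add_div (nz_pos l),
        mul_comm e]
    rwa [h6, Nat.mul_add_mod] at h3

/-- the parity condition for a function -/
def Par2 (a b : ℕ) (φ : PT → ℂ) : Prop :=
  ∀ l s, good l s → ∀ p, φ (flip l s p) = sk l s a * sk l s b * φ p

/-- locality -/
def Loc (L : ℕ) (φ : PT → ℂ) : Prop := ∀ p p', Agr L p p' → φ p = φ p'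

lemma wt_flip {L : ℕ} {φ : PT → ℂ} {a b : ℕ} (ha : a < nz L) (hb : b < nz L) (hl : Loc L φ)
    (hφ : Par2 a b φ) {j s : ℕ} (hg : good j s) (p : PT) (i : ℕ) :
    wt L φ a (flip j s p) i * sk j s (sgm L b i) = sk j s i * wt L φ a p i := by
  by_cases h : i % nz L = a
  swap
  · unfold wt
    rw [if_neg h, if_neg h]; simp
  set B := nz L * (i / nz L) with hBd
  have hB : nz L ∣ B := Dvd.intro _ rfl
  have hi : i = B + a := by rw [hBd, ← h]; exact (Nat.div_add_mod i (nz L)).symm
  have hs : sgm L b i = B + b := rfl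
  have hwt : ∀ p', wt L φ a p' i = φ (DD B p') := fun p' => if_pos h
  rw [hwt, hwt, hs]
  -- the signs agree unless the block of the sphere is inside the block of `B`
  by_cases hLj : L ≤ j
  · have hsd : nz L ∣ s := (nz_dvd hLj).trans hg.1
    have e1 : sk j s (B + b) = sk j s i := by
      unfold sk
      simp only [← hs, inb_sgm hLj hsd hb i]
    have e2 : φ (DD B (flip j s p)) = φ (DD B p) := by
      by_cases hlv : live B
      · rw [DD_live hlv, DD_live hlv]
        by_cases hsB : s < B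
        · rw [shift_flip_lt hsB]
        · obtain ⟨s', rfl⟩ := Nat.exists_eq_add_of_le (not_lt.mp hsB)
          rw [shift_flip_ge]
          exact hl _ _ (agr_flip _ (Or.inl hLj))
      · rw [DD_dead hlv (flip j s p) p]
    rw [e1, e2]
    ring
  · push Not at hLj
    have hjd : nz j ∣ B := (nz_dvd hLj.le).trans hB
    have hjd' : nz j ∣ nz L := nz_dvd hLj.le
    by_cases hsB : s < B
    · -- the sphere is before the block
      have h1 : s + nz j ≤ B := by
        obtain ⟨x, hx⟩ := hg.1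
        obtain ⟨y, hy⟩ := hjd
        rw [hx, hy] at hsB ⊢
        have := lt_of_mul_lt_mul_left hsB (Nat.zero_le _)
        calc nz j * x + nz j = nz j * (x + 1) := by ring
          _ ≤ nz j * y := Nat.mul_le_mul_left _ this
      have e1 : sk j s (B + b) = 1 := by
        unfold sk inb
        rw [if_neg (by omega)]
      have e2 : sk j s i = 1 := by
        unfold sk inb
        rw [if_neg (by omega)]
      have e3 : φ (DD B (flip j s p)) = φ (DD B p) := by
        by_cases hlv : live B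
        · rw [DD_live hlv, DD_live hlv, shift_flip_lt hsB]
        · rw [DD_dead hlv (flip j s p) p]
      rw [e1, e2, e3]; ring
    · obtain ⟨s', rfl⟩ := Nat.exists_eq_add_of_le (not_lt.mp hsB)
      by_cases hs' : s' < nz L
      · obtain ⟨hlv, hg'⟩ := good_shift hLj hB hs' hg
        have e1 : ∀ x, sk j (B + s') (B + x) = sk j s' x := by
          intro x
          have h0 : inb j (B + s') (B + x) ↔ inb j s' x := by unfold inb; omega
          unfold sk
          by_cases h1 : inb j s' x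
          · rw [if_pos h1, if_pos (h0.mpr h1)]
          · rw [if_neg h1, if_neg (fun h => h1 (h0.mp h))]
        rw [hi, e1, e1, DD_live hlv, DD_live hlv, shift_flip_ge, hφ j s' hg']
        have := sk_mul_self j s' b
        linear_combination (sk j s' a * φ (shift B p)) * this
      · push Not at hs'
        have e1 : sk j (B + s') (B + b) = 1 := by
          unfold sk inb
          rw [if_neg (by omega)]
        have e2 : sk j (B + s') i = 1 := by
          unfold sk inb
          rw [if_neg (by omega)]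
        have e3 : φ (DD B (flip j (B + s') p)) = φ (DD B p) := by
          by_cases hlv : live B
          · rw [DD_live hlv, DD_live hlv, shift_flip_ge]
            exact hl _ _ (agr_flip _ (Or.inr hs'))
          · rw [DD_dead hlv (flip j (B + s') p) p]
        rw [e1, e2, e3]; ring

lemma TC_lev {L : ℕ} {φ : PT → ℂ} (hF : FN φ) {a b : ℕ} (ha : a < nz L) (hb : b < nz L)
    (hl : Loc L φ) (hφ : Par2 a b φ) : Lev L (TC L φ a b) where
  comm m hm p := by
    refine op_ext fun f i => ?_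
    rw [mulA, mulA, TC_apply hF, PR_apply, PR_apply, TC_apply hF]
    simp only [lt_sgm hm hb]
    ring
  shift m hm c hc p := by
    refine op_ext fun f i => ?_
    rw [mulA, mulA, TC_apply hF, SS_apply, SS_apply, TC_apply hF]
    simp only [cb_sgm hm hb]
    by_cases h : cb m c i
    · rw [if_pos h, one_mul, one_mul]
      have hd : nz L ∣ c * nz m := (nz_dvd hm).mul_left c
      have h' := h
      unfold cb at h'
      obtain ⟨i', rfl⟩ := Nat.exists_eq_add_of_le h'.1
      rw [wt_block hm hc p (by omega), sgm_add hd, Nat.add_sub_cancel_left,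
        Nat.add_sub_cancel_left]
    · rw [if_neg h]; simp
  shift' m hm c hc p := by
    refine op_ext fun f i => ?_
    rw [mulA, mulA, SSt_apply, TC_apply hF, TC_apply hF, SSt_apply]
    simp only [lt_sgm hm hb]
    by_cases h : i < nz m
    · rw [if_pos h, one_mul, one_mul]
      have hd : nz L ∣ c * nz m := (nz_dvd hm).mul_left c
      rw [wt_block hm hc p h, sgm_add hd]
    · rw [if_neg h]; simp
  eqv j s hg p := by
    refine op_ext fun f i => ?_
    rw [mulA, mulA, TC_apply hF, gg_apply, gg_apply, TC_apply hF, ← mul_assoc,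
      wt_flip ha hb hl hφ hg, mul_assoc]
  loc p p' h := by
    refine op_ext fun f i => ?_
    rw [mulA, mulA, TC_apply hF, TC_apply hF, PR_apply]
    simp only [lt_sgm le_rfl hb]
    by_cases hi : i < nz L
    · rw [if_pos hi]
      congr 1
      unfold wt
      rw [Nat.div_eq_of_lt hi, mul_zero, DD_zero, DD_zero, hl p p' h]
    · rw [if_neg hi]; simp
  fn i j := by
    have e : ∀ p, ent (TC L φ a b p) i j = wt L φ a p i * (if sgm L b i = j then 1 else 0) := by
      intro p
      unfold ent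
      rw [TC_apply hF, ee_apply]
    by_cases h : i % nz L = a
    · have e' : (fun p => ent (TC L φ a b p) i j) =
          fun p => φ (DD (nz L * (i / nz L)) p) * (if sgm L b i = j then 1 else 0) := by
        funext p
        rw [e]
        unfold wt
        rw [if_pos h]
      rw [e']
      exact (hF.comp_DD _).mul (FN.const _)
    · have e' : (fun p => ent (TC L φ a b p) i j) = fun _ => 0 := by
        funext p
        rw [e]
        unfold wt
        rw [if_neg h, zero_mul]
      rw [e']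
      exact FN.const 0

/-- the entries in the first block -/
lemma TC_ent {L : ℕ} {φ : PT → ℂ} (hF : FN φ) {a b : ℕ} (p : PT) {j : ℕ}
    {i : ℕ} (hi : i < nz L) :
    ent (TC L φ a b p) i j = if i = a ∧ j = b then φ p else 0 := by
  unfold ent
  rw [TC_apply hF, ee_apply]
  unfold wt sgm
  rw [Nat.mod_eq_of_lt hi, Nat.div_eq_of_lt hi, mul_zero, DD_zero, zero_add]
  by_cases h1 : i = a
  · by_cases h2 : b = j
    · rw [if_pos h1, if_pos h2, if_pos ⟨h1, h2.symm⟩, mul_one]
    · rw [if_pos h1, if_neg h2, if_neg (fun h : i = a ∧ j = b => h2 h.2.symm), mul_zero]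
  · rw [if_neg h1, if_neg (fun h : i = a ∧ j = b => h1 h.1), zero_mul]

end

end Pool.Agent.Y269.RK
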