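import Pool.Agent.Y269.RK.Stab

/-!
Limit traces.
-/

set_option autoImplicit false

namespace Pool.Agent.Y269.RK

open scoped ENNReal
open Pool.Agent.Helper133.BT Pool.Agent.Helper133.BU Filter Topology Pool.Agent.Y269.GP

noncomputable section

/-- normalised partial traces -/
def avg (L : ℕ) (A : BH) : ℂ := (nz L : ℂ)⁻¹ * ∑ s ∈ Finset.range (nz L), ent A s s

lemma avg_add (L : ℕ) (A B : BH) : avg L (A + B) = avg L A + avg L B := by
  unfold avg
  simp only [ent_add]
  rw [Finset.sum_add_distrib, mul_add]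

lemma avg_smul (L : ℕ) (c : ℂ) (A : BH) : avg L (c • A) = c * avg L A := by
  unfold avg
  simp only [ent_smul]
  rw [← Finset.mul_sum]
  ring

lemma avg_one (L : ℕ) : avg L 1 = 1 := by
  unfold avg
  simp only [ent_one, if_true]
  have : (nz L : ℂ) ≠ 0 := Nat.cast_ne_zero.mpr (nz_pos L).ne'
  simp [this]

lemma norm_avg_le (L : ℕ) (A : BH) : ‖avg L A‖ ≤ ‖A‖ := by
  unfold avg
  have h0 : (0 : ℝ) < nz L := Nat.cast_pos.mpr (nz_pos L)
  rw [norm_mul, norm_inv, Complex.norm_natCast]
  have h1 : ‖∑ s ∈ Finset.range (nz L), ent A s s‖ ≤ nz L * ‖A‖ := by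
    refine (norm_sum_le _ _).trans ?_
    refine (Finset.sum_le_sum fun s _ => norm_ent_le A s s).trans ?_
    simp
  calc _ ≤ (nz L : ℝ)⁻¹ * (nz L * ‖A‖) := by gcongr
    _ = ‖A‖ := by field_simp

lemma avg_star (L : ℕ) (A : BH) : avg L (star A) = (starRingEnd ℂ) (avg L A) := by
  unfold avg
  rw [map_mul, map_sum, map_inv₀, Complex.conj_natCast]
  simp only [ent_star]

lemma ent_star_mul (A B : BH) (s : ℕ) : ent (star A * B) s s = inner ℂ (A (ee s)) (B (ee s)) := by
  unfold ent
  rw [← inner_ee s, mulA, ContinuousLinearMap.star_eq_adjoint,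
    ContinuousLinearMap.adjoint_inner_right]

lemma avg_star_mul (L : ℕ) (A : BH) : avg L (star A * A) =
    (((nz L : ℝ)⁻¹ * ∑ s ∈ Finset.range (nz L), ‖A (ee s)‖ ^ 2 : ℝ) : ℂ) := by
  unfold avg
  simp only [ent_star_mul, inner_self_eq_norm_sq_to_K]
  push_cast
  rfl

lemma avg_star_mul_nonneg (L : ℕ) (A : BH) : 0 ≤ (avg L (star A * A)).re := by
  rw [avg_star_mul, Complex.ofReal_re]
  positivity

lemma avg_star_mul_im (L : ℕ) (A : BH) : (avg L (star A * A)).im = 0 := by
  rw [avg_star_mul, Complex.ofReal_im]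

lemma avg_mul_le (L : ℕ) (A B : BH) : (avg L (star (B * A) * (B * A))).re ≤
    ‖B‖ ^ 2 * (avg L (star A * A)).re := by
  rw [avg_star_mul, avg_star_mul, Complex.ofReal_re, Complex.ofReal_re]
  have h1 : ∑ s ∈ Finset.range (nz L), ‖(B * A) (ee s)‖ ^ 2 ≤
      ‖B‖ ^ 2 * ∑ s ∈ Finset.range (nz L), ‖A (ee s)‖ ^ 2 := by
    rw [Finset.mul_sum]
    refine Finset.sum_le_sum fun s _ => ?_
    rw [mulA, ← mul_pow]
    exact pow_le_pow_left₀ (norm_nonneg _) (B.le_opNorm _) 2
  calc _ ≤ (nz L : ℝ)⁻¹ * (‖B‖ ^ 2 * ∑ s ∈ Finset.range (nz L), ‖A (ee s)‖ ^ 2) :=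
        mul_le_mul_of_nonneg_left h1 (by positivity)
    _ = _ := by ring

/-- data for a limit trace -/
structure SD where
  L : ℕ → ℕ
  p : ℕ → PT
  hL : Tendsto L atTop atTop

section Ambient

variable {E : Type} [CStarAlgebra E] (M : Amb E) (D : SD)

/-- the limit trace -/
def trc (x : E) : ℂ :=
  limUnder (hyperfilter ℕ : Filter ℕ) (fun k => avg (D.L k) (M.ev (D.p k) x))

lemma trc_tendsto (x : E) :
    Tendsto (fun k => avg (D.L k) (M.ev (D.p k) x)) (hyperfilter ℕ : Filter ℕ)
      (𝓝 (trc M D x)) := by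
  have h1 : ↑((hyperfilter ℕ).map fun k => avg (D.L k) (M.ev (D.p k) x)) ≤
      𝓟 (Metric.closedBall (0 : ℂ) ‖x‖) := by
    rw [Filter.le_principal_iff]
    show _ ∈ Filter.map _ _
    rw [Filter.mem_map]
    refine Filter.univ_mem' fun k => ?_
    rw [Set.mem_preimage, mem_closedBall_zero_iff]
    exact (norm_avg_le _ _).trans (ev_norm_le M x _)
  obtain ⟨z, -, hz⟩ := (isCompact_closedBall (0 : ℂ) ‖x‖).ultrafilter_le_nhds _ h1
  exact tendsto_nhds_limUnder ⟨z, hz⟩

lemma trc_unique {x : E} {z : ℂ}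
    (h : Tendsto (fun k => avg (D.L k) (M.ev (D.p k) x)) (hyperfilter ℕ : Filter ℕ) (𝓝 z)) :
    trc M D x = z := tendsto_nhds_unique (trc_tendsto M D x) h

lemma trc_add (x y : E) : trc M D (x + y) = trc M D x + trc M D y := by
  refine trc_unique M D (((trc_tendsto M D x).add (trc_tendsto M D y)).congr fun k => ?_)
  rw [map_add, avg_add]

lemma trc_smul (c : ℂ) (x : E) : trc M D (c • x) = c * trc M D x := by
  refine trc_unique M D (((trc_tendsto M D x).const_mul c).congr fun k => ?_)
  rw [map_smul, avg_smul]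

lemma norm_trc_le (x : E) : ‖trc M D x‖ ≤ ‖x‖ := by
  refine le_of_tendsto (trc_tendsto M D x).norm (Eventually.of_forall fun k => ?_)
  exact (norm_avg_le _ _).trans (ev_norm_le M x _)

/-- the limit trace as a continuous linear functional -/
def trL : E →L[ℂ] ℂ :=
  LinearMap.mkContinuous
    { toFun := trc M D
      map_add' := trc_add M D
      map_smul' := trc_smul M D } 1 (fun x => by rw [one_mul]; exact norm_trc_le M D x)

lemma trL_apply (x : E) : trL M D x = trc M D x := rfl

lemma trc_continuous : Continuous (trc M D) := (trL M D).continuous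

lemma trc_sub (x y : E) : trc M D (x - y) = trc M D x - trc M D y := map_sub (trL M D) x y

lemma trc_zero : trc M D 0 = 0 := map_zero (trL M D)

lemma trc_sum {ι : Type} (s : Finset ι) (f : ι → E) :
    trc M D (∑ i ∈ s, f i) = ∑ i ∈ s, trc M D (f i) := map_sum (trL M D) f s

lemma trc_one : trc M D 1 = 1 := by
  refine trc_unique M D (tendsto_const_nhds.congr fun k => ?_)
  rw [map_one, avg_one]

lemma trc_star (x : E) : trc M D (star x) = (starRingEnd ℂ) (trc M D x) := by
  refine trc_unique M D (((Complex.continuous_conj.tendsto _).comp (trc_tendsto M D x)).congr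
    fun k => ?_)
  rw [map_star, avg_star]
  rfl

lemma trc_pos (x : E) : 0 ≤ (trc M D (star x * x)).re := by
  refine ge_of_tendsto ((Complex.continuous_re.tendsto _).comp (trc_tendsto M D (star x * x)))
    (Eventually.of_forall fun k => ?_)
  simp only [Function.comp_apply, map_mul, map_star]
  exact avg_star_mul_nonneg _ _

lemma trc_mul_le (x y : E) : (trc M D (star (y * x) * (y * x))).re ≤
    ‖y‖ ^ 2 * (trc M D (star x * x)).re := by
  refine le_of_tendsto_of_tendsto
    ((Complex.continuous_re.tendsto _).comp (trc_tendsto M D (star (y * x) * (y * x))))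
    (((Complex.continuous_re.tendsto _).comp (trc_tendsto M D (star x * x))).const_mul _)
    (Eventually.of_forall fun k => ?_)
  simp only [Function.comp_apply, map_mul, map_star]
  refine (avg_mul_le _ _ _).trans ?_
  have := avg_star_mul_nonneg (D.L k) (M.ev (D.p k) x)
  gcongr
  exact ev_norm_le M y _

/-- the trace property for self-similar functions -/
lemma avg_comm {l : ℕ} {S T : FF} (hS : Lev l S) (hT : Lev l T) {L : ℕ} (hL : l ≤ L) (p : PT) :
    avg L (S p * T p) = avg L (T p * S p) := by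
  unfold avg
  congr 1
  have h1 : ∀ s ∈ Finset.range (nz L), ent (S p * T p) s s =
      ∑ k ∈ Finset.range (nz L), ent (S p) s k * ent (T p) k s := fun s hs =>
    hT.ent_mul hL (S p) p s (Finset.mem_range.mp hs)
  have h2 : ∀ s ∈ Finset.range (nz L), ent (T p * S p) s s =
      ∑ k ∈ Finset.range (nz L), ent (T p) s k * ent (S p) k s := fun s hs =>
    hS.ent_mul hL (T p) p s (Finset.mem_range.mp hs)
  rw [Finset.sum_congr rfl h1, Finset.sum_congr rfl h2, Finset.sum_comm]
  exact Finset.sum_congr rfl fun k _ => Finset.sum_congr rfl fun s _ => mul_comm _ _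

lemma trc_comm {x y : E} (hx : x ∈ A0 M) (hy : y ∈ A0 M) : trc M D (x * y) = trc M D (y * x) := by
  have key : ∀ x ∈ StarAlgebra.adjoin ℂ (gens M), ∀ y ∈ StarAlgebra.adjoin ℂ (gens M),
      trc M D (x * y) = trc M D (y * x) := by
    intro x hx y hy
    obtain ⟨l, hl⟩ := adjoin_lev M hx
    obtain ⟨l', hl'⟩ := adjoin_lev M hy
    refine trc_unique M D ((trc_tendsto M D (y * x)).congr' ?_)
    have h1 : ∀ᶠ k in (hyperfilter ℕ : Filter ℕ), max l l' ≤ D.L k :=
      Nat.hyperfilter_le_atTop (D.hL.eventually_ge_atTop (max l l'))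
    filter_upwards [h1] with k hk
    rw [map_mul, map_mul]
    exact (avg_comm (hl.mono (le_max_left _ _)) (hl'.mono (le_max_right _ _)) hk (D.p k)).symm
  have key2 : ∀ y ∈ StarAlgebra.adjoin ℂ (gens M), ∀ x ∈ A0 M,
      trc M D (x * y) = trc M D (y * x) := by
    intro y hy x hx
    have hcl : IsClosed {x : E | trc M D (x * y) = trc M D (y * x)} :=
      isClosed_eq ((trc_continuous M D).comp (continuous_mul_const y))
        ((trc_continuous M D).comp (continuous_const_mul y))
    exact closure_minimal (fun z hz => key z hz y hy) hcl hx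
  have hcl : IsClosed {y : E | trc M D (x * y) = trc M D (y * x)} :=
    isClosed_eq ((trc_continuous M D).comp (continuous_const_mul x))
      ((trc_continuous M D).comp (continuous_mul_const x))
  exact closure_minimal (fun z hz => key2 z hz x hx) hcl hy

/-! ### the trace on the stabilisation -/

/-- the extension of the trace -/
def tB (x : ↥(BB M)) : ℝ≥0∞ := ∑' i, ENNReal.ofReal (trc M D (enB M i i x : E)).re

lemma enB_add (i j : ℕ) (x y : ↥(BB M)) : enB M i j (x + y) = enB M i j x + enB M i j y := by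
  apply Subtype.ext
  show star (VV M i) * ((x : E) + (y : E)) * VV M j = _
  rw [mul_add, add_mul]
  rfl

lemma enB_sub (i j : ℕ) (x y : ↥(BB M)) : enB M i j (x - y) = enB M i j x - enB M i j y := by
  apply Subtype.ext
  show star (VV M i) * ((x : E) - (y : E)) * VV M j = _
  rw [mul_sub, sub_mul]
  rfl

lemma enB_smul (i j : ℕ) (c : ℂ) (x : ↥(BB M)) : enB M i j (c • x) = c • enB M i j x := by
  apply Subtype.ext
  show star (VV M i) * (c • (x : E)) * VV M j = c • (star (VV M i) * (x : E) * VV M j)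
  rw [mul_smul_comm, smul_mul_assoc]

lemma enB_star (i j : ℕ) (x : ↥(BB M)) : enB M i j (star x) = star (enB M j i x) := by
  apply Subtype.ext
  show star (VV M i) * star (x : E) * VV M j = star (star (VV M j) * (x : E) * VV M i)
  rw [star_mul, star_mul, star_star, mul_assoc]

lemma norm_enB_le (i j : ℕ) (x : ↥(BB M)) : ‖(enB M i j x : E)‖ ≤ ‖x‖ := by
  rw [enB_coe]
  calc _ ≤ ‖star (VV M i)‖ * ‖(x : E)‖ * ‖VV M j‖ := norm_mul₃_le
    _ ≤ 1 * ‖(x : E)‖ * 1 := by
      gcongr
      · exact norm_VV_star_le M i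
      · exact norm_VV_le M j
    _ = ‖(x : E)‖ := by ring
    _ = ‖x‖ := rfl

lemma enB_continuous (i j : ℕ) : Continuous fun x : ↥(BB M) => (enB M i j x : E) := by
  simp only [enB_coe]
  exact (continuous_subtype_val.const_mul _).mul_const _

/-- entries of products -/
lemma enB_mul_tendsto (i j : ℕ) (x y : ↥(BB M)) :
    Tendsto (fun K => ∑ k ∈ Finset.range K, (enB M i k x : E) * (enB M k j y : E)) atTop
      (𝓝 (enB M i j (x * y) : E)) := by
  have h1 : Tendsto (fun N => (x : E) * pN M N * (y : E)) atTop (𝓝 ((x : E) * (y : E))) :=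
    (Cut.right M x.2.2).mul_const _
  have h2 := (h1.const_mul (star (VV M i))).mul_const (VV M j)
  refine h2.congr fun N => ?_
  unfold pN
  rw [Finset.mul_sum, Finset.sum_mul, Finset.mul_sum, Finset.sum_mul]
  refine Finset.sum_congr rfl fun k _ => ?_
  rw [enB_coe, enB_coe]
  simp only [mul_assoc]

/-- the trace of an entry of `star x * x` -/
lemma trc_enB (i : ℕ) (x : ↥(BB M)) :
    ENNReal.ofReal (trc M D (enB M i i (star x * x) : E)).re =
      ∑' k, ENNReal.ofReal (trc M D (star (enB M k i x : E) * (enB M k i x : E))).re := by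
  have h1 := (((trc_continuous M D).tendsto _).comp (enB_mul_tendsto M i i (star x) x))
  have h2 := (Complex.continuous_re.tendsto _).comp h1
  have h3 := (ENNReal.continuous_ofReal.tendsto _).comp h2
  refine tendsto_nhds_unique h3 ?_
  refine (ENNReal.tendsto_nat_tsum
    fun k => ENNReal.ofReal (trc M D (star (enB M k i x : E) * (enB M k i x : E))).re).congr
    fun K => ?_
  simp only [Function.comp_apply]
  rw [trc_sum, Complex.re_sum, ENNReal.ofReal_sum_of_nonneg]
  · refine Finset.sum_congr rfl fun k _ => ?_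
    rw [enB_star]
    rfl
  · intro k _
    rw [enB_star]
    exact trc_pos M D _

lemma tB_star_mul (x : ↥(BB M)) : tB M D (star x * x) =
    ∑' i, ∑' k, ENNReal.ofReal (trc M D (star (enB M k i x : E) * (enB M k i x : E))).re :=
  tsum_congr fun i => trc_enB M D i x

/-- the trace property -/
lemma tB_comm (x : ↥(BB M)) : tB M D (star x * x) = tB M D (x * star x) := by
  have h1 : tB M D (x * star x) = tB M D (star (star x) * star x) := by rw [star_star]
  rw [h1, tB_star_mul, tB_star_mul, ENNReal.tsum_comm]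
  refine tsum_congr fun k => tsum_congr fun i => ?_
  rw [enB_star]
  congr 2
  show trc M D (star (enB M k i x : E) * (enB M k i x : E)) =
    trc M D (star (star (enB M k i x : E)) * star (enB M k i x : E))
  rw [star_star]
  exact trc_comm M D (star_mem (enB M k i x).2) (enB M k i x).2

lemma trc_enB_nonneg (i : ℕ) (x : ↥(BB M)) :
    0 ≤ (trc M D (enB M i i (star x * x) : E)).re := by
  have h1 := (((trc_continuous M D).tendsto _).comp (enB_mul_tendsto M i i (star x) x))
  have h2 := (Complex.continuous_re.tendsto _).comp h1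
  refine ge_of_tendsto' h2 fun K => ?_
  simp only [Function.comp_apply]
  rw [trc_sum, Complex.re_sum]
  refine Finset.sum_nonneg fun k _ => ?_
  rw [enB_star]
  exact trc_pos M D _

/-- positivity -/
def Ps (x : ↥(BB M)) : Prop := ∃ c : ↥(BB M), x = star c * c

variable {M} in
lemma Ps.nonneg {x : ↥(BB M)} (h : Ps M x) (i : ℕ) : 0 ≤ (trc M D (enB M i i x : E)).re := by
  obtain ⟨c, rfl⟩ := h
  exact trc_enB_nonneg M D i c

lemma tB_add {x y : ↥(BB M)} (hx : Ps M x) (hy : Ps M y) : tB M D (x + y) = tB M D x + tB M D y := by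
  unfold tB
  rw [← ENNReal.tsum_add]
  refine tsum_congr fun i => ?_
  rw [← ENNReal.ofReal_add (hx.nonneg D i) (hy.nonneg D i), enB_add]
  show ENNReal.ofReal (trc M D ((enB M i i x : E) + (enB M i i y : E))).re = _
  rw [trc_add, Complex.add_re]

lemma tB_smul {t : ℝ} (ht : 0 ≤ t) (x : ↥(BB M)) :
    tB M D ((t : ℂ) • x) = ENNReal.ofReal t * tB M D x := by
  unfold tB
  rw [← ENNReal.tsum_mul_left]
  refine tsum_congr fun i => ?_
  rw [← ENNReal.ofReal_mul ht, enB_smul]
  show ENNReal.ofReal (trc M D ((t : ℂ) • (enB M i i x : E))).re = _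
  rw [trc_smul, Complex.re_ofReal_mul]

lemma tB_lsc : LowerSemicontinuous (tB M D) := by
  unfold tB
  refine lowerSemicontinuous_tsum fun i => Continuous.lowerSemicontinuous ?_
  exact ENNReal.continuous_ofReal.comp (Complex.continuous_re.comp
    ((trc_continuous M D).comp (enB_continuous M i i)))

lemma tB_iot (a : ↥(A0 M)) : tB M D (iot M 0 0 a) = ENNReal.ofReal (trc M D (a : E)).re := by
  unfold tB
  rw [tsum_eq_single 0]
  · rw [enB_iot, if_pos ⟨rfl, rfl⟩]
  · intro i hi
    rw [enB_iot, if_neg (fun h => hi h.1)]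
    show ENNReal.ofReal (trc M D (0 : E)).re = 0
    rw [trc_zero]
    simp

/-- lower bounds by partial sums -/
lemma le_tB (N : ℕ) {x : ↥(BB M)} (hx : Ps M x) :
    ENNReal.ofReal (∑ i ∈ Finset.range N, (trc M D (enB M i i x : E)).re) ≤ tB M D x := by
  rw [ENNReal.ofReal_sum_of_nonneg fun i _ => hx.nonneg D i]
  exact ENNReal.sum_le_tsum _

/-- upper bounds by partial sums -/
lemma tB_le {x : ↥(BB M)} (hx : Ps M x) {C : ℝ}
    (h : ∀ N, ∑ i ∈ Finset.range N, (trc M D (enB M i i x : E)).re ≤ C) :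
    tB M D x ≤ ENNReal.ofReal C := by
  refine le_of_tendsto' (ENNReal.tendsto_nat_tsum _) fun N => ?_
  rw [← ENNReal.ofReal_sum_of_nonneg fun i _ => hx.nonneg D i]
  exact ENNReal.ofReal_le_ofReal (h N)

end Ambient

end

end Pool.Agent.Y269.RK
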